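import Mathlib

set_option autoImplicit false
open Filter Topology

namespace Pool.Agent.H545Z.Rigid

/-- Affine maps of the plane, as two rows and a translation. -/
abbrev Aff := (ℝ × ℝ) × (ℝ × ℝ) × (ℝ × ℝ)

def lapp (g : Aff) (p : ℝ × ℝ) : ℝ × ℝ :=
  (g.1.1 * p.1 + g.1.2 * p.2, g.2.1.1 * p.1 + g.2.1.2 * p.2)

def app (g : Aff) (p : ℝ × ℝ) : ℝ × ℝ :=
  (g.1.1 * p.1 + g.1.2 * p.2 + g.2.2.1, g.2.1.1 * p.1 + g.2.1.2 * p.2 + g.2.2.2)

def adet (g : Aff) : ℝ := g.1.1 * g.2.1.2 - g.1.2 * g.2.1.1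

def cr (p q : ℝ × ℝ) : ℝ := p.1 * q.2 - p.2 * q.1

def Pres (S : Set (ℝ × ℝ)) (g : Aff) : Prop := adet g ≠ 0 ∧ ∀ p, p ∈ S ↔ app g p ∈ S

noncomputable def ainv (g : Aff) : Aff :=
  ((g.2.1.2 / adet g, -g.1.2 / adet g), (-g.2.1.1 / adet g, g.1.1 / adet g),
    ((g.1.2 * g.2.2.2 - g.2.1.2 * g.2.2.1) / adet g, (g.2.1.1 * g.2.2.1 - g.1.1 * g.2.2.2) / adet g))

def acomp (g h : Aff) : Aff :=
  ((g.1.1 * h.1.1 + g.1.2 * h.2.1.1, g.1.1 * h.1.2 + g.1.2 * h.2.1.2),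
   (g.2.1.1 * h.1.1 + g.2.1.2 * h.2.1.1, g.2.1.1 * h.1.2 + g.2.1.2 * h.2.1.2),
   (g.1.1 * h.2.2.1 + g.1.2 * h.2.2.2 + g.2.2.1, g.2.1.1 * h.2.2.1 + g.2.1.2 * h.2.2.2 + g.2.2.2))

def alin (g : Aff) : Aff := (g.1, g.2.1, (0, 0))

lemma app_acomp (g h : Aff) (p : ℝ × ℝ) : app (acomp g h) p = app g (app h p) := by
  simp only [app, acomp]; ext <;> simp only <;> ring

lemma lapp_acomp (g h : Aff) (p : ℝ × ℝ) : lapp (acomp g h) p = lapp g (lapp h p) := by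
  simp only [lapp, acomp]; ext <;> simp only <;> ring

lemma app_alin (g : Aff) (p : ℝ × ℝ) : app (alin g) p = lapp g p := by
  simp only [app, alin, lapp]; ext <;> simp

lemma lapp_alin (g : Aff) (p : ℝ × ℝ) : lapp (alin g) p = lapp g p := rfl

lemma app_ainv_app {g : Aff} (h : adet g ≠ 0) (p : ℝ × ℝ) : app (ainv g) (app g p) = p := by
  simp only [app, ainv]
  ext <;> simp only <;> field_simp <;> simp only [adet] <;> ring

lemma app_app_ainv {g : Aff} (h : adet g ≠ 0) (p : ℝ × ℝ) : app g (app (ainv g) p) = p := by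
  simp only [app, ainv]
  ext <;> simp only <;> field_simp <;> simp only [adet] <;> ring

lemma lapp_ainv_lapp {g : Aff} (h : adet g ≠ 0) (p : ℝ × ℝ) : lapp (ainv g) (lapp g p) = p := by
  simp only [lapp, ainv]
  ext <;> simp only <;> field_simp <;> simp only [adet] <;> ring

lemma lapp_lapp_ainv {g : Aff} (h : adet g ≠ 0) (p : ℝ × ℝ) : lapp g (lapp (ainv g) p) = p := by
  simp only [lapp, ainv]
  ext <;> simp only <;> field_simp <;> simp only [adet] <;> ring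

lemma adet_ainv {g : Aff} (h : adet g ≠ 0) : adet (ainv g) = (adet g)⁻¹ := by
  have : adet (ainv g) = (g.1.1 * g.2.1.2 - g.1.2 * g.2.1.1) / (adet g) ^ 2 := by
    simp only [adet, ainv]
    have h' : g.1.1 * g.2.1.2 - g.1.2 * g.2.1.1 ≠ 0 := h
    field_simp
  rw [this]
  change adet g / adet g ^ 2 = _
  field_simp

lemma adet_acomp (g h : Aff) : adet (acomp g h) = adet g * adet h := by
  simp only [adet, acomp]; ring

lemma cr_lapp (g : Aff) (p q : ℝ × ℝ) : cr (lapp g p) (lapp g q) = adet g * cr p q := by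
  simp only [cr, lapp, adet]; ring

lemma app_sub (g : Aff) (p q : ℝ × ℝ) : app g p - app g q = lapp g (p - q) := by
  simp only [app, lapp]; ext <;> simp <;> ring

lemma app_add_smul (g : Aff) (p z : ℝ × ℝ) (t : ℝ) :
    app g (p + t • z) = app g p + t • lapp g z := by
  simp only [app, lapp]; ext <;> simp <;> ring

lemma lapp_neg (g : Aff) (z : ℝ × ℝ) : lapp g (-z) = - lapp g z := by
  simp only [lapp]; ext <;> simp <;> ring

lemma Pres.inv {S : Set (ℝ × ℝ)} {g : Aff} (h : Pres S g) : Pres S (ainv g) := by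
  refine ⟨by rw [adet_ainv h.1]; exact inv_ne_zero h.1, fun p => ?_⟩
  rw [h.2 (app (ainv g) p), app_app_ainv h.1]

lemma Pres.comp {S : Set (ℝ × ℝ)} {g h : Aff} (hg : Pres S g) (hh : Pres S h) :
    Pres S (acomp g h) := by
  refine ⟨by rw [adet_acomp]; exact mul_ne_zero hg.1 hh.1, fun p => ?_⟩
  rw [app_acomp, ← hg.2, ← hh.2]

lemma continuous_app (g : Aff) : Continuous (app g) := by
  unfold app; fun_prop

lemma continuous_lapp (g : Aff) : Continuous (lapp g) := by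
  unfold lapp; fun_prop

lemma continuous_app2 : Continuous (fun x : Aff × (ℝ × ℝ) => app x.1 x.2) := by
  unfold app; fun_prop

lemma continuous_lapp2 : Continuous (fun x : Aff × (ℝ × ℝ) => lapp x.1 x.2) := by
  unfold lapp; fun_prop

lemma Pres.closure {S : Set (ℝ × ℝ)} {g : Aff} (h : Pres S g) : Pres (closure S) g := by
  refine ⟨h.1, fun p => ⟨fun hp => ?_, fun hp => ?_⟩⟩
  · exact map_mem_closure (continuous_app g) hp (fun x hx => (h.2 x).1 hx)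
  · have := map_mem_closure (continuous_app (ainv g)) hp (fun x hx => (h.inv.2 x).1 hx)
    rwa [app_ainv_app h.1] at this

/-- Tangent vectors to a set at a point. -/
def Tan (F : Set (ℝ × ℝ)) (r z : ℝ × ℝ) : Prop :=
  ∃ (t : ℕ → ℝ) (w : ℕ → ℝ × ℝ), (∀ n, 0 < t n) ∧ Tendsto t atTop (𝓝 0) ∧
    Tendsto w atTop (𝓝 z) ∧ ∀ n, r + t n • w n ∈ F

def Lie (F : Set (ℝ × ℝ)) (X : Aff) : Prop :=
  ∀ r ∈ F, Tan F r (app X r) ∧ Tan F r (-app X r)

lemma Tan.map {F : Set (ℝ × ℝ)} {g : Aff} (hg : Pres F g) {r z : ℝ × ℝ} (h : Tan F r z) :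
    Tan F (app g r) (lapp g z) := by
  obtain ⟨t, w, h1, h2, h3, h4⟩ := h
  refine ⟨t, fun n => lapp g (w n), h1, h2, ((continuous_lapp g).tendsto z).comp h3, fun n => ?_⟩
  rw [← app_add_smul]
  exact (hg.2 _).1 (h4 n)

noncomputable def conj (g X : Aff) : Aff := acomp (alin g) (acomp X (ainv g))

lemma app_conj {g : Aff} (h : adet g ≠ 0) (X : Aff) (p : ℝ × ℝ) :
    app (conj g X) (app g p) = lapp g (app X p) := by
  rw [conj, app_acomp, app_acomp, app_ainv_app h, app_alin]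

lemma lapp_conj {g : Aff} (h : adet g ≠ 0) (X : Aff) (p : ℝ × ℝ) :
    lapp (conj g X) (lapp g p) = lapp g (lapp X p) := by
  rw [conj, lapp_acomp, lapp_acomp, lapp_ainv_lapp h, lapp_alin]

lemma Lie.conj {F : Set (ℝ × ℝ)} {g X : Aff} (hg : Pres F g) (hX : Lie F X) :
    Lie F (conj g X) := by
  intro r hr
  have hr' : app (ainv g) r ∈ F := (hg.inv.2 r).1 hr
  obtain ⟨h1, h2⟩ := hX _ hr'
  have e1 := h1.map hg
  have e2 := h2.map hg
  rw [lapp_neg] at e2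
  rw [← app_conj hg.1, app_app_ainv hg.1] at e1 e2
  exact ⟨e1, e2⟩

def d2 (q r : ℝ × ℝ) : ℝ := (r.1 - q.1) ^ 2 + (r.2 - q.2) ^ 2

lemma tan_nearest {F : Set (ℝ × ℝ)} {q r z : ℝ × ℝ} (hmin : ∀ s ∈ F, d2 q r ≤ d2 q s)
    (h : Tan F r z) : 0 ≤ z.1 * (r.1 - q.1) + z.2 * (r.2 - q.2) := by
  obtain ⟨t, w, h1, h2, h3, h4⟩ := h
  have hw1 : Tendsto (fun n => (w n).1) atTop (𝓝 z.1) := (continuous_fst.tendsto z).comp h3
  have hw2 : Tendsto (fun n => (w n).2) atTop (𝓝 z.2) := (continuous_snd.tendsto z).comp h3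
  have hl : Tendsto (fun n => 2 * ((w n).1 * (r.1 - q.1) + (w n).2 * (r.2 - q.2)) +
      t n * ((w n).1 ^ 2 + (w n).2 ^ 2)) atTop
      (𝓝 (2 * (z.1 * (r.1 - q.1) + z.2 * (r.2 - q.2)) + 0 * (z.1 ^ 2 + z.2 ^ 2))) :=
    (((hw1.mul_const _).add (hw2.mul_const _)).const_mul 2).add
      (h2.mul ((hw1.pow 2).add (hw2.pow 2)))
  have hge : ∀ n, 0 ≤ 2 * ((w n).1 * (r.1 - q.1) + (w n).2 * (r.2 - q.2)) +
      t n * ((w n).1 ^ 2 + (w n).2 ^ 2) := by
    intro n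
    have h5 := hmin _ (h4 n)
    simp only [d2, Prod.fst_add, Prod.snd_add, Prod.smul_fst, Prod.smul_snd, smul_eq_mul] at h5
    have h6 : 0 ≤ t n * (2 * ((w n).1 * (r.1 - q.1) + (w n).2 * (r.2 - q.2)) +
      t n * ((w n).1 ^ 2 + (w n).2 ^ 2)) := by nlinarith
    exact nonneg_of_mul_nonneg_right h6 (h1 n) |> fun h => h
  have := ge_of_tendsto' hl hge
  linarith

lemma exists_nearest {F : Set (ℝ × ℝ)} (hF : IsClosed F) {s : ℝ × ℝ} (hs : s ∈ F)
    (q : ℝ × ℝ) : ∃ r ∈ F, ∀ s ∈ F, d2 q r ≤ d2 q s := by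
  have hc : Continuous (d2 q) := by unfold d2; fun_prop
  have key : ∀ᶠ x in cocompact (ℝ × ℝ) ⊓ 𝓟 F, d2 q s ≤ d2 q x := by
    apply Filter.Eventually.filter_mono inf_le_left
    have hK : IsCompact (Metric.closedBall q (d2 q s + 1)) := isCompact_closedBall _ _
    filter_upwards [hK.compl_mem_cocompact] with x hx
    simp only [Set.mem_compl_iff, Metric.mem_closedBall, not_le] at hx
    rw [Prod.dist_eq, Real.dist_eq, Real.dist_eq] at hx
    have h0 : 0 ≤ d2 q s := by unfold d2; positivity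
    have : d2 q x = |x.1 - q.1| ^ 2 + |x.2 - q.2| ^ 2 := by simp [d2, sq_abs]
    rw [this]
    rcases lt_max_iff.1 hx with h | h
    · nlinarith [abs_nonneg (x.1 - q.1), sq_nonneg (|x.2 - q.2|)]
    · nlinarith [abs_nonneg (x.2 - q.2), sq_nonneg (|x.1 - q.1|)]
  obtain ⟨r, hr, hmin⟩ := hc.continuousOn.exists_isMinOn' hF hs key
  exact ⟨r, hr, fun s hs => hmin hs⟩

/-- Points where all tangent affine fields are parallel. -/
def Zs (F : Set (ℝ × ℝ)) : Set (ℝ × ℝ) :=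
  {r | ∀ X Y, Lie F X → Lie F Y → cr (app X r) (app Y r) = 0}

lemma nearest_mem_Zs {F : Set (ℝ × ℝ)} {q r : ℝ × ℝ} (hq : q ∉ F) (hr : r ∈ F)
    (hmin : ∀ s ∈ F, d2 q r ≤ d2 q s) : r ∈ Zs F := by
  intro X Y hX hY
  have x1 := tan_nearest hmin (hX r hr).1
  have x2 := tan_nearest hmin (hX r hr).2
  have y1 := tan_nearest hmin (hY r hr).1
  have y2 := tan_nearest hmin (hY r hr).2
  simp only [Prod.fst_neg, Prod.snd_neg] at x2 y2
  have hx : (app X r).1 * (r.1 - q.1) + (app X r).2 * (r.2 - q.2) = 0 := by linarith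
  have hy : (app Y r).1 * (r.1 - q.1) + (app Y r).2 * (r.2 - q.2) = 0 := by linarith
  have hne : r.1 - q.1 ≠ 0 ∨ r.2 - q.2 ≠ 0 := by
    by_contra hcon
    push Not at hcon
    apply hq
    have : q = r := Prod.ext (by linarith [hcon.1]) (by linarith [hcon.2])
    rw [this]; exact hr
  unfold cr
  rcases hne with h | h
  · apply mul_left_cancel₀ h
    linear_combination (app Y r).2 * hx - (app X r).2 * hy
  · apply mul_left_cancel₀ h
    linear_combination (app X r).1 * hy - (app Y r).1 * hx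

lemma isClosed_Zs (F : Set (ℝ × ℝ)) : IsClosed (Zs F) := by
  have : Zs F = ⋂ X, ⋂ Y, ⋂ (_ : Lie F X), ⋂ (_ : Lie F Y), {r | cr (app X r) (app Y r) = 0} := by
    ext r; simp [Zs]
  rw [this]
  refine isClosed_iInter fun X => isClosed_iInter fun Y => isClosed_iInter fun _ =>
    isClosed_iInter fun _ => isClosed_eq ?_ continuous_const
  unfold cr app; fun_prop

lemma Zs_of_app {F : Set (ℝ × ℝ)} {g : Aff} (hg : Pres F g) {p : ℝ × ℝ}
    (hp : app g p ∈ Zs F) : p ∈ Zs F := by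
  intro X Y hX hY
  have := hp _ _ (hX.conj hg) (hY.conj hg)
  rw [app_conj hg.1, app_conj hg.1, cr_lapp] at this
  exact (mul_eq_zero.1 this).resolve_left hg.1

lemma app_mem_Zs {F : Set (ℝ × ℝ)} {g : Aff} (hg : Pres F g) {p : ℝ × ℝ}
    (hp : p ∈ Zs F) : app g p ∈ Zs F := by
  apply Zs_of_app hg.inv
  rwa [app_ainv_app hg.1]

lemma bd_mem_Zs {F : Set (ℝ × ℝ)} (hF : IsClosed F) {s : ℝ × ℝ} (hs : s ∈ F)
    (hb : ∀ ε > 0, ∃ q, q ∉ F ∧ dist q s < ε) : s ∈ Zs F := by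
  rw [← (isClosed_Zs F).closure_eq, Metric.mem_closure_iff]
  intro ε hε
  obtain ⟨q, hq, hqs⟩ := hb (ε / 3) (by positivity)
  obtain ⟨r, hr, hmin⟩ := exists_nearest hF hs q
  refine ⟨r, nearest_mem_Zs hq hr hmin, ?_⟩
  have h1 := hmin s hs
  rw [Prod.dist_eq, Real.dist_eq, Real.dist_eq, max_lt_iff, abs_lt, abs_lt] at hqs
  rw [Prod.dist_eq, Real.dist_eq, Real.dist_eq, max_lt_iff, abs_lt, abs_lt]
  obtain ⟨⟨a1, a2⟩, a3, a4⟩ := hqs
  unfold d2 at h1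
  have b1 : (s.1 - q.1) ^ 2 < (ε / 3) ^ 2 := by nlinarith
  have b2 : (s.2 - q.2) ^ 2 < (ε / 3) ^ 2 := by nlinarith
  have c1 : (r.1 - q.1) ^ 2 < (2 * ε / 3) ^ 2 := by nlinarith [sq_nonneg (r.2 - q.2)]
  have c2 : (r.2 - q.2) ^ 2 < (2 * ε / 3) ^ 2 := by nlinarith [sq_nonneg (r.1 - q.1)]
  have d1 := abs_lt_of_sq_lt_sq' c1 (by positivity)
  have d2' := abs_lt_of_sq_lt_sq' c2 (by positivity)
  refine ⟨⟨?_, ?_⟩, ?_, ?_⟩ <;> linarith [d1.1, d1.2, d2'.1, d2'.2]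

lemma exists_Zs_on_line {F : Set (ℝ × ℝ)} (hF : IsClosed F) {x : ℝ} (h1 : ∃ y, (x, y) ∈ F)
    (h2 : ∃ y, (x, y) ∉ F) : ∃ y, (x, y) ∈ Zs F := by
  by_contra hcon
  push Not at hcon
  have hcl : IsClosed {y : ℝ | (x, y) ∈ F} := hF.preimage (by fun_prop)
  have hop : IsOpen {y : ℝ | (x, y) ∈ F} := by
    rw [Metric.isOpen_iff]
    intro y hy
    by_contra hc
    push Not at hc
    apply hcon y
    apply bd_mem_Zs hF hy
    intro ε hε
    obtain ⟨y', hy1, hy2⟩ := Set.not_subset.1 (hc ε hε)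
    refine ⟨(x, y'), hy2, ?_⟩
    rw [Prod.dist_eq]
    simpa [hε] using hy1
  rcases isClopen_iff.1 ⟨hcl, hop⟩ with h | h
  · obtain ⟨y, hy⟩ := h1
    have : y ∈ {y : ℝ | (x, y) ∈ F} := hy
    rw [h] at this; exact this
  · obtain ⟨y, hy⟩ := h2
    have : y ∈ {y : ℝ | (x, y) ∈ F} := by rw [h]; trivial
    exact hy this

lemma exists_two_Zs {F : Set (ℝ × ℝ)} (hF : IsClosed F) (h1 : ∀ x, ∃ y, (x, y) ∈ F)
    (h2 : ∃ q, q ∉ F) : ∃ r ∈ Zs F, ∃ r' ∈ Zs F, r.1 ≠ r'.1 := by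
  obtain ⟨q, hq⟩ := h2
  obtain ⟨ρ, hρ, hb⟩ := Metric.isOpen_iff.1 hF.isOpen_compl q hq
  obtain ⟨y, hy⟩ := exists_Zs_on_line hF (h1 q.1) ⟨q.2, hq⟩
  obtain ⟨y', hy'⟩ := exists_Zs_on_line hF (h1 (q.1 + ρ / 2)) ⟨q.2, hb (by
    rw [Metric.mem_ball, Prod.dist_eq, Real.dist_eq, Real.dist_eq]
    simp only [add_sub_cancel_left, sub_self, abs_zero, max_lt_iff]
    rw [abs_of_pos (by positivity)]
    constructor <;> linarith)⟩
  exact ⟨_, hy, _, hy', by simp only; linarith⟩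

end Pool.Agent.H545Z.Rigid
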