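import Pool.Agent.H545Z.Rigid1

set_option autoImplicit false
open Filter Topology

namespace Pool.Agent.H545Z.Rigid

def rot (a s C e k : ℝ) : Aff := ((a, -C * s), (s, C * a), (e, k))

def Rig (S : Set (ℝ × ℝ)) : Prop :=
  ∀ c > 0, ∃ a s C e k : ℝ, a ^ 2 + s ^ 2 = 1 ∧ C ^ 2 = c ^ 2 ∧ Pres S (rot a s C e k)

lemma adet_rot {a s C e k : ℝ} (h : a ^ 2 + s ^ 2 = 1) : adet (rot a s C e k) = C := by
  simp only [adet, rot]; linear_combination C * h

lemma Rig.closure {S : Set (ℝ × ℝ)} (h : Rig S) : Rig (closure S) := by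
  intro c hc
  obtain ⟨a, s, C, e, k, h1, h2, h3⟩ := h c hc
  exact ⟨a, s, C, e, k, h1, h2, h3.closure⟩

lemma app_add_smul_left (g Z : Aff) (t : ℝ) (r : ℝ × ℝ) :
    app (g + t • Z) r = app g r + t • app Z r := by
  simp only [app]; ext <;> simp <;> ring

lemma continuousAt_ainv {g : Aff} (h : adet g ≠ 0) : ContinuousAt ainv g := by
  have hd : ContinuousAt adet g := by unfold adet; fun_prop
  unfold ainv
  refine ContinuousAt.prodMk (ContinuousAt.prodMk ?_ ?_)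
    (ContinuousAt.prodMk (ContinuousAt.prodMk ?_ ?_) (ContinuousAt.prodMk ?_ ?_)) <;>
  exact ContinuousAt.div (by fun_prop) hd h

abbrev Par := ℝ × ℝ × ℝ × ℝ × ℝ

def rotP (x : Par) : Aff := rot x.1 x.2.1 x.2.2.1 x.2.2.2.1 x.2.2.2.2

lemma continuous_rotP : Continuous rotP := by
  unfold rotP rot; fun_prop

lemma exists_acc {F : Set (ℝ × ℝ)} (h : Rig F) :
    ∃ x : Par, ∃ u : ℕ → Par, (x.1 ^ 2 + x.2.1 ^ 2 = 1 ∧ Pres F (rotP x)) ∧
      (∀ n, ((u n).1 ^ 2 + (u n).2.1 ^ 2 = 1 ∧ Pres F (rotP (u n))) ∧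
        (u n).2.2.1 ^ 2 ≠ x.2.2.1 ^ 2) ∧ Tendsto u atTop (𝓝 x) := by
  set T : Set Par := {x | x.1 ^ 2 + x.2.1 ^ 2 = 1 ∧ Pres F (rotP x)} with hT
  by_cases hc : ∀ x ∈ T, {y : Par | y.2.2.1 ^ 2 = x.2.2.1 ^ 2} ∈ 𝓝[T] x
  · exfalso
    obtain ⟨t, -, ht, hcov⟩ := TopologicalSpace.countable_cover_nhdsWithin hc
    have hsub : Set.Ioi (0 : ℝ) ⊆ (fun x : Par => |x.2.2.1|) '' t := by
      intro c hc0
      obtain ⟨a, s, C, e, k, h1, h2, h3⟩ := h c hc0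
      have hm : ((a, s, C, e, k) : Par) ∈ T := ⟨h1, h3⟩
      have := hcov hm
      simp only [Set.mem_iUnion, Set.mem_setOf_eq] at this
      obtain ⟨x, hx, hx2⟩ := this
      refine ⟨x, hx, ?_⟩
      have hc0' : (0 : ℝ) < c := hc0
      have : x.2.2.1 ^ 2 = c ^ 2 := by rw [← hx2, h2]
      simp only
      rw [← abs_of_pos hc0']
      exact sq_eq_sq_iff_abs_eq_abs _ _ |>.1 this
    have hcount : (Set.Ioi (0 : ℝ)).Countable := (ht.image _).mono hsub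
    have : (MeasureTheory.volume (Set.Ioi (0 : ℝ))) = 0 := hcount.measure_zero _
    rw [Real.volume_Ioi] at this
    exact ENNReal.top_ne_zero this
  · push Not at hc
    obtain ⟨x, hx, hc⟩ := hc
    have hfr : ∃ᶠ y in 𝓝[T] x, y.2.2.1 ^ 2 ≠ x.2.2.1 ^ 2 := by
      intro hcon
      apply hc
      filter_upwards [hcon] with y hy
      simpa using hy
    have hfr2 := hfr.and_eventually (self_mem_nhdsWithin (s := T) (a := x))
    obtain ⟨u, hu1, hu2⟩ := exists_seq_forall_of_frequently hfr2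
    exact ⟨x, u, hx, fun n => ⟨(hu2 n).2, (hu2 n).1⟩, hu1.mono_right nhdsWithin_le_nhds⟩

lemma tendsto_app {G : ℕ → Aff} {g : Aff} {p : ℕ → ℝ × ℝ} {q : ℝ × ℝ}
    (h1 : Tendsto G atTop (𝓝 g)) (h2 : Tendsto p atTop (𝓝 q)) :
    Tendsto (fun n => app (G n) (p n)) atTop (𝓝 (app g q)) :=
  (continuous_app2.tendsto (g, q)).comp (h1.prodMk_nhds h2)

lemma tendsto_lapp {G : ℕ → Aff} {g : Aff} {p : ℕ → ℝ × ℝ} {q : ℝ × ℝ}
    (h1 : Tendsto G atTop (𝓝 g)) (h2 : Tendsto p atTop (𝓝 q)) :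
    Tendsto (fun n => lapp (G n) (p n)) atTop (𝓝 (lapp g q)) :=
  (continuous_lapp2.tendsto (g, q)).comp (h1.prodMk_nhds h2)

lemma lie_of_seq {F : Set (ℝ × ℝ)} {g W : Aff} {G Z : ℕ → Aff} {t : ℕ → ℝ} (hg : Pres F g)
    (hG : ∀ n, Pres F (G n)) (htpos : ∀ n, 0 < t n) (ht0 : Tendsto t atTop (𝓝 0))
    (hGZ : ∀ n, G n = g + t n • Z n) (hGl : Tendsto G atTop (𝓝 g))
    (hWl : Tendsto Z atTop (𝓝 W)) : Lie F (acomp (alin (ainv g)) W) := by
  intro r hr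
  refine ⟨?_, ?_⟩
  · refine ⟨t, fun n => lapp (ainv g) (app (Z n) r), htpos, ht0, ?_, fun n => ?_⟩
    · rw [app_acomp, app_alin]
      exact tendsto_lapp tendsto_const_nhds (tendsto_app hWl tendsto_const_nhds)
    · have e : r + t n • lapp (ainv g) (app (Z n) r) = app (ainv g) (app (G n) r) := by
        rw [hGZ n, app_add_smul_left, app_add_smul, app_ainv_app hg.1]
      rw [e]
      exact (hg.inv.2 _).1 (((hG n).2 _).1 hr)
  · refine ⟨t, fun n => lapp (ainv (G n)) (-app (Z n) r), htpos, ht0, ?_, fun n => ?_⟩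
    · rw [app_acomp, app_alin, ← lapp_neg]
      have h1 : Tendsto (fun n => ainv (G n)) atTop (𝓝 (ainv g)) :=
        (continuousAt_ainv hg.1).tendsto.comp hGl
      exact tendsto_lapp h1 (tendsto_app hWl tendsto_const_nhds).neg
    · have e0 : app g r = app (G n) r + t n • (-app (Z n) r) := by
        rw [hGZ n, app_add_smul_left, smul_neg]
        abel
      have e : r + t n • lapp (ainv (G n)) (-app (Z n) r) = app (ainv (G n)) (app g r) := by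
        rw [e0, app_add_smul, app_ainv_app (hG n).1]
      rw [e]
      exact ((hG n).inv.2 _).1 ((hg.2 _).1 hr)

lemma acomp_ainv_ne {g W : Aff} (hg : adet g ≠ 0) (hW : W ≠ 0) :
    acomp (alin (ainv g)) W ≠ 0 := by
  intro h0
  apply hW
  have key : ∀ p, app W p = 0 := by
    intro p
    have e1 : app (acomp (alin (ainv g)) W) p = 0 := by
      rw [h0]; simp [app]
    rw [app_acomp, app_alin] at e1
    have e2 := lapp_lapp_ainv hg (app W p)
    rw [e1] at e2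
    rw [← e2]; simp [lapp]
  have k0 := key (0, 0)
  have k1 := key (1, 0)
  have k2 := key (0, 1)
  simp only [app, Prod.ext_iff, Prod.fst_zero, Prod.snd_zero, mul_zero, mul_one, add_zero,
    zero_add] at k0 k1 k2
  obtain ⟨⟨w1, w2⟩, ⟨w3, w4⟩, w5, w6⟩ := W
  simp only at k0 k1 k2
  simp only [Prod.mk_eq_zero]
  refine ⟨⟨?_, ?_⟩, ⟨?_, ?_⟩, ?_, ?_⟩ <;> linarith [k0.1, k0.2, k1.1, k1.2, k2.1, k2.2]

lemma corner_zero {x : Par} {u : ℕ → Par} {W : Aff} {Z : ℕ → Aff} {t : ℕ → ℝ}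
    (hx1 : x.1 ^ 2 + x.2.1 ^ 2 = 1) (hC : x.2.2.1 ≠ 0)
    (hu : ∀ n, (u n).1 ^ 2 + (u n).2.1 ^ 2 = 1) (htpos : ∀ n, 0 < t n)
    (ht0 : Tendsto t atTop (𝓝 0)) (hGZ : ∀ n, rotP (u n) = rotP x + t n • Z n)
    (hWl : Tendsto Z atTop (𝓝 W)) : (acomp (alin (ainv (rotP x))) W).1.1 = 0 := by
  have e : (acomp (alin (ainv (rotP x))) W).1.1 = x.1 * W.1.1 + x.2.1 * W.2.1.1 := by
    have e2 : adet (rotP x) = x.2.2.1 := adet_rot hx1
    simp only [acomp, alin, ainv]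
    rw [e2]
    simp only [rotP, rot]
    field_simp
  rw [e]
  have hz1 : Tendsto (fun n => (Z n).1.1) atTop (𝓝 W.1.1) :=
    ((continuous_fst.comp continuous_fst).tendsto W).comp hWl
  have hz2 : Tendsto (fun n => (Z n).2.1.1) atTop (𝓝 W.2.1.1) :=
    ((continuous_fst.comp (continuous_fst.comp continuous_snd)).tendsto W).comp hWl
  have l1 : Tendsto (fun n => x.1 * (Z n).1.1 + x.2.1 * (Z n).2.1.1) atTop
      (𝓝 (x.1 * W.1.1 + x.2.1 * W.2.1.1)) := (hz1.const_mul _).add (hz2.const_mul _)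
  have l2 : Tendsto (fun n => -(t n / 2) * ((Z n).1.1 ^ 2 + (Z n).2.1.1 ^ 2)) atTop
      (𝓝 (-(0 / 2) * (W.1.1 ^ 2 + W.2.1.1 ^ 2))) :=
    ((ht0.div_const 2).neg).mul ((hz1.pow 2).add (hz2.pow 2))
  have e3 : ∀ n, x.1 * (Z n).1.1 + x.2.1 * (Z n).2.1.1 =
      -(t n / 2) * ((Z n).1.1 ^ 2 + (Z n).2.1.1 ^ 2) := by
    intro n
    have a1 : (u n).1 = x.1 + t n * (Z n).1.1 := by
      have := congrArg (fun y : Aff => y.1.1) (hGZ n)
      simpa [rotP, rot] using this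
    have a2 : (u n).2.1 = x.2.1 + t n * (Z n).2.1.1 := by
      have := congrArg (fun y : Aff => y.2.1.1) (hGZ n)
      simpa [rotP, rot] using this
    have a3 := hu n
    rw [a1, a2] at a3
    apply mul_left_cancel₀ (htpos n).ne'
    linear_combination (1 / 2) * a3 - (1 / 2) * hx1
  simp only [e3] at l1
  have := tendsto_nhds_unique l1 l2
  rw [this]; ring

lemma exists_dir {G : ℕ → Aff} {g : Aff} (hne : ∀ n, G n ≠ g) (hGl : Tendsto G atTop (𝓝 g)) :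
    ∃ (φ : ℕ → ℕ) (t : ℕ → ℝ) (Z : ℕ → Aff) (W : Aff), Tendsto φ atTop atTop ∧ W ≠ 0 ∧
      (∀ n, 0 < t n) ∧ Tendsto t atTop (𝓝 0) ∧ (∀ n, G (φ n) = g + t n • Z n) ∧
      Tendsto Z atTop (𝓝 W) := by
  have htpos : ∀ n, 0 < ‖G n - g‖ := fun n => norm_pos_iff.2 (sub_ne_zero.2 (hne n))
  have ht0 : Tendsto (fun n => ‖G n - g‖) atTop (𝓝 0) := tendsto_iff_norm_sub_tendsto_zero.1 hGl
  have hZs : ∀ n, (‖G n - g‖)⁻¹ • (G n - g) ∈ Metric.sphere (0 : Aff) 1 := by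
    intro n
    rw [mem_sphere_zero_iff_norm, norm_smul, norm_inv, norm_norm]
    exact inv_mul_cancel₀ (htpos n).ne'
  obtain ⟨W, hW, φ, hφ, hWl⟩ := (isCompact_sphere (0 : Aff) 1).tendsto_subseq hZs
  refine ⟨φ, fun n => ‖G (φ n) - g‖, fun n => (‖G (φ n) - g‖)⁻¹ • (G (φ n) - g), W,
    hφ.tendsto_atTop, ?_, fun n => htpos _, ht0.comp hφ.tendsto_atTop, fun n => ?_, hWl⟩
  · intro h0
    rw [h0] at hW
    simp at hW
  · simp only
    rw [smul_smul, mul_inv_cancel₀ (htpos _).ne', one_smul]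
    abel

lemma exists_lie {F : Set (ℝ × ℝ)} (h : Rig F) : ∃ X, Lie F X ∧ X ≠ 0 ∧ X.1.1 = 0 := by
  obtain ⟨x, u, ⟨hx1, hx2⟩, hu, hlim⟩ := exists_acc h
  have hGl : Tendsto (fun n => rotP (u n)) atTop (𝓝 (rotP x)) :=
    (continuous_rotP.tendsto x).comp hlim
  have e2 : adet (rotP x) = x.2.2.1 := adet_rot hx1
  have hne : ∀ n, rotP (u n) ≠ rotP x := by
    intro n e
    apply (hu n).2
    have e1 : adet (rotP (u n)) = (u n).2.2.1 := adet_rot (hu n).1.1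
    rw [← e1, ← e2, e]
  obtain ⟨φ, t, Z, W, hφ, hW, htpos, ht0, hGZ, hWl⟩ := exists_dir hne hGl
  refine ⟨acomp (alin (ainv (rotP x))) W, ?_, acomp_ainv_ne hx2.1 hW, ?_⟩
  · exact lie_of_seq hx2 (fun n => (hu (φ n)).1.2) htpos ht0 hGZ (hGl.comp hφ) hWl
  · exact corner_zero (u := fun n => u (φ n)) hx1 (by rw [← e2]; exact hx2.1)
      (fun n => (hu (φ n)).1.1) htpos ht0 hGZ hWl

end Pool.Agent.H545Z.Rigid
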