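import Pool.Agent.H545Z.Rigid2

set_option autoImplicit false
open Filter Topology

namespace Pool.Agent.H545Z.Rigid

def FixDir (F : Set (ℝ × ℝ)) (w : ℝ × ℝ) : Prop :=
  w ≠ 0 ∧ ∀ g, Pres F g → cr w (lapp g w) = 0

def qf (Q : ℝ × ℝ × ℝ) (p : ℝ × ℝ) : ℝ := Q.1 * p.1 ^ 2 + Q.2.1 * p.1 * p.2 + Q.2.2 * p.2 ^ 2

def InvQ (F : Set (ℝ × ℝ)) (Q : ℝ × ℝ × ℝ) : Prop :=
  (∃ p, qf Q p ≠ 0) ∧ ∀ g, Pres F g → ∃ l : ℝ, ∀ p, qf Q (lapp g p) = l * qf Q p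

def Ps (F : Set (ℝ × ℝ)) : Set (ℝ × ℝ) :=
  {p | ∀ X Y, Lie F X → Lie F Y → cr (lapp X p) (lapp Y p) = 0}

lemma Ps_of_lapp {F : Set (ℝ × ℝ)} {g : Aff} (hg : Pres F g) {p : ℝ × ℝ}
    (hp : lapp g p ∈ Ps F) : p ∈ Ps F := by
  intro X Y hX hY
  have := hp _ _ (hX.conj hg) (hY.conj hg)
  rw [lapp_conj hg.1, lapp_conj hg.1, cr_lapp] at this
  exact (mul_eq_zero.1 this).resolve_left hg.1

lemma unbounded_Zs {F : Set (ℝ × ℝ)} (h : Rig F) {s s' : ℝ × ℝ} (hs : s ∈ Zs F)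
    (hs' : s' ∈ Zs F) (hne : s.2 ≠ s'.2) (n : ℕ) : ∃ z ∈ Zs F, (n : ℝ) < ‖z‖ := by
  have hd : 0 < |s.2 - s'.2| := abs_pos.2 (sub_ne_zero.2 hne)
  have hn : (0 : ℝ) ≤ n := Nat.cast_nonneg n
  obtain ⟨a, b, C, e, k, h1, h2, h3⟩ := h ((3 * n + 1) / |s.2 - s'.2|) (by positivity)
  by_contra hcon
  push Not at hcon
  have z1 := hcon _ (app_mem_Zs h3 hs)
  have z2 := hcon _ (app_mem_Zs h3 hs')
  rw [Prod.norm_def, max_le_iff, Real.norm_eq_abs, Real.norm_eq_abs, abs_le, abs_le] at z1 z2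
  simp only [app, rot] at z1 z2
  obtain ⟨⟨a1, a2⟩, a3, a4⟩ := z1
  obtain ⟨⟨b1, b2⟩, b3, b4⟩ := z2
  have e1 : C ^ 2 * (s.2 - s'.2) ^ 2 = (3 * n + 1) ^ 2 := by
    rw [h2, div_pow, sq_abs]
    have : (s.2 - s'.2) ≠ 0 := sub_ne_zero.2 hne
    field_simp
  set u := a * (s.1 - s'.1) - C * b * (s.2 - s'.2) with hu
  set v := b * (s.1 - s'.1) + C * a * (s.2 - s'.2) with hv
  have u1 : u ^ 2 ≤ (2 * n) ^ 2 := sq_le_sq' (by rw [hu]; linarith) (by rw [hu]; linarith)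
  have v1 : v ^ 2 ≤ (2 * n) ^ 2 := sq_le_sq' (by rw [hv]; linarith) (by rw [hv]; linarith)
  have e2 : u ^ 2 + v ^ 2 = (s.1 - s'.1) ^ 2 + C ^ 2 * (s.2 - s'.2) ^ 2 := by
    rw [hu, hv]
    linear_combination ((s.1 - s'.1) ^ 2 + C ^ 2 * (s.2 - s'.2) ^ 2) * h1
  nlinarith [sq_nonneg (s.1 - s'.1)]

lemma exists_Ps {F : Set (ℝ × ℝ)} (h : ∀ n : ℕ, ∃ z ∈ Zs F, (n : ℝ) < ‖z‖) :
    ∃ p ∈ Ps F, p ≠ 0 := by
  choose z hz hzn using h
  have hpos : ∀ n, 0 < ‖z n‖ := fun n => lt_of_le_of_lt (Nat.cast_nonneg n) (hzn n)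
  have hS : ∀ n, (‖z n‖)⁻¹ • z n ∈ Metric.sphere (0 : ℝ × ℝ) 1 := by
    intro n
    rw [mem_sphere_zero_iff_norm, norm_smul, norm_inv, norm_norm]
    exact inv_mul_cancel₀ (hpos n).ne'
  obtain ⟨p, hp, φ, hφ, hl⟩ := (isCompact_sphere (0 : ℝ × ℝ) 1).tendsto_subseq hS
  have hinf : Tendsto (fun n => ‖z n‖) atTop atTop :=
    tendsto_atTop_mono (fun n => (hzn n).le) tendsto_natCast_atTop_atTop
  have h0 : Tendsto (fun n => (‖z (φ n)‖)⁻¹) atTop (𝓝 0) :=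
    (hinf.comp hφ.tendsto_atTop).inv_tendsto_atTop
  refine ⟨p, fun X Y hX hY => ?_, ?_⟩
  · have hc : Continuous (fun x : (ℝ × ℝ) × ℝ =>
        cr (lapp X x.1 + x.2 • X.2.2) (lapp Y x.1 + x.2 • Y.2.2)) := by
      unfold cr lapp; fun_prop
    have hl2 := (hc.tendsto (p, 0)).comp (hl.prodMk_nhds h0)
    have e : ∀ n, cr (lapp X ((‖z n‖)⁻¹ • z n) + (‖z n‖)⁻¹ • X.2.2)
        (lapp Y ((‖z n‖)⁻¹ • z n) + (‖z n‖)⁻¹ • Y.2.2) = 0 := by
      intro n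
      have := hz n X Y hX hY
      simp only [cr, lapp, app, Prod.fst_add, Prod.snd_add, Prod.smul_fst, Prod.smul_snd,
        smul_eq_mul] at this ⊢
      linear_combination (‖z n‖)⁻¹ ^ 2 * this
    have e2 : ((fun x : (ℝ × ℝ) × ℝ =>
        cr (lapp X x.1 + x.2 • X.2.2) (lapp Y x.1 + x.2 • Y.2.2)) ∘
        fun x => (((fun n => ‖z n‖⁻¹ • z n) ∘ φ) x, ‖z (φ x)‖⁻¹)) = fun _ => 0 := by
      funext n
      exact e (φ n)
    rw [e2] at hl2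
    have := tendsto_nhds_unique hl2 tendsto_const_nhds
    simpa using this
  · intro h
    rw [h] at hp
    simp at hp

def qXY (X Y : Aff) : ℝ × ℝ × ℝ :=
  (X.1.1 * Y.2.1.1 - X.2.1.1 * Y.1.1,
   X.1.1 * Y.2.1.2 + X.1.2 * Y.2.1.1 - X.2.1.1 * Y.1.2 - X.2.1.2 * Y.1.1,
   X.1.2 * Y.2.1.2 - X.2.1.2 * Y.1.2)

lemma qf_qXY (X Y : Aff) (p : ℝ × ℝ) : qf (qXY X Y) p = cr (lapp X p) (lapp Y p) := by
  simp only [qf, qXY, cr, lapp]; ring

def qww (w w' : ℝ × ℝ) : ℝ × ℝ × ℝ :=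
  (w.2 * w'.2, -(w.1 * w'.2 + w.2 * w'.1), w.1 * w'.1)

lemma two_roots {Q : ℝ × ℝ × ℝ} {w w' : ℝ × ℝ} (h : cr w w' ≠ 0) (h1 : qf Q w = 0)
    (h2 : qf Q w' = 0) : ∃ m : ℝ, ∀ p, qf Q p = m * qf (qww w w') p := by
  refine ⟨-qf Q (w + w') / (cr w w') ^ 2, fun p => ?_⟩
  have key : (cr w w') ^ 2 * qf Q p = -qf Q (w + w') * qf (qww w w') p := by
    simp only [qf, qww, cr, Prod.fst_add, Prod.snd_add] at h1 h2 ⊢
    linear_combination ((p.1 * w'.2 - p.2 * w'.1) ^ 2 -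
      (p.1 * w'.2 - p.2 * w'.1) * (w.1 * p.2 - w.2 * p.1)) * h1 +
      ((w.1 * p.2 - w.2 * p.1) ^ 2 - (p.1 * w'.2 - p.2 * w'.1) * (w.1 * p.2 - w.2 * p.1)) * h2
  field_simp
  linear_combination key

lemma caseB {F : Set (ℝ × ℝ)} {p : ℝ × ℝ} (hp : p ∈ Ps F) (hp0 : p ≠ 0) {X Y : Aff}
    (hX : Lie F X) (hY : Lie F Y) {p0 : ℝ × ℝ} (h0 : cr (lapp X p0) (lapp Y p0) ≠ 0) :
    (∃ w, FixDir F w) ∨ ∃ Q, InvQ F Q := by
  by_cases hc : ∀ p' ∈ Ps F, cr p p' = 0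
  · left
    refine ⟨p, hp0, fun g hg => ?_⟩
    have h1 : lapp (ainv g) p ∈ Ps F := Ps_of_lapp hg (by rwa [lapp_lapp_ainv hg.1])
    have h2 := cr_lapp g p (lapp (ainv g) p)
    rw [hc _ h1, lapp_lapp_ainv hg.1] at h2
    simp only [cr] at h2 ⊢
    linarith
  · right
    push Not at hc
    obtain ⟨w, hw, hne⟩ := hc
    obtain ⟨m, hm⟩ := two_roots (Q := qXY X Y) hne (by rw [qf_qXY]; exact hp X Y hX hY)
      (by rw [qf_qXY]; exact hw X Y hX hY)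
    have hm0 := hm p0
    rw [qf_qXY] at hm0
    have hq0 : qf (qww p w) p0 ≠ 0 := by
      intro h; rw [h, mul_zero] at hm0; exact h0 hm0
    refine ⟨qww p w, ⟨p0, hq0⟩, fun g hg => ?_⟩
    obtain ⟨m', hm'⟩ := two_roots (Q := qXY (conj g X) (conj g Y)) hne
      (by rw [qf_qXY]; exact hp _ _ (hX.conj hg) (hY.conj hg))
      (by rw [qf_qXY]; exact hw _ _ (hX.conj hg) (hY.conj hg))
    have key : ∀ q, m' * qf (qww p w) (lapp g q) = adet g * m * qf (qww p w) q := by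
      intro q
      rw [← hm', qf_qXY, lapp_conj hg.1, lapp_conj hg.1, cr_lapp, ← qf_qXY, hm, mul_assoc]
    have hm'0 : m' ≠ 0 := by
      intro h
      have := key p0
      rw [h, zero_mul, mul_assoc, ← hm0] at this
      exact mul_ne_zero hg.1 h0 this.symm
    refine ⟨adet g * m / m', fun q => ?_⟩
    field_simp
    linear_combination key q

lemma rank_one {F : Set (ℝ × ℝ)} {X : Aff} (hX : Lie F X) {w l : ℝ × ℝ} (hw : w ≠ 0)
    (hl : l ≠ 0) (hXl : ∀ p, lapp X p = (l.1 * p.1 + l.2 * p.2) • w)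
    (hA : ∀ X Y, Lie F X → Lie F Y → ∀ p, cr (lapp X p) (lapp Y p) = 0) : FixDir F w := by
  refine ⟨hw, fun g hg => ?_⟩
  by_contra hne
  have key : ∀ p : ℝ × ℝ, (l.1 * (lapp g p).1 + l.2 * (lapp g p).2) * (l.1 * p.1 + l.2 * p.2) = 0 := by
    intro p
    have h1 := hA X _ hX (hX.conj hg) (lapp g p)
    rw [lapp_conj hg.1, hXl, hXl] at h1
    apply mul_right_cancel₀ hne
    simp only [cr, lapp, Prod.smul_fst, Prod.smul_snd, smul_eq_mul] at h1 ⊢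
    linear_combination h1
  have k1 := key (1, 0)
  have k2 := key (0, 1)
  have k3 := key (1, 1)
  have hd := hg.1
  simp only [lapp, adet, mul_one, mul_zero, add_zero, zero_add] at k1 k2 k3 hd
  set m1 := l.1 * g.1.1 + l.2 * g.2.1.1 with hm1
  set m2 := l.1 * g.1.2 + l.2 * g.2.1.2 with hm2
  have k4 : m1 * l.2 + m2 * l.1 = 0 := by
    rw [hm1, hm2]; rw [hm1] at k1; rw [hm2] at k2
    linear_combination k3 - k1 - k2
  have hl' : l.1 ≠ 0 ∨ l.2 ≠ 0 := by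
    by_contra hcon
    push Not at hcon
    exact hl (Prod.ext hcon.1 hcon.2)
  have hm : m1 = 0 ∧ m2 = 0 := by
    rcases hl' with h | h
    · have a1 : m1 = 0 := (mul_eq_zero.1 k1).resolve_right h
      refine ⟨a1, ?_⟩
      rw [a1, zero_mul, zero_add] at k4
      exact (mul_eq_zero.1 k4).resolve_right h
    · have a1 : m2 = 0 := (mul_eq_zero.1 k2).resolve_right h
      refine ⟨?_, a1⟩
      rw [a1, zero_mul, add_zero] at k4
      exact (mul_eq_zero.1 k4).resolve_right h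
  have n1 := hm.1
  have n2 := hm.2
  rw [hm1] at n1
  rw [hm2] at n2
  rcases hl' with h | h
  · apply h
    apply mul_right_cancel₀ hd
    linear_combination g.2.1.2 * n1 - g.2.1.1 * n2
  · apply h
    apply mul_right_cancel₀ hd
    linear_combination g.1.1 * n2 - g.1.2 * n1

lemma caseA {F : Set (ℝ × ℝ)} {X : Aff} (hX : Lie F X) (h11 : X.1.1 = 0)
    (hne : X.1.2 ≠ 0 ∨ X.2.1 ≠ 0)
    (hA : ∀ X Y, Lie F X → Lie F Y → ∀ p, cr (lapp X p) (lapp Y p) = 0) :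
    (∃ w, FixDir F w) ∨ ∃ Q, InvQ F Q := by
  by_cases hb : X.1.2 = 0
  · left
    refine ⟨(0, 1), rank_one hX (l := X.2.1) (by simp) (hne.resolve_left (fun h => h hb))
      (fun p => ?_) hA⟩
    simp [lapp, h11, hb]
  by_cases hc : X.2.1.1 = 0
  · left
    refine ⟨(X.1.2, X.2.1.2), rank_one hX (l := (0, 1)) (by simp [hb]) (by simp)
      (fun p => ?_) hA⟩
    simp [lapp, h11, hc, mul_comm]
  right
  refine ⟨(X.2.1.1, X.2.1.2, -X.1.2), ⟨(1, 0), by simp [qf, hc]⟩, fun g hg => ?_⟩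
  have hq : ∀ p, qf (X.2.1.1, X.2.1.2, -X.1.2) p = cr p (lapp X p) := by
    intro p; simp only [qf, cr, lapp, h11]; ring
  have hY := hA X _ hX (hX.conj hg)
  have hc1 := lapp_conj hg.1 X
  generalize conj g X = Y at hY hc1
  have k1 := hY (1, 0)
  have k2 := hY (0, 1)
  have k3 := hY (1, 1)
  simp only [cr, lapp, h11, mul_one, mul_zero, add_zero, zero_add, zero_mul, zero_sub] at k1 k2 k3
  have a1 : Y.1.1 = 0 := by
    have : X.2.1.1 * Y.1.1 = 0 := by linarith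
    exact (mul_eq_zero.1 this).resolve_left hc
  have hYX : ∀ p, lapp Y p = (Y.1.2 / X.1.2) • lapp X p := by
    intro p
    have a2 : Y.2.1.1 = Y.1.2 / X.1.2 * X.2.1.1 := by
      field_simp
      rw [a1] at k3
      linear_combination k3 - k2
    have a3 : Y.2.1.2 = Y.1.2 / X.1.2 * X.2.1.2 := by
      field_simp
      linear_combination k2
    simp only [lapp, a1, h11]
    ext
    · simp only [Prod.smul_fst, smul_eq_mul]; field_simp; ring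
    · simp only [Prod.smul_snd, smul_eq_mul]; rw [a2, a3]; ring
  have key : ∀ p, (Y.1.2 / X.1.2) * cr (lapp g p) (lapp X (lapp g p)) =
      adet g * cr p (lapp X p) := by
    intro p
    rw [← cr_lapp, ← hc1, hYX]
    simp only [cr, Prod.smul_fst, Prod.smul_snd, smul_eq_mul]; ring
  have hl0 : Y.1.2 / X.1.2 ≠ 0 := by
    intro h
    have := key (1, 0)
    rw [h, zero_mul] at this
    have h2 : cr (1, 0) (lapp X (1, 0)) = X.2.1.1 := by simp [cr, lapp]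
    rw [h2] at this
    exact mul_ne_zero hg.1 hc this.symm
  refine ⟨adet g / (Y.1.2 / X.1.2), fun p => ?_⟩
  rw [hq, hq]
  generalize Y.1.2 / X.1.2 = m at key hl0
  field_simp
  linear_combination key p

theorem dich {F : Set (ℝ × ℝ)} (hF : IsClosed F) (h1 : ∀ x, ∃ y, (x, y) ∈ F)
    (h2 : ∃ q, q ∉ F) (h : Rig F) : (∃ w, FixDir F w) ∨ ∃ Q, InvQ F Q := by
  obtain ⟨X, hX, hX0, h11⟩ := exists_lie h
  obtain ⟨r, hr, r', hr', hrr⟩ := exists_two_Zs hF h1 h2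
  by_cases hlin : X.1.2 = 0 ∧ X.2.1 = 0
  · left
    have happ : ∀ p, app X p = X.2.2 := by
      intro p
      simp [app, h11, hlin.1, hlin.2]
    refine ⟨X.2.2, fun h0 => hX0 ?_, fun g hg => ?_⟩
    · exact Prod.ext (Prod.ext h11 hlin.1) (Prod.ext hlin.2 h0)
    · have := hr X _ hX (hX.conj hg)
      rw [← app_app_ainv hg.1 r, app_conj hg.1, happ, happ] at this
      exact this
  have hne : X.1.2 ≠ 0 ∨ X.2.1 ≠ 0 := by tauto
  by_cases hy : ∀ s ∈ Zs F, ∀ s' ∈ Zs F, s.2 = s'.2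
  · left
    refine ⟨r - r', fun h0 => hrr (by rw [sub_eq_zero.1 h0]), fun g hg => ?_⟩
    rw [← app_sub]
    have e1 := hy _ hr _ hr'
    have e2 := hy _ (app_mem_Zs hg hr) _ (app_mem_Zs hg hr')
    simp only [cr, Prod.fst_sub, Prod.snd_sub, e1, e2]
    ring
  push Not at hy
  obtain ⟨s, hs, s', hs', hss⟩ := hy
  obtain ⟨p, hp, hp0⟩ := exists_Ps (unbounded_Zs h hs hs' hss)
  by_cases hA : ∀ X Y, Lie F X → Lie F Y → ∀ p, cr (lapp X p) (lapp Y p) = 0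
  · exact caseA hX h11 hne hA
  · push Not at hA
    obtain ⟨X', Y', hX', hY', p0, h0⟩ := hA
    exact caseB hp hp0 hX' hY' h0

end Pool.Agent.H545Z.Rigid
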