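import Pool.Agent.H545Z.Rigid3

set_option autoImplicit false
open Filter Topology

namespace Pool.Agent.H545Z.Rigid

lemma invQ_cases {F : Set (ℝ × ℝ)} (h : Rig F) {Q : ℝ × ℝ × ℝ} (hQ : InvQ F Q) :
    (Q.1 = 0 ∧ Q.2.2 = 0) ∨ Q.2.1 ^ 2 = 4 * Q.1 * Q.2.2 := by
  by_cases hd : Q.2.1 ^ 2 = 4 * Q.1 * Q.2.2
  · exact Or.inr hd
  left
  have key : ∀ c > 0, (Q.1 ^ 2 * c ^ 2 - Q.2.2 ^ 2) * (c ^ 2 - 1) = 0 := by
    intro c hc
    obtain ⟨a, s, C, e, k, h1, h2, h3⟩ := h c hc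
    obtain ⟨l, hl⟩ := hQ.2 _ h3
    have k1 := hl (1, 0)
    have k2 := hl (0, 1)
    have k3 := hl (1, 1)
    simp only [qf, lapp, rot] at k1 k2 k3
    obtain ⟨α, β, γ⟩ := Q
    simp only at hd k1 k2 k3 ⊢
    have e1 : l * α = α * a ^ 2 + β * a * s + γ * s ^ 2 := by linear_combination -k1
    have e2 : l * γ = C ^ 2 * (α * s ^ 2 - β * a * s + γ * a ^ 2) := by linear_combination -k2
    have e3 : l * β = C * (-2 * α * a * s + β * (a ^ 2 - s ^ 2) + 2 * γ * a * s) := by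
      linear_combination -k3 + k1 + k2
    have e4 : (l ^ 2 - C ^ 2) * (β ^ 2 - 4 * α * γ) = 0 := by
      have : (l * β) ^ 2 - 4 * (l * α) * (l * γ) = C ^ 2 * (a ^ 2 + s ^ 2) ^ 2 * (β ^ 2 - 4 * α * γ) := by
        rw [e1, e2, e3]; ring
      rw [h1] at this
      linear_combination this
    have e5 : l ^ 2 = c ^ 2 := by
      have := (mul_eq_zero.1 e4).resolve_right (sub_ne_zero.2 hd)
      linarith
    have e6 : l * (c ^ 2 * α + γ) = c ^ 2 * (α + γ) := by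
      rw [← h2]
      linear_combination C ^ 2 * e1 + e2 + C ^ 2 * (α + γ) * h1
    have e7 : c ^ 2 * ((α ^ 2 * c ^ 2 - γ ^ 2) * (c ^ 2 - 1)) = 0 := by
      have : (l * (c ^ 2 * α + γ)) ^ 2 = (c ^ 2 * (α + γ)) ^ 2 := by rw [e6]
      rw [mul_pow, e5] at this
      linear_combination this
    exact (mul_eq_zero.1 e7).resolve_left (by positivity)
  have k2 := key 2 (by norm_num)
  have k3 := key 3 (by norm_num)
  have a1 : Q.1 ^ 2 = 0 := by nlinarith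
  have a2 : Q.2.2 ^ 2 = 0 := by nlinarith
  exact ⟨pow_eq_zero_iff (two_ne_zero) |>.1 a1, pow_eq_zero_iff (two_ne_zero) |>.1 a2⟩

lemma invQ_fix {F : Set (ℝ × ℝ)} {Q : ℝ × ℝ × ℝ} (hQ : InvQ F Q)
    (hd : Q.2.1 ^ 2 = 4 * Q.1 * Q.2.2) : ∃ w, FixDir F w := by
  obtain ⟨⟨p0, hp0⟩, hQ⟩ := hQ
  obtain ⟨α, β, γ⟩ := Q
  simp only at hd
  by_cases hα : α = 0
  · have hβ : β = 0 := by
      rw [hα] at hd
      exact pow_eq_zero_iff (two_ne_zero) |>.1 (by linarith)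
    have hγ : γ ≠ 0 := by
      intro h; apply hp0; simp [qf, hα, hβ, h]
    refine ⟨(1, 0), by simp, fun g hg => ?_⟩
    obtain ⟨l, hl⟩ := hQ g hg
    have := hl (1, 0)
    simp only [qf, hα, hβ, zero_mul, zero_add, add_zero, mul_zero, ne_eq, OfNat.ofNat_ne_zero,
      not_false_eq_true, zero_pow, mul_eq_zero, hγ, false_or, pow_eq_zero_iff] at this
    simp [cr, this]
  · refine ⟨(-β, 2 * α), by simp [hα], fun g hg => ?_⟩
    obtain ⟨l, hl⟩ := hQ g hg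
    have h1 := hl (-β, 2 * α)
    have h2 : qf (α, β, γ) (-β, 2 * α) = 0 := by
      simp only [qf]; linear_combination -α * hd
    rw [h2, mul_zero] at h1
    generalize lapp g (-β, 2 * α) = z at h1 ⊢
    simp only [qf, cr] at h1 ⊢
    have h3 : (2 * α * z.1 + β * z.2) ^ 2 = 0 := by
      linear_combination 4 * α * h1 + z.2 ^ 2 * hd
    have := pow_eq_zero_iff (two_ne_zero) |>.1 h3
    linarith

def Axis (F : Set (ℝ × ℝ)) : Prop :=
  ∀ a s C e k : ℝ, a ^ 2 + s ^ 2 = 1 → Pres F (rot a s C e k) → a * s = 0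

lemma fix_cases {F : Set (ℝ × ℝ)} {w : ℝ × ℝ} (hw : FixDir F w) :
    (∃ m : ℝ, m ≠ 0 ∧ ∀ g, Pres F g → cr (1, m) (lapp g (1, m)) = 0) ∨ Axis F := by
  obtain ⟨hw0, hw⟩ := hw
  by_cases h1 : w.1 = 0
  · right
    intro a s C e k has hp
    have h2 : w.2 ≠ 0 := fun h => hw0 (Prod.ext h1 h)
    have hC : C ≠ 0 := by have := hp.1; rwa [adet_rot has] at this
    have := hw _ hp
    simp only [cr, lapp, rot, h1] at this
    have h3 : C * w.2 ^ 2 * s = 0 := by linear_combination this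
    have : s = 0 := (mul_eq_zero.1 h3).resolve_left (by positivity)
    rw [this, mul_zero]
  by_cases h2 : w.2 = 0
  · right
    intro a s C e k has hp
    have := hw _ hp
    simp only [cr, lapp, rot, h2] at this
    have h3 : w.1 ^ 2 * s = 0 := by linear_combination this
    have : s = 0 := (mul_eq_zero.1 h3).resolve_left (by positivity)
    rw [this, mul_zero]
  left
  refine ⟨w.2 / w.1, div_ne_zero h2 h1, fun g hg => ?_⟩
  have := hw g hg
  simp only [cr, lapp] at this ⊢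
  field_simp
  linear_combination this

theorem trich {F : Set (ℝ × ℝ)} (hF : IsClosed F) (h1 : ∀ x, ∃ y, (x, y) ∈ F)
    (h2 : ∃ q, q ∉ F) (h : Rig F) :
    (∃ m : ℝ, m ≠ 0 ∧ ∀ g, Pres F g → cr (1, m) (lapp g (1, m)) = 0) ∨ Axis F := by
  rcases dich hF h1 h2 h with ⟨w, hw⟩ | ⟨Q, hQ⟩
  · exact fix_cases hw
  rcases invQ_cases h hQ with ⟨a1, a2⟩ | hd
  · right
    intro a s C e k has hp
    obtain ⟨l, hl⟩ := hQ.2 _ hp
    obtain ⟨p0, hp0⟩ := hQ.1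
    have hβ : Q.2.1 ≠ 0 := by
      intro h; apply hp0; simp [qf, a1, a2, h]
    have := hl (1, 0)
    simp only [qf, lapp, rot, a1, a2] at this
    have h3 : Q.2.1 * (a * s) = 0 := by linear_combination this
    exact (mul_eq_zero.1 h3).resolve_left hβ
  · obtain ⟨w, hw⟩ := invQ_fix hQ hd
    exact fix_cases hw

/-- A set of reals invariant under the maps coming from a fixed oblique direction. -/
lemma periods {S : Set ℝ} {m : ℝ} (hm : m ≠ 0)
    (h : ∀ c > 0, ∃ C : ℝ, C ^ 2 = c ^ 2 ∧ ∀ σ, σ ∈ S ↔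
      (1 + C ^ 2 * m ^ 2) / (C * (1 + m ^ 2)) * σ + m * (C ^ 2 - 1) / (C * (1 + m ^ 2)) ∈ S)
    (t σ : ℝ) : σ ∈ S ↔ σ + t ∈ S := by
  have hneg : ∀ t, (∀ σ, σ ∈ S ↔ σ + t ∈ S) → ∀ σ, σ ∈ S ↔ σ + -t ∈ S := by
    intro t ht σ
    rw [ht (σ + -t)]; simp
  have hadd : ∀ t t', (∀ σ, σ ∈ S ↔ σ + t ∈ S) → (∀ σ, σ ∈ S ↔ σ + t' ∈ S) →
      ∀ σ, σ ∈ S ↔ σ + (t + t') ∈ S := by
    intro t t' ht ht' σ
    rw [ht, ht', add_assoc]
  have hmul : ∀ α β t : ℝ, α ≠ 0 → (∀ σ, σ ∈ S ↔ α * σ + β ∈ S) → (∀ σ, σ ∈ S ↔ σ + t ∈ S) →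
      ∀ σ, σ ∈ S ↔ σ + α * t ∈ S := by
    intro α β t hα h1 h2 σ
    have e1 : σ = α * ((σ - β) / α) + β := by field_simp; ring
    have e2 : σ + α * t = α * ((σ - β) / α + t) + β := by field_simp; ring
    rw [e2, ← h1, ← h2, h1 ((σ - β) / α), ← e1]
  have hcomm : ∀ α β α' β' : ℝ, α ≠ 0 → α' ≠ 0 → (∀ σ, σ ∈ S ↔ α * σ + β ∈ S) →
      (∀ σ, σ ∈ S ↔ α' * σ + β' ∈ S) →
      ∀ σ, σ ∈ S ↔ σ + (α * β' + β - α' * β - β') ∈ S := by
    intro α β α' β' hα hα' h1 h2 σ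
    have e1 : σ = α' * (α * (((σ - β') / α' - β) / α) + β) + β' := by field_simp; ring
    have e2 : σ + (α * β' + β - α' * β - β') =
        α * (α' * (((σ - β') / α' - β) / α) + β') + β := by field_simp; ring
    rw [e2, ← h1, ← h2, h1 (((σ - β') / α' - β) / α),
      h2 (α * (((σ - β') / α' - β) / α) + β), ← e1]
  have hm2 : 0 < 1 + m ^ 2 := by positivity
  have hCne : ∀ c C : ℝ, 0 < c → C ^ 2 = c ^ 2 → C ≠ 0 := by
    intro c C hc hC h0
    rw [h0] at hC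
    nlinarith
  obtain ⟨C2, hC2, h2⟩ := h 2 (by norm_num)
  obtain ⟨C3, hC3, h3⟩ := h 3 (by norm_num)
  have n2 := hCne 2 C2 (by norm_num) hC2
  have n3 := hCne 3 C3 (by norm_num) hC3
  have h0 := hcomm _ _ _ _ (by positivity) (by positivity) h2 h3
  set t0 := (1 + C2 ^ 2 * m ^ 2) / (C2 * (1 + m ^ 2)) * (m * (C3 ^ 2 - 1) / (C3 * (1 + m ^ 2))) +
      m * (C2 ^ 2 - 1) / (C2 * (1 + m ^ 2)) -
      (1 + C3 ^ 2 * m ^ 2) / (C3 * (1 + m ^ 2)) * (m * (C2 ^ 2 - 1) / (C2 * (1 + m ^ 2))) -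
      m * (C3 ^ 2 - 1) / (C3 * (1 + m ^ 2)) with ht0
  have e0 : t0 = m * ((C3 - C2) * (C2 - 1) * (1 - C3)) / (C2 * C3 * (1 + m ^ 2)) := by
    rw [ht0]; field_simp; ring
  have t0ne : t0 ≠ 0 := by
    rw [e0]
    have a1 : C3 - C2 ≠ 0 := by
      intro h; have : C3 = C2 := by linarith
      rw [this] at hC3; nlinarith
    have a2 : C2 - 1 ≠ 0 := by
      intro h; have : C2 = 1 := by linarith
      rw [this] at hC2; nlinarith
    have a3 : 1 - C3 ≠ 0 := by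
      intro h; have : C3 = 1 := by linarith
      rw [this] at hC3; nlinarith
    positivity
  clear_value t0
  have hbig : ∀ l : ℝ, 1 ≤ l → ∀ σ, σ ∈ S ↔ σ + l * t0 ∈ S := by
    intro l hl
    have hD : 0 ≤ (l * (1 + m ^ 2)) ^ 2 - 4 * m ^ 2 := by
      have : (1 + m ^ 2) ≤ l * (1 + m ^ 2) := by nlinarith
      nlinarith [sq_nonneg (1 - m ^ 2)]
    set r := Real.sqrt ((l * (1 + m ^ 2)) ^ 2 - 4 * m ^ 2) with hr
    have hr2 : r ^ 2 = (l * (1 + m ^ 2)) ^ 2 - 4 * m ^ 2 := Real.sq_sqrt hD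
    have hr0 : 0 ≤ r := Real.sqrt_nonneg _
    have hcpos : 0 < (l * (1 + m ^ 2) + r) / (2 * m ^ 2) := by positivity
    have hc : 1 + ((l * (1 + m ^ 2) + r) / (2 * m ^ 2)) ^ 2 * m ^ 2 =
        l * (((l * (1 + m ^ 2) + r) / (2 * m ^ 2)) * (1 + m ^ 2)) := by
      field_simp
      linear_combination hr2
    generalize (l * (1 + m ^ 2) + r) / (2 * m ^ 2) = c at hcpos hc
    obtain ⟨C, hC, hh⟩ := h c hcpos
    have nC := hCne c C hcpos hC
    have h5 := hmul _ _ t0 (by positivity) hh h0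
    rcases sq_eq_sq_iff_eq_or_eq_neg.1 hC with e | e
    · have : (1 + C ^ 2 * m ^ 2) / (C * (1 + m ^ 2)) = l := by
        rw [e, hc]; field_simp
      rwa [this] at h5
    · have : (1 + C ^ 2 * m ^ 2) / (C * (1 + m ^ 2)) = -l := by
        rw [hC, hc, e]; field_simp
      rw [this] at h5
      have h6 := hneg _ h5
      simpa using h6
  have a1 := hbig (1 + |t / t0| + t / t0) (by linarith [neg_abs_le (t / t0)])
  have a2 := hneg _ (hbig (1 + |t / t0|) (by linarith [abs_nonneg (t / t0)]))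
  have a3 := hadd _ _ a1 a2 σ
  have e : (1 + |t / t0| + t / t0) * t0 + -((1 + |t / t0|) * t0) = t := by
    field_simp; ring
  rwa [e] at a3

end Pool.Agent.H545Z.Rigid
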