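import Pool.Agent.H545Z.Rigid4

set_option autoImplicit false
open Filter Topology

namespace Pool.Agent.H545Z.Rigid

def Gr (f : ℝ → ℝ) : Set (ℝ × ℝ) := {p | p.2 = f p.1}

lemma slope_case {f : ℝ → ℝ} (h : Rig (Gr f)) {m : ℝ} (hm : m ≠ 0)
    (hfix : ∀ g, Pres (Gr f) g → cr (1, m) (lapp g (1, m)) = 0) :
    ∃ a, ∀ x, f x = a + m * x := by
  set S : Set ℝ := {σ | ∃ p ∈ Gr f, ∃ p' ∈ Gr f, ∃ δ : ℝ, δ ≠ 0 ∧
    p - p' = δ • ((σ - m, 1 + m * σ) : ℝ × ℝ)} with hS
  have hm2 : 0 < 1 + m ^ 2 := by positivity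
  have hper : ∀ t σ, σ ∈ S ↔ σ + t ∈ S := by
    apply periods hm
    intro c hc
    obtain ⟨a, s, C, e, k, h1, h2, h3⟩ := h c hc
    refine ⟨C, h2, fun σ => ?_⟩
    have hC : C ≠ 0 := by have := h3.1; rwa [adet_rot h1] at this
    have hf := hfix _ h3
    simp only [cr, lapp, rot] at hf
    have hμ : a - C * s * m ≠ 0 := by
      intro h0
      have e1 : s + C * a * m = 0 := by linear_combination hf + m * h0
      have e2 : 1 + C ^ 2 * m ^ 2 = 0 := by
        linear_combination (a - C * s * m) * h0 + (s + C * a * m) * e1 - (1 + C ^ 2 * m ^ 2) * h1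
      have : 0 < 1 + C ^ 2 * m ^ 2 := by positivity
      linarith
    set τ := (1 + C ^ 2 * m ^ 2) / (C * (1 + m ^ 2)) * σ + m * (C ^ 2 - 1) / (C * (1 + m ^ 2))
      with hτ
    have hτ2 : C * (1 + m ^ 2) * τ = (1 + C ^ 2 * m ^ 2) * σ + m * (C ^ 2 - 1) := by
      rw [hτ]; field_simp
    clear_value τ
    have key : lapp (rot a s C e k) (σ - m, 1 + m * σ) =
        (C / (a - C * s * m)) • ((τ - m, 1 + m * τ) : ℝ × ℝ) := by
      have E1 : (a - C * s * m) * ((a * (σ - m) + -C * s * (1 + m * σ)) +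
          m * (s * (σ - m) + C * a * (1 + m * σ))) = (1 + C ^ 2 * m ^ 2) * σ + m * (C ^ 2 - 1) := by
        linear_combination ((σ - m) + C ^ 2 * m * (1 + m * σ)) * h1 -
          (s * (σ - m) + C * a * (1 + m * σ)) * hf
      have E2 : (a - C * s * m) * ((s * (σ - m) + C * a * (1 + m * σ)) -
          m * (a * (σ - m) + -C * s * (1 + m * σ))) = C * (1 + m ^ 2) := by
        linear_combination (C * (1 + m ^ 2)) * h1 + (a * (σ - m) + -C * s * (1 + m * σ)) * hf
      simp only [lapp, rot]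
      ext
      · simp only [Prod.smul_fst, smul_eq_mul]
        rw [div_mul_eq_mul_div, eq_div_iff hμ]
        apply mul_left_cancel₀ hm2.ne'
        linear_combination E1 - m * E2 - hτ2
      · simp only [Prod.smul_snd, smul_eq_mul]
        rw [div_mul_eq_mul_div, eq_div_iff hμ]
        apply mul_left_cancel₀ hm2.ne'
        linear_combination m * E1 + E2 - m * hτ2
    have hκ : C / (a - C * s * m) ≠ 0 := div_ne_zero hC hμ
    generalize C / (a - C * s * m) = κ at key hκ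
    generalize rot a s C e k = g at key h3
    have lsm : ∀ (g : Aff) (t : ℝ) (z : ℝ × ℝ), lapp g (t • z) = t • lapp g z := by
      intro g t z
      simp only [lapp]; ext <;> simp <;> ring
    constructor
    · rintro ⟨p, hp, p', hp', δ, hδ, hpp⟩
      refine ⟨app g p, (h3.2 _).1 hp, app g p', (h3.2 _).1 hp', δ * κ, mul_ne_zero hδ hκ, ?_⟩
      rw [app_sub, hpp, lsm, key, smul_smul]
    · rintro ⟨p, hp, p', hp', δ, hδ, hpp⟩
      refine ⟨app (ainv g) p, (h3.inv.2 _).1 hp, app (ainv g) p', (h3.inv.2 _).1 hp', δ / κ,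
        div_ne_zero hδ hκ, ?_⟩
      have e : (δ • ((τ - m, 1 + m * τ) : ℝ × ℝ)) = (δ / κ) • lapp g (σ - m, 1 + m * σ) := by
        rw [key, smul_smul, div_mul_cancel₀ _ hκ]
      rw [app_sub, hpp, e, lsm, lapp_ainv_lapp h3.1]
  have hmS : m ∉ S := by
    rintro ⟨p, hp, p', hp', δ, hδ, hpp⟩
    have e1 := congrArg Prod.fst hpp
    have e2 := congrArg Prod.snd hpp
    simp only [Prod.fst_sub, Prod.snd_sub, Prod.smul_fst, Prod.smul_snd, smul_eq_mul, sub_self,
      mul_zero] at e1 e2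
    have e3 : p.1 = p'.1 := by linarith
    have hp1 : p.2 = f p.1 := hp
    have hp2 : p'.2 = f p'.1 := hp'
    rw [hp1, hp2, e3, sub_self] at e2
    have : 0 < 1 + m * m := by nlinarith
    exact mul_ne_zero hδ this.ne' e2.symm
  refine ⟨f 0, fun x => ?_⟩
  by_contra hne
  have hD : f x - f 0 - m * x ≠ 0 := fun h0 => hne (by linarith)
  apply hmS
  have : (x + m * (f x - f 0)) / (f x - f 0 - m * x) ∈ S := by
    refine ⟨(x, f x), rfl, (0, f 0), rfl, (f x - f 0 - m * x) / (1 + m ^ 2),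
      div_ne_zero hD hm2.ne', ?_⟩
    have hy : f x - f 0 = (f x - f 0 - m * x) + m * x := by ring
    generalize f x - f 0 - m * x = D at hD hy
    ext
    · simp only [Prod.fst_sub, Prod.smul_fst, smul_eq_mul]
      rw [hy]
      field_simp; ring
    · simp only [Prod.snd_sub, Prod.smul_snd, smul_eq_mul]
      rw [hy]
      field_simp; ring
  have h2 := (hper (m - (x + m * (f x - f 0)) / (f x - f 0 - m * x)) _).1 this
  simpa using h2

def Tr (f : ℝ → ℝ) (l : ℝ) : Prop := ∃ u v, ∀ x, f (x + u) = l * f x + v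

lemma Tr.mul {f : ℝ → ℝ} {l l' : ℝ} (h : Tr f l) (h' : Tr f l') : Tr f (l * l') := by
  obtain ⟨u, v, h⟩ := h
  obtain ⟨u', v', h'⟩ := h'
  refine ⟨u' + u, l * v' + v, fun x => ?_⟩
  rw [← add_assoc, h, h']; ring

lemma diag_tr {f : ℝ → ℝ} {g : Aff} (hg : Pres (Gr f) g) (h1 : g.1.2 = 0) (h2 : g.2.1.1 = 0)
    (h3 : g.1.1 ^ 2 = 1) : Tr f (g.2.1.2 ^ 2) := by
  refine ⟨g.1.1 * g.2.2.1 + g.2.2.1, g.2.1.2 * g.2.2.2 + g.2.2.2, fun x => ?_⟩
  have a1 : app g (app g (x, f x)) ∈ Gr f := (hg.2 _).1 ((hg.2 _).1 (rfl : ((x, f x) : ℝ × ℝ) ∈ Gr f))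
  have a2 : (app g (app g (x, f x))).2 = f (app g (app g (x, f x))).1 := a1
  have a3 : (app g (app g (x, f x))).1 = x + (g.1.1 * g.2.2.1 + g.2.2.1) := by
    simp only [app, h1]; linear_combination x * h3
  rw [a3] at a2
  rw [← a2]
  simp only [app, h2]; ring

lemma axis_case {f : ℝ → ℝ} (h : Rig (Gr f)) (hax : Axis (Gr f)) {l : ℝ} (hl : 0 < l) :
    Tr f l := by
  have dg : ∀ a s C e k : ℝ, a ^ 2 + s ^ 2 = 1 → Pres (Gr f) (rot a s C e k) → s = 0 →
      Tr f (C ^ 2) := by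
    intro a s C e k h1 h3 hs
    have ha : a ^ 2 = 1 := by rw [hs] at h1; linarith
    have := diag_tr h3 (by simp [rot, hs]) (by simp [rot, hs]) (by simp [rot, ha])
    simp only [rot, mul_pow, ha, mul_one] at this
    exact this
  have four : ∀ t > 0, Tr f (t ^ 4) := by
    intro t ht
    obtain ⟨a, s, C, e, k, h1, h2, h3⟩ := h t ht
    rcases mul_eq_zero.1 (hax _ _ _ _ _ h1 h3) with ha | hs
    swap
    · have := dg _ _ _ _ _ h1 h3 hs
      rw [h2] at this
      have h5 := this.mul this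
      rwa [show t ^ 2 * t ^ 2 = t ^ 4 by ring] at h5
    obtain ⟨a', s', C', e', k', h1', h2', h3'⟩ := h (t ^ 2) (by positivity)
    rcases mul_eq_zero.1 (hax _ _ _ _ _ h1' h3') with ha' | hs'
    swap
    · have := dg _ _ _ _ _ h1' h3' hs'
      rwa [h2', show (t ^ 2) ^ 2 = t ^ 4 by ring] at this
    have hC : C ≠ 0 := by have := h3.1; rwa [adet_rot h1] at this
    have hs2 : s ^ 2 = 1 := by rw [ha] at h1; linarith
    have hs2' : s' ^ 2 = 1 := by rw [ha'] at h1'; linarith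
    have hd := adet_rot (C := C) (e := e) (k := k) h1
    have h5 := diag_tr (h3.inv.comp h3')
      (by simp only [acomp, ainv, hd]; simp [rot, ha, ha'])
      (by simp only [acomp, ainv, hd]; simp [rot, ha, ha'])
      (by
        simp only [acomp, ainv, hd]
        simp only [rot, ha, ha']
        field_simp
        linear_combination s' ^ 2 * hs2 + hs2')
    have e5 : (acomp (ainv (rot a s C e k)) (rot a' s' C' e' k')).2.1.2 ^ 2 = t ^ 2 := by
      simp only [acomp, ainv, hd]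
      simp only [rot, ha, ha']
      field_simp
      linear_combination s' ^ 2 * C' ^ 2 * hs2 + C' ^ 2 * hs2' + h2' - t ^ 2 * h2
    rw [e5] at h5
    have h6 := h5.mul h5
    rwa [show t ^ 2 * t ^ 2 = t ^ 4 by ring] at h6
  have := four (Real.sqrt (Real.sqrt l)) (Real.sqrt_pos.2 (Real.sqrt_pos.2 hl))
  rwa [show Real.sqrt (Real.sqrt l) ^ 4 = (Real.sqrt (Real.sqrt l) ^ 2) ^ 2 by ring,
    Real.sq_sqrt (Real.sqrt_nonneg l), Real.sq_sqrt hl.le] at this

theorem structure_thm {f : ℝ → ℝ} (h : Rig (Gr f)) (hd : ¬ Dense (Gr f)) :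
    (∃ a b, ∀ x, f x = a + b * x) ∨
      ∃ a, ∀ l > 0, ∃ u, ∀ x, f (x + u) - a = l * (f x - a) := by
  have h2 : ∃ q, q ∉ closure (Gr f) := by
    by_contra hcon
    push Not at hcon
    exact hd hcon
  rcases trich isClosed_closure (fun x => ⟨f x, subset_closure rfl⟩) h2 h.closure with
    ⟨m, hm, hfix⟩ | hax
  · left
    obtain ⟨a, ha⟩ := slope_case h hm (fun g hg => hfix g hg.closure)
    exact ⟨a, m, ha⟩
  · right
    have hax' : Axis (Gr f) := fun a s C e k h1 h3 => hax a s C e k h1 h3.closure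
    obtain ⟨u0, v0, h0⟩ := axis_case h hax' (l := 2) (by norm_num)
    refine ⟨-v0, fun l hl => ?_⟩
    obtain ⟨u, v, hu⟩ := axis_case h hax' hl
    refine ⟨u, fun x => ?_⟩
    have e1 := h0 (0 + u)
    have e2 := hu (0 + u0)
    rw [hu] at e1
    rw [h0] at e2
    have e3 : (0 : ℝ) + u + u0 = 0 + u0 + u := by ring
    rw [e3, e2] at e1
    rw [hu]
    linear_combination -e1

end Pool.Agent.H545Z.Rigid
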