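import Pool.Agent.H545Z.Rigid5

set_option autoImplicit false
open Filter Topology MeasureTheory

namespace Pool.Agent.H545Z.Rigid

def Sh (F : ℝ → ℝ) (u l : ℝ) : Prop := 0 < l ∧ ∀ x, F (x + u) = l * F x

lemma Sh.add {F : ℝ → ℝ} {u l u' l' : ℝ} (h : Sh F u l) (h' : Sh F u' l') :
    Sh F (u + u') (l * l') := by
  refine ⟨mul_pos h.1 h'.1, fun x => ?_⟩
  rw [add_comm u u', ← add_assoc, h.2, h'.2]; ring

lemma Sh.neg {F : ℝ → ℝ} {u l : ℝ} (h : Sh F u l) : Sh F (-u) l⁻¹ := by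
  refine ⟨inv_pos.2 h.1, fun x => ?_⟩
  have := h.2 (x + -u)
  rw [show x + -u + u = x by ring] at this
  rw [this, ← mul_assoc, inv_mul_cancel₀ h.1.ne', one_mul]

lemma Sh.nsmul {F : ℝ → ℝ} {u l : ℝ} (h : Sh F u l) (n : ℕ) : Sh F (n * u) (l ^ n) := by
  induction n with
  | zero => exact ⟨by simp, by simp⟩
  | succ n ih =>
    have := ih.add h
    rw [pow_succ]
    push_cast
    rwa [add_mul, one_mul]

lemma Sh.zsmul {F : ℝ → ℝ} {u l : ℝ} (h : Sh F u l) (n : ℤ) : Sh F (n * u) (l ^ n) := by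
  obtain ⟨m, rfl | rfl⟩ := n.eq_nat_or_neg
  · simpa using h.nsmul m
  · have := (h.nsmul m).neg
    simpa using this

lemma small_shift {F : ℝ → ℝ} (hT : ∀ l > 0, ∃ u, ∀ x, F (x + u) = l * F x) {x1 : ℝ}
    (hx : F x1 ≠ 0) {δ : ℝ} (hδ : 0 < δ) : ∃ w l, w ≠ 0 ∧ |w| < δ ∧ Sh F w l := by
  choose u hu using fun t : ℝ => hT (Real.exp t) (Real.exp_pos t)
  have hni : ¬ Function.Injective (fun t : ℝ => ⌊u t / δ⌋) := fun h =>
    not_countable (h.countable)
  unfold Function.Injective at hni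
  push Not at hni
  obtain ⟨t, t', h1, h2⟩ := hni
  have s1 : Sh F (u t) (Real.exp t) := ⟨Real.exp_pos _, hu t⟩
  have s2 : Sh F (u t') (Real.exp t') := ⟨Real.exp_pos _, hu t'⟩
  refine ⟨u t + -u t', _, fun h0 => h2 ?_, ?_, s1.add s2.neg⟩
  · have e : u t = u t' := by linarith
    have a1 := hu t x1
    have a2 := hu t' x1
    rw [e, a2] at a1
    exact (Real.exp_injective (mul_right_cancel₀ hx a1)).symm
  · have := Int.abs_sub_lt_one_of_floor_eq_floor h1
    rw [← sub_div, abs_div, abs_of_pos hδ, div_lt_one hδ] at this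
    rwa [← sub_eq_add_neg]

lemma expo {F : ℝ → ℝ} (hT : ∀ l > 0, ∃ u, ∀ x, F (x + u) = l * F x) {δ M η : ℝ} (hδ : 0 < δ)
    (hη : 0 < η) (hb : ∀ u, |u| < δ → ∃ x, |F (x + u)| ≤ M ∧ η ≤ |F x|) :
    ∃ b k : ℝ, ∀ x, F x = b * Real.exp (k * x) := by
  obtain ⟨x1, -, hx1⟩ := hb 0 (by simpa using hδ)
  have hx : F x1 ≠ 0 := abs_pos.1 (lt_of_lt_of_le hη hx1)
  have up : ∀ u l, Sh F u l → |u| < δ → Real.log l ≤ Real.log (M / η) := by
    intro u l h hu
    obtain ⟨x, h1, h2⟩ := hb u hu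
    rw [h.2, abs_mul, abs_of_pos h.1] at h1
    apply Real.log_le_log h.1
    rw [le_div_iff₀ hη]
    exact le_trans (mul_le_mul_of_nonneg_left h2 h.1.le) h1
  have bd : ∀ u l, Sh F u l → |u| < δ → |Real.log l| ≤ Real.log (M / η) := by
    intro u l h hu
    have a1 := up u l h hu
    have a2 := up _ _ h.neg (by rwa [abs_neg])
    rw [Real.log_inv] at a2
    exact abs_le.2 ⟨by linarith, a1⟩
  obtain ⟨w, lam, hw0, hwδ, hw⟩ := small_shift hT hx hδ
  have lin : ∀ u l, Sh F u l → Real.log l = Real.log lam / w * u := by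
    intro u l h
    have key : ∀ n : ℕ, (n : ℝ) * |Real.log l - Real.log lam / w * u| ≤
        Real.log (M / η) + |Real.log lam| := by
      intro n
      have s1 := (h.nsmul n).add (hw.zsmul (-⌊n * u / w⌋))
      have f1 := Int.floor_le (n * u / w)
      have f2 := Int.lt_floor_add_one (n * u / w)
      set θ := n * u / w - ⌊n * u / w⌋ with hθ
      have hθ1 : |θ| ≤ 1 := abs_le.2 ⟨by rw [hθ]; linarith, by rw [hθ]; linarith⟩
      have e1 : n * u + ((-⌊n * u / w⌋ : ℤ) : ℝ) * w = θ * w := by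
        rw [hθ]; push_cast; field_simp; ring
      have b1 := bd _ _ s1 (by
        rw [e1, abs_mul]
        exact lt_of_le_of_lt (mul_le_of_le_one_left (abs_nonneg _) hθ1) hwδ)
      rw [Real.log_mul (pow_pos h.1 n).ne' (zpow_pos hw.1 _).ne', Real.log_pow,
        Real.log_zpow] at b1
      have e2 : (n : ℝ) * (Real.log l - Real.log lam / w * u) =
          (n * Real.log l + ((-⌊n * u / w⌋ : ℤ) : ℝ) * Real.log lam) - θ * Real.log lam := by
        rw [hθ]; push_cast; field_simp; ring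
      have e3 : (n : ℝ) * |Real.log l - Real.log lam / w * u| =
          |(n : ℝ) * (Real.log l - Real.log lam / w * u)| := by
        rw [abs_mul, Nat.abs_cast]
      rw [e3, e2]
      refine le_trans (abs_sub _ _) (add_le_add b1 ?_)
      rw [abs_mul]
      exact mul_le_of_le_one_left (abs_nonneg _) hθ1
    by_contra hne
    have hpos : 0 < |Real.log l - Real.log lam / w * u| := abs_pos.2 (sub_ne_zero.2 hne)
    obtain ⟨n, hn⟩ := exists_nat_gt ((Real.log (M / η) + |Real.log lam|) /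
      |Real.log l - Real.log lam / w * u|)
    rw [div_lt_iff₀ hpos] at hn
    linarith [key n]
  have hk : Real.log lam / w ≠ 0 := by
    intro h0
    obtain ⟨u, hu⟩ := hT 2 (by norm_num)
    have := lin u 2 ⟨by norm_num, hu⟩
    rw [h0, zero_mul] at this
    exact (Real.log_pos (by norm_num : (1 : ℝ) < 2)).ne' this
  refine ⟨F 0, Real.log lam / w, fun x => ?_⟩
  obtain ⟨u, hu⟩ := hT _ (Real.exp_pos (Real.log lam / w * x))
  have := lin u _ ⟨Real.exp_pos _, hu⟩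
  rw [Real.log_exp] at this
  have e : x = u := mul_left_cancel₀ hk this
  have h2 := hu 0
  rw [zero_add, ← e] at h2
  rw [h2, mul_comm]

lemma expo_of_bounded {F : ℝ → ℝ} (hT : ∀ l > 0, ∃ u, ∀ x, F (x + u) = l * F x) {α β M : ℝ}
    (hαβ : α < β) (hb : ∀ x ∈ Set.Ioo α β, |F x| ≤ M) :
    ∃ b k : ℝ, ∀ x, F x = b * Real.exp (k * x) := by
  by_cases h0 : ∀ x, F x = 0
  · exact ⟨0, 0, by simpa using h0⟩
  push Not at h0
  obtain ⟨x1, hx1⟩ := h0
  have hδ : 0 < (β - α) / 4 := by linarith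
  obtain ⟨w, lam, hw0, hwδ, hw⟩ := small_shift hT hx1 hδ
  set m := ⌊((α + β) / 2 - x1) / w⌋ with hm
  have s1 := hw.zsmul m
  have f1 := Int.floor_le (((α + β) / 2 - x1) / w)
  have f2 := Int.lt_floor_add_one (((α + β) / 2 - x1) / w)
  rw [← hm] at f1 f2
  have hθ1 : |((α + β) / 2 - x1) / w - m| ≤ 1 := abs_le.2 ⟨by linarith, by linarith⟩
  have e1 : (α + β) / 2 - (x1 + m * w) = (((α + β) / 2 - x1) / w - m) * w := by
    field_simp; ring
  have b1 : |(α + β) / 2 - (x1 + m * w)| < (β - α) / 4 := by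
    rw [e1, abs_mul]
    exact lt_of_le_of_lt (mul_le_of_le_one_left (abs_nonneg _) hθ1) hwδ
  have hx2 : F (x1 + m * w) ≠ 0 := by
    rw [s1.2]; exact mul_ne_zero s1.1.ne' hx1
  refine expo hT (M := M) hδ (abs_pos.2 hx2) (fun u hu => ⟨x1 + m * w, hb _ ?_, le_rfl⟩)
  rw [abs_lt] at b1 hu
  constructor <;> linarith [b1.1, b1.2, hu.1, hu.2]

lemma expo_of_meas {F : ℝ → ℝ} (hT : ∀ l > 0, ∃ u, ∀ x, F (x + u) = l * F x)
    (hF : AEMeasurable F volume) :
    ∃ b k : ℝ, ∀ᵐ x ∂volume, F x = b * Real.exp (k * x) := by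
  by_cases h0 : ∀ n : ℕ, volume (F ⁻¹' {y | 1 / ((n : ℝ) + 1) ≤ |y| ∧ |y| ≤ n + 1}) = 0
  · refine ⟨0, 0, ?_⟩
    have h1 : ∀ᵐ x ∂volume, ∀ n : ℕ, x ∉ F ⁻¹' {y | 1 / ((n : ℝ) + 1) ≤ |y| ∧ |y| ≤ n + 1} :=
      ae_all_iff.2 fun n => measure_eq_zero_iff_ae_notMem.1 (h0 n)
    filter_upwards [h1] with x hx
    rw [zero_mul]
    by_contra hne
    have hpos : 0 < |F x| := abs_pos.2 hne
    obtain ⟨n, hn⟩ := exists_nat_gt (|F x| + 1 / |F x|)
    apply hx n
    have : 0 < 1 / |F x| := by positivity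
    refine ⟨?_, by linarith⟩
    rw [div_le_iff₀ (by positivity), mul_comm, ← div_le_iff₀ hpos]
    linarith
  push Not at h0
  obtain ⟨n, hn⟩ := h0
  have hm : MeasurableSet {y : ℝ | 1 / ((n : ℝ) + 1) ≤ |y| ∧ |y| ≤ n + 1} :=
    (measurableSet_le measurable_const continuous_abs.measurable).inter
      (measurableSet_le continuous_abs.measurable measurable_const)
  obtain ⟨E, hE1, hE2, hE3⟩ := (hF.nullMeasurableSet_preimage hm).exists_measurable_subset_ae_eq
  have hpos : 0 < volume E := by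
    rw [measure_congr hE3]; exact pos_iff_ne_zero.2 hn
  have hS := Measure.sub_mem_nhds_zero_of_addHaar_pos volume E hE2 hpos
  obtain ⟨δ, hδ, hb⟩ := Metric.mem_nhds_iff.1 hS
  obtain ⟨b, k, hbk⟩ := expo hT (M := (n : ℝ) + 1) (η := 1 / ((n : ℝ) + 1)) hδ (by positivity)
    (fun u hu => by
      obtain ⟨y, hy, x, hx, e⟩ := hb (show u ∈ Metric.ball 0 δ by simpa using hu)
      refine ⟨x, ?_, (hE1 hx).1⟩
      have : x + u = y := by simp only at e; linarith
      rw [this]; exact (hE1 hy).2)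
  exact ⟨b, k, Eventually.of_forall hbk⟩

lemma expo_of_baire {F : ℝ → ℝ} (hT : ∀ l > 0, ∃ u, ∀ x, F (x + u) = l * F x)
    (hF : ∀ U : Set ℝ, IsOpen U → BaireMeasurableSet (F ⁻¹' U)) :
    ∃ b k : ℝ, ∀ᶠ x in residual ℝ, F x = b * Real.exp (k * x) := by
  by_cases h0 : ∀ n : ℕ, ∀ᶠ x in residual ℝ,
      x ∉ F ⁻¹' {y | 1 / ((n : ℝ) + 1) < |y| ∧ |y| < n + 1}
  · refine ⟨0, 0, ?_⟩
    filter_upwards [eventually_countable_forall.2 h0] with x hx
    rw [zero_mul]
    by_contra hne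
    have hpos : 0 < |F x| := abs_pos.2 hne
    obtain ⟨n, hn⟩ := exists_nat_gt (|F x| + 1 / |F x|)
    apply hx n
    have : 0 < 1 / |F x| := by positivity
    refine ⟨?_, by linarith⟩
    rw [div_lt_iff₀ (by positivity), mul_comm, ← div_lt_iff₀ hpos]
    linarith
  push Not at h0
  obtain ⟨n, hn⟩ := h0
  have ho : IsOpen {y : ℝ | 1 / ((n : ℝ) + 1) < |y| ∧ |y| < n + 1} :=
    (isOpen_lt continuous_const continuous_abs).inter (isOpen_lt continuous_abs continuous_const)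
  obtain ⟨V, hV, hEV⟩ := (hF _ ho).residualEq_isOpen
  set E := F ⁻¹' {y : ℝ | 1 / ((n : ℝ) + 1) < |y| ∧ |y| < n + 1} with hE
  have hEV' : ∀ᶠ x in residual ℝ, x ∈ E ↔ x ∈ V := hEV.mem_iff
  have hVne : V.Nonempty := by
    by_contra hemp
    rw [Set.not_nonempty_iff_eq_empty] at hemp
    apply hn
    filter_upwards [hEV'] with x hx
    rw [hx, hemp]
    simp
  obtain ⟨x0, hx0⟩ := hVne
  obtain ⟨r, hr, hball⟩ := Metric.isOpen_iff.1 hV x0 hx0
  obtain ⟨b, k, hbk⟩ := expo hT (M := (n : ℝ) + 1) (η := 1 / ((n : ℝ) + 1)) (δ := r / 2)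
    (by positivity) (by positivity)
    (fun u hu => by
      have t1 : Tendsto (fun x : ℝ => x + u) (residual ℝ) (residual ℝ) :=
        tendsto_residual_of_isOpenMap (by fun_prop) (isOpenMap_add_right u)
      have h2 := hEV'.and (t1.eventually hEV')
      obtain ⟨x, hx1, hx2⟩ := (dense_of_mem_residual h2).exists_mem_open Metric.isOpen_ball
        ⟨x0, Metric.mem_ball_self (show 0 < r / 2 by positivity)⟩
      rw [Metric.mem_ball, Real.dist_eq] at hx2
      have m1 : x ∈ V := hball (by rw [Metric.mem_ball, Real.dist_eq]; linarith)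
      have m2 : x + u ∈ V := hball (by
        rw [Metric.mem_ball, Real.dist_eq, show x + u - x0 = (x - x0) + u by ring]
        linarith [abs_add_le (x - x0) u])
      exact ⟨x, (hx1.2.2 m2).2.le, (hx1.1.2 m1).1.le⟩)
  exact ⟨b, k, Eventually.of_forall hbk⟩

end Pool.Agent.H545Z.Rigid
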