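import Pool.Agent.H545Z.Rigid6

set_option autoImplicit false
open Filter Topology MeasureTheory

namespace Pool.Agent.H545Z.Rigid

lemma dist_sq_E (p q : EuclideanSpace ℝ (Fin 2)) :
    dist p q ^ 2 = (p 0 - q 0) ^ 2 + (p 1 - q 1) ^ 2 := by
  rw [EuclideanSpace.dist_eq, Real.sq_sqrt (by positivity), Fin.sum_univ_two, Real.dist_eq,
    Real.dist_eq, sq_abs, sq_abs]

lemma isom_form (φ : EuclideanSpace ℝ (Fin 2) ≃ᵢ EuclideanSpace ℝ (Fin 2)) :
    ∃ a s σ e k : ℝ, a ^ 2 + s ^ 2 = 1 ∧ σ ^ 2 = 1 ∧ ∀ x y : ℝ,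
      φ (WithLp.toLp 2 ![x, y]) 0 = a * x - σ * s * y + e ∧
      φ (WithLp.toLp 2 ![x, y]) 1 = s * x + σ * a * y + k := by
  have key : ∀ x y x' y' : ℝ,
      (φ (WithLp.toLp 2 ![x, y]) 0 - φ (WithLp.toLp 2 ![x', y']) 0) ^ 2 +
      (φ (WithLp.toLp 2 ![x, y]) 1 - φ (WithLp.toLp 2 ![x', y']) 1) ^ 2 =
        (x - x') ^ 2 + (y - y') ^ 2 := by
    intro x y x' y'
    rw [← dist_sq_E, φ.dist_eq, dist_sq_E]
    simp
  have k1 := key 1 0 0 0
  have k2 := key 0 1 0 0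
  have k3 := key 1 0 0 1
  have k4 := fun x y => key x y 0 0
  have k5 := fun x y => key x y 1 0
  have k6 := fun x y => key x y 0 1
  generalize φ (WithLp.toLp 2 ![0, 0]) 0 = e at *
  generalize φ (WithLp.toLp 2 ![0, 0]) 1 = k at *
  generalize φ (WithLp.toLp 2 ![1, 0]) 0 = a0 at *
  generalize φ (WithLp.toLp 2 ![1, 0]) 1 = s0 at *
  generalize φ (WithLp.toLp 2 ![0, 1]) 0 = b0 at *
  generalize φ (WithLp.toLp 2 ![0, 1]) 1 = d0 at *
  obtain ⟨a, rfl⟩ : ∃ a, a0 = a + e := ⟨a0 - e, by ring⟩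
  obtain ⟨s, rfl⟩ : ∃ s, s0 = s + k := ⟨s0 - k, by ring⟩
  obtain ⟨b, rfl⟩ : ∃ b, b0 = b + e := ⟨b0 - e, by ring⟩
  obtain ⟨d, rfl⟩ : ∃ d, d0 = d + k := ⟨d0 - k, by ring⟩
  have n1 : a ^ 2 + s ^ 2 = 1 := by linear_combination k1
  have n2 : b ^ 2 + d ^ 2 = 1 := by linear_combination k2
  have n3 : a * b + s * d = 0 := by linear_combination (1 / 2) * (k1 + k2 - k3)
  have hb : b = -(a * d - b * s) * s := by linear_combination (-b) * n1 + a * n3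
  have hd : d = (a * d - b * s) * a := by linear_combination (-d) * n1 + s * n3
  have hσ : (a * d - b * s) ^ 2 = 1 := by
    linear_combination (b ^ 2 + d ^ 2) * n1 + n2 - (a * b + s * d) * n3
  refine ⟨a, s, a * d - b * s, e, k, n1, hσ, fun x y => ?_⟩
  have q4 := k4 x y
  have q5 := k5 x y
  have q6 := k6 x y
  generalize φ (WithLp.toLp 2 ![x, y]) 0 = X0 at *
  generalize φ (WithLp.toLp 2 ![x, y]) 1 = Y0 at *
  obtain ⟨X, rfl⟩ : ∃ X, X0 = X + e := ⟨X0 - e, by ring⟩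
  obtain ⟨Y, rfl⟩ : ∃ Y, Y0 = Y + k := ⟨Y0 - k, by ring⟩
  have r1 : X * a + Y * s = x := by linear_combination (1 / 2) * (q4 - q5 + n1)
  have r2 : X * b + Y * d = y := by linear_combination (1 / 2) * (q4 - q6 + n2)
  generalize a * d - b * s = σ at hb hd hσ ⊢
  subst hb hd
  constructor
  · linear_combination a * r1 - σ * s * r2 - X * n1 + (Y * a * s - X * s ^ 2) * hσ
  · linear_combination s * r1 + σ * a * r2 - Y * n1 + (X * a * s - Y * a ^ 2) * hσ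

lemma rig_of_isom {f : ℝ → ℝ}
    (h : ∀ c : ℝ, 0 < c → ∃ φ : EuclideanSpace ℝ (Fin 2) ≃ᵢ EuclideanSpace ℝ (Fin 2),
      φ '' Set.range (fun x : ℝ => (WithLp.toLp 2 ![x, c * f x] : EuclideanSpace ℝ (Fin 2)))
        = Set.range (fun x : ℝ => (WithLp.toLp 2 ![x, f x] : EuclideanSpace ℝ (Fin 2)))) :
    Rig (Gr f) := by
  intro c hc
  obtain ⟨φ, hφ⟩ := h c hc
  obtain ⟨a, s, σ, e, k, h1, h2, h3⟩ := isom_form φ
  refine ⟨a, s, σ * c, e, k, h1, by rw [mul_pow, h2, one_mul], ?_, fun p => ?_⟩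
  · rw [adet_rot h1]
    refine mul_ne_zero (fun h0 => ?_) hc.ne'
    rw [h0] at h2; norm_num at h2
  have e1 : (app (rot a s (σ * c) e k) p).1 = φ (WithLp.toLp 2 ![p.1, c * p.2]) 0 := by
    rw [(h3 _ _).1]; simp only [app, rot]; ring
  have e2 : (app (rot a s (σ * c) e k) p).2 = φ (WithLp.toLp 2 ![p.1, c * p.2]) 1 := by
    rw [(h3 _ _).2]; simp only [app, rot]; ring
  change p.2 = f p.1 ↔ (app (rot a s (σ * c) e k) p).2 = f (app (rot a s (σ * c) e k) p).1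
  rw [e1, e2]
  constructor
  · intro hp
    have : φ (WithLp.toLp 2 ![p.1, c * p.2]) ∈
        Set.range (fun x : ℝ => (WithLp.toLp 2 ![x, f x] : EuclideanSpace ℝ (Fin 2))) := by
      rw [← hφ]
      exact ⟨_, ⟨p.1, rfl⟩, by rw [hp]⟩
    obtain ⟨x, hx⟩ := this
    rw [← hx]
    simp
  · intro hp
    have : φ (WithLp.toLp 2 ![p.1, c * p.2]) ∈ φ ''
        Set.range (fun x : ℝ => (WithLp.toLp 2 ![x, c * f x] : EuclideanSpace ℝ (Fin 2))) := by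
      rw [hφ]
      refine ⟨φ (WithLp.toLp 2 ![p.1, c * p.2]) 0, ?_⟩
      ext i
      fin_cases i
      · simp
      · simpa using hp.symm
    obtain ⟨z, ⟨x, rfl⟩, hz⟩ := this
    have hz2 := φ.injective hz
    have c0 := congrArg (fun v : EuclideanSpace ℝ (Fin 2) => v 0) hz2
    have c1 := congrArg (fun v : EuclideanSpace ℝ (Fin 2) => v 1) hz2
    simp only [Matrix.cons_val_zero, Matrix.cons_val_one] at c0 c1
    rw [← c0]
    exact (mul_left_cancel₀ hc.ne' c1).symm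

lemma gr_eq (f : ℝ → ℝ) : Set.range (fun x : ℝ => (x, f x)) = Gr f := by
  ext p
  constructor
  · rintro ⟨x, rfl⟩; rfl
  · intro hp
    exact ⟨p.1, Prod.ext rfl (Eq.symm hp)⟩

lemma not_dense_of_bounded {f : ℝ → ℝ} {α β M : ℝ} (hαβ : α < β)
    (hb : ∀ x ∈ Set.Ioo α β, |f x| ≤ M) : ¬ Dense (Gr f) := by
  intro hd
  obtain ⟨p, hp1, hp2⟩ := hd.exists_mem_open (U := Set.Ioo α β ×ˢ Set.Ioi M)
    (isOpen_Ioo.prod isOpen_Ioi) ⟨((α + β) / 2, M + 1),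
      ⟨by simp only; linarith, by simp only; linarith⟩, by simp⟩
  have h1 := hb _ hp2.1
  have h2 : M < p.2 := hp2.2
  have h3 : p.2 = f p.1 := hp1
  linarith [le_abs_self (f p.1)]

theorem bounded_thm {f : ℝ → ℝ} (h : Rig (Gr f)) {α β M : ℝ} (hαβ : α < β)
    (hb : ∀ x ∈ Set.Ioo α β, |f x| ≤ M) :
    ∃ a b k : ℝ, (∀ x, f x = a + b * x) ∨ ∀ x, f x = a + b * Real.exp (k * x) := by
  rcases structure_thm h (not_dense_of_bounded hαβ hb) with ⟨a, b, hab⟩ | ⟨a, ha⟩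
  · exact ⟨a, b, 0, Or.inl hab⟩
  · obtain ⟨b, k, hbk⟩ := expo_of_bounded (F := fun x => f x - a) ha (M := M + |a|) hαβ
      (fun x hx => le_trans (abs_sub _ _) (by linarith [hb x hx]))
    exact ⟨a, b, k, Or.inr fun x => by linarith [hbk x]⟩

lemma bounded_of_continuousAt {f : ℝ → ℝ} {x : ℝ} (h : ContinuousAt f x) :
    ∃ α β M : ℝ, α < β ∧ ∀ x ∈ Set.Ioo α β, |f x| ≤ M := by
  obtain ⟨δ, hδ, hb⟩ := Metric.continuousAt_iff.1 h 1 one_pos
  refine ⟨x - δ, x + δ, |f x| + 1, by linarith, fun y hy => ?_⟩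
  have := hb (x := y) (by rw [Real.dist_eq, abs_lt]; constructor <;> linarith [hy.1, hy.2])
  rw [Real.dist_eq] at this
  linarith [abs_sub_abs_le_abs_sub (f y) (f x)]

lemma bounded_of_baire_one {f : ℝ → ℝ} {g : ℕ → ℝ → ℝ} (hg : ∀ n, Continuous (g n))
    (hl : ∀ x, Tendsto (fun n => g n x) atTop (𝓝 (f x))) :
    ∃ α β M : ℝ, α < β ∧ ∀ x ∈ Set.Ioo α β, |f x| ≤ M := by
  have hcl : ∀ N : ℕ, IsClosed {x : ℝ | ∀ n, |g n x| ≤ N} := by
    intro N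
    rw [Set.setOf_forall]
    exact isClosed_iInter fun n => isClosed_le (hg n).abs continuous_const
  have hcov : ⋃ N : ℕ, {x : ℝ | ∀ n, |g n x| ≤ N} = Set.univ := by
    rw [Set.eq_univ_iff_forall]
    intro x
    obtain ⟨B, hB⟩ := (hl x).abs.bddAbove_range
    obtain ⟨N, hN⟩ := exists_nat_ge B
    exact Set.mem_iUnion.2 ⟨N, fun n => le_trans (hB ⟨n, rfl⟩) hN⟩
  obtain ⟨N, x, hx⟩ := nonempty_interior_of_iUnion_of_closed hcl hcov
  obtain ⟨δ, hδ, hb⟩ := Metric.mem_nhds_iff.1 (mem_interior_iff_mem_nhds.1 hx)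
  refine ⟨x - δ, x + δ, N, by linarith, fun y hy => ?_⟩
  have := hb (show y ∈ Metric.ball x δ by
    rw [Metric.mem_ball, Real.dist_eq, abs_lt]; constructor <;> linarith [hy.1, hy.2])
  exact le_of_tendsto' (hl y).abs this

theorem meas_thm {f : ℝ → ℝ} (h : Rig (Gr f)) (hd : ¬ Dense (Gr f)) (hf : AEMeasurable f volume) :
    ∃ a b k : ℝ, (∀ᵐ x ∂volume, f x = a + b * x) ∨
      ∀ᵐ x ∂volume, f x = a + b * Real.exp (k * x) := by
  rcases structure_thm h hd with ⟨a, b, hab⟩ | ⟨a, ha⟩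
  · exact ⟨a, b, 0, Or.inl (Eventually.of_forall hab)⟩
  · obtain ⟨b, k, hbk⟩ := expo_of_meas (F := fun x => f x - a) ha (hf.sub_const a)
    refine ⟨a, b, k, Or.inr ?_⟩
    filter_upwards [hbk] with x hx
    linarith

theorem baire_thm {f : ℝ → ℝ} (h : Rig (Gr f)) (hd : ¬ Dense (Gr f))
    (hf : ∀ U : Set ℝ, IsOpen U → BaireMeasurableSet (f ⁻¹' U)) :
    ∃ a b k : ℝ, (∀ᶠ x in residual ℝ, f x = a + b * x) ∨
      ∀ᶠ x in residual ℝ, f x = a + b * Real.exp (k * x) := by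
  rcases structure_thm h hd with ⟨a, b, hab⟩ | ⟨a, ha⟩
  · exact ⟨a, b, 0, Or.inl (Eventually.of_forall hab)⟩
  · obtain ⟨b, k, hbk⟩ := expo_of_baire (F := fun x => f x - a) ha (fun U hU =>
      hf ((fun y => y - a) ⁻¹' U) (hU.preimage (by fun_prop)))
    refine ⟨a, b, k, Or.inr ?_⟩
    filter_upwards [hbk] with x hx
    linarith

end Pool.Agent.H545Z.Rigid
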