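import Mathlib

set_option linter.unusedSectionVars false

open Finset

namespace Pool.Agent.H545Z.SOS

variable {ι : Type} [Fintype ι] [DecidableEq ι]

/-- unit vector -/
def e (i : ι) : ι → ℤ := Pi.single i 1

lemma e_apply (i j : ι) : e i j = if j = i then 1 else 0 := by
  unfold e; rw [Pi.single_apply]

@[simp] lemma e_self (i : ι) : e i i = 1 := by simp [e_apply]

lemma e_ne {i j : ι} (h : j ≠ i) : e i j = 0 := by simp [e_apply, h]

lemma e_nonneg (i j : ι) : 0 ≤ e i j := by rw [e_apply]; split_ifs <;> simp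

lemma e_inj {i j : ι} (h : e i = e j) : i = j := by
  by_contra hn
  have := congrFun h i
  rw [e_self, e_ne hn] at this
  exact one_ne_zero this

lemma sum_e {I : Finset ι} {i : ι} (h : i ∈ I) : ∑ l ∈ I, e i l = 1 := by
  simp [e_apply, h]

lemma sum_e' {I : Finset ι} {i : ι} (h : i ∉ I) : ∑ l ∈ I, e i l = 0 := by
  simp [e_apply, h]

/-- multiplication by the sum of the variables in `I` -/
noncomputable def bb (I : Finset ι) (c : (ι → ℤ) →₀ ℝ) : (ι → ℤ) →₀ ℝ :=
  ∑ i ∈ I, c.mapDomain (Equiv.addRight (e i))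

lemma bb_apply (I : Finset ι) (c : (ι → ℤ) →₀ ℝ) (β : ι → ℤ) :
    bb I c β = ∑ i ∈ I, c (β - e i) := by
  unfold bb
  rw [Finsupp.finset_sum_apply]
  refine sum_congr rfl fun i _ => ?_
  rw [Finsupp.mapDomain_equiv_apply]
  simp [sub_eq_add_neg]

lemma bb_dual (I : Finset ι) (c : (ι → ℤ) →₀ ℝ) (f : (ι → ℤ) → ℝ) :
    ∑ β ∈ (bb I c).support, bb I c β * f β =
      ∑ γ ∈ c.support, c γ * ∑ i ∈ I, f (γ + e i) := by
  have h1 : ∑ β ∈ (bb I c).support, bb I c β * f β = Finsupp.linearCombination ℝ f (bb I c) := by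
    rw [Finsupp.linearCombination_apply, Finsupp.sum]; simp
  rw [h1]
  unfold bb
  rw [map_sum]
  simp_rw [Finsupp.linearCombination_mapDomain, Finsupp.linearCombination_apply, Finsupp.sum,
    mul_sum]
  rw [sum_comm]
  simp

lemma exists_of_mem_bb {I : Finset ι} {c : (ι → ℤ) →₀ ℝ} {β : ι → ℤ} (h : β ∈ (bb I c).support) :
    ∃ i ∈ I, β - e i ∈ c.support := by
  rw [Finsupp.mem_support_iff, bb_apply] at h
  obtain ⟨i, hi, h2⟩ := exists_ne_zero_of_sum_ne_zero h
  exact ⟨i, hi, Finsupp.mem_support_iff.2 h2⟩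

/-- same homogeneous component -/
def Same (I : Finset ι) (β β' : ι → ℤ) : Prop :=
  ∑ i ∈ I, β i = ∑ i ∈ I, β' i ∧ ∀ l, l ∉ I → β l = β' l

lemma Same.symm {I : Finset ι} {β β' : ι → ℤ} (h : Same I β β') : Same I β' β :=
  ⟨h.1.symm, fun l hl => (h.2 l hl).symm⟩

lemma Same.trans {I : Finset ι} {β β' β'' : ι → ℤ} (h : Same I β β') (h' : Same I β' β'') :
    Same I β β'' := ⟨h.1.trans h'.1, fun l hl => (h.2 l hl).trans (h'.2 l hl)⟩

lemma Same.refl (I : Finset ι) (β : ι → ℤ) : Same I β β := ⟨rfl, fun _ _ => rfl⟩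

lemma Same.shift {I : Finset ι} {β β' : ι → ℤ} {i j : ι} (hi : i ∈ I) (hj : j ∈ I)
    (h : Same I (β - e i) (β' - e j)) : Same I β β' := by
  refine ⟨?_, fun l hl => ?_⟩
  · have := h.1
    simp only [Pi.sub_apply, sum_sub_distrib, sum_e hi, sum_e hj] at this
    linarith
  · have := h.2 l hl
    simp only [Pi.sub_apply] at this
    rw [e_ne (fun h => hl (by rw [h]; exact hi)), e_ne (fun h => hl (by rw [h]; exact hj))] at this
    linarith

lemma Same.shift' {I : Finset ι} {β β' : ι → ℤ} {i j : ι} (hi : i ∈ I) (hj : j ∈ I)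
    (h : Same I β β') : Same I (β - e i) (β' - e j) := by
  refine ⟨?_, fun l hl => ?_⟩
  · have := h.1
    simp only [Pi.sub_apply, sum_sub_distrib, sum_e hi, sum_e hj]
    linarith
  · have := h.2 l hl
    simp only [Pi.sub_apply]
    rw [e_ne (fun h => hl (by rw [h]; exact hi)), e_ne (fun h => hl (by rw [h]; exact hj))]
    linarith

/-- two points of one component, comparable on `I`, are equal -/
lemma Same.eq_of_le {I : Finset ι} {β β' : ι → ℤ} (h : Same I β β') (hle : ∀ l ∈ I, β l ≤ β' l) :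
    β = β' := by
  funext l
  by_cases hl : l ∈ I
  · exact (sum_eq_sum_iff_of_le hle).1 h.1 l hl
  · exact h.2 l hl

structure Good (I : Finset ι) (c : (ι → ℤ) →₀ ℝ) : Prop where
  hom : ∀ γ ∈ c.support, ∀ γ' ∈ c.support, Same I γ γ'
  pos : ∀ β, 0 ≤ bb I c β
  neg : ∃ α, c α < 0

lemma Good.same {I : Finset ι} {c : (ι → ℤ) →₀ ℝ} (h : Good I c) {β β' : ι → ℤ}
    (hβ : β ∈ (bb I c).support) (hβ' : β' ∈ (bb I c).support) : Same I β β' := by
  obtain ⟨i, hi, h1⟩ := exists_of_mem_bb hβ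
  obtain ⟨j, hj, h2⟩ := exists_of_mem_bb hβ'
  exact Same.shift hi hj (h.hom _ h1 _ h2)

lemma Good.ne {I : Finset ι} {c : (ι → ℤ) →₀ ℝ} (h : Good I c) : c.support.Nonempty := by
  obtain ⟨α, hα⟩ := h.neg
  exact ⟨α, Finsupp.mem_support_iff.2 hα.ne⟩

lemma Good.mem {I : Finset ι} {c : (ι → ℤ) →₀ ℝ} (h : Good I c) {β : ι → ℤ} :
    β ∈ (bb I c).support ↔ 0 < bb I c β := by
  rw [Finsupp.mem_support_iff]
  exact ⟨fun h1 => lt_of_le_of_ne (h.pos β) (Ne.symm h1), fun h1 => h1.ne'⟩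

/-- least exponent of the variable `z` -/
noncomputable def mn (c : (ι → ℤ) →₀ ℝ) (z : ι) : ℤ :=
  if h : c.support.Nonempty then c.support.inf' h (fun γ => γ z) else 0

lemma mn_le {c : (ι → ℤ) →₀ ℝ} {γ : ι → ℤ} (h : γ ∈ c.support) (z : ι) : mn c z ≤ γ z := by
  unfold mn
  rw [dif_pos ⟨γ, h⟩]
  exact inf'_le (fun γ => γ z) h

lemma exists_mn {c : (ι → ℤ) →₀ ℝ} (h : c.support.Nonempty) (z : ι) :
    ∃ γ ∈ c.support, γ z = mn c z := by
  unfold mn
  rw [dif_pos h]
  obtain ⟨γ, h1, h2⟩ := exists_mem_eq_inf' h (fun γ => γ z)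
  exact ⟨γ, h1, h2.symm⟩

lemma mn_le_bb {I : Finset ι} {c : (ι → ℤ) →₀ ℝ} {β : ι → ℤ} (h : β ∈ (bb I c).support) (z : ι) :
    mn c z ≤ β z := by
  obtain ⟨i, _, h1⟩ := exists_of_mem_bb h
  have := mn_le h1 z
  have h2 := e_nonneg i z
  simp only [Pi.sub_apply] at this
  linarith

lemma zero_of_lt_mn {c : (ι → ℤ) →₀ ℝ} {γ : ι → ℤ} {z : ι} (h : γ z < mn c z) : c γ = 0 := by
  by_contra hn
  exact absurd (mn_le (Finsupp.mem_support_iff.2 hn) z) (not_le.2 h)

def inA (c : (ι → ℤ) →₀ ℝ) (z : ι) : Prop := ∃ γ, c γ < 0 ∧ γ z = mn c z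

noncomputable def slice (c : (ι → ℤ) →₀ ℝ) (z : ι) : (ι → ℤ) →₀ ℝ :=
  c.filter (fun γ => γ z = mn c z)

lemma slice_apply (c : (ι → ℤ) →₀ ℝ) (z : ι) (γ : ι → ℤ) :
    slice c z γ = if γ z = mn c z then c γ else 0 := by
  unfold slice; rw [Finsupp.filter_apply]

lemma mem_slice {c : (ι → ℤ) →₀ ℝ} {z : ι} {γ : ι → ℤ} :
    γ ∈ (slice c z).support ↔ γ ∈ c.support ∧ γ z = mn c z := by
  unfold slice; rw [Finsupp.support_filter, mem_filter]

lemma bb_slice {I : Finset ι} (c : (ι → ℤ) →₀ ℝ) {z : ι} (hz : z ∈ I) (β : ι → ℤ) :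
    bb (I.erase z) (slice c z) β = if β z = mn c z then bb I c β else 0 := by
  rw [bb_apply, bb_apply]
  have h1 : ∀ i ∈ I.erase z, slice c z (β - e i) = if β z = mn c z then c (β - e i) else 0 := by
    intro i hi
    rw [slice_apply, Pi.sub_apply, e_ne (ne_of_mem_erase hi).symm, sub_zero]
  rw [sum_congr rfl h1]
  split_ifs with h
  · rw [← add_sum_erase I _ hz, zero_of_lt_mn (z := z), zero_add]
    rw [Pi.sub_apply, e_self]; omega
  · simp

lemma support_bb_slice {I : Finset ι} (c : (ι → ℤ) →₀ ℝ) {z : ι} (hz : z ∈ I) :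
    (bb (I.erase z) (slice c z)).support = (bb I c).support.filter (fun β => β z = mn c z) := by
  ext β
  rw [mem_filter, Finsupp.mem_support_iff, Finsupp.mem_support_iff, bb_slice c hz]
  split_ifs with h <;> simp [h]

/-- number of terms -/
noncomputable def NN (I : Finset ι) (c : (ι → ℤ) →₀ ℝ) : ℕ := #(bb I c).support

/-- the terms above the lowest level of `z` -/
noncomputable def Up (I : Finset ι) (c : (ι → ℤ) →₀ ℝ) (z : ι) : Finset (ι → ℤ) :=
  (bb I c).support.filter (fun β => mn c z < β z)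

lemma mem_Up {I : Finset ι} {c : (ι → ℤ) →₀ ℝ} {z : ι} {β : ι → ℤ} :
    β ∈ Up I c z ↔ β ∈ (bb I c).support ∧ mn c z < β z := mem_filter

lemma NN_eq {I : Finset ι} (c : (ι → ℤ) →₀ ℝ) {z : ι} (hz : z ∈ I) :
    NN I c = NN (I.erase z) (slice c z) + #(Up I c z) := by
  unfold NN Up
  rw [support_bb_slice c hz, ← card_filter_add_card_filter_not (s := (bb I c).support)
    (fun β => β z = mn c z)]
  congr 2
  refine filter_congr fun β hβ => ?_
  have := mn_le_bb hβ z
  omega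

lemma Good.slice {I : Finset ι} {c : (ι → ℤ) →₀ ℝ} (h : Good I c) {z : ι} (hz : z ∈ I)
    (hA : inA c z) : Good (I.erase z) (slice c z) := by
  refine ⟨fun γ hγ γ' hγ' => ?_, fun β => ?_, ?_⟩
  · rw [mem_slice] at hγ hγ'
    obtain ⟨h1, h2⟩ := h.hom γ hγ.1 γ' hγ'.1
    refine ⟨?_, fun l hl => ?_⟩
    · rw [← add_sum_erase I _ hz, ← add_sum_erase I _ hz, hγ.2, hγ'.2] at h1
      linarith
    · by_cases hlz : l = z
      · rw [hlz, hγ.2, hγ'.2]
      · exact h2 l (fun hI => hl (mem_erase.2 ⟨hlz, hI⟩))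
  · rw [bb_slice c hz]
    split_ifs
    · exact h.pos β
    · exact le_rfl
  · obtain ⟨γ, h1, h2⟩ := hA
    exact ⟨γ, by rw [slice_apply, if_pos h2]; exact h1⟩

/-- the top level in the variable `z` -/
lemma exists_top {I : Finset ι} {c : (ι → ℤ) →₀ ℝ} (h : c.support.Nonempty) {z : ι} (hz : z ∈ I) :
    ∃ γ0 ∈ c.support, (∀ γ ∈ c.support, γ z ≤ γ0 z) ∧
      ∀ γ, γ0 z ≤ γ z → bb I c (γ + e z) = c γ := by
  obtain ⟨γ0, h1, h2⟩ := exists_max_image c.support (fun γ => γ z) h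
  refine ⟨γ0, h1, h2, fun γ hγ => ?_⟩
  rw [bb_apply, ← add_sum_erase I _ hz, add_sub_cancel_right, sum_eq_zero, add_zero]
  intro i hi
  by_contra hn
  have := h2 _ (Finsupp.mem_support_iff.2 hn)
  simp only [Pi.sub_apply, Pi.add_apply, e_self] at this
  rw [e_ne (ne_of_mem_erase hi).symm] at this
  omega

lemma huang (I : Finset ι) : ∀ c : (ι → ℤ) →₀ ℝ, c.support.Nonempty → #I ≤ NN I c := by
  induction I using Finset.induction_on with
  | empty => intro c _; simp
  | insert z I hz ih =>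
    intro c hc
    have hzI : z ∈ insert z I := mem_insert_self z I
    rw [NN_eq c hzI, erase_insert hz, card_insert_of_notMem hz]
    have h1 : (slice c z).support.Nonempty := by
      obtain ⟨γ, h1, h2⟩ := exists_mn hc z
      exact ⟨γ, mem_slice.2 ⟨h1, h2⟩⟩
    have h2 := ih _ h1
    obtain ⟨γ0, h3, -, h4⟩ := exists_top hc hzI
    have h5 : (Up (insert z I) c z).Nonempty := by
      refine ⟨γ0 + e z, mem_Up.2 ⟨?_, ?_⟩⟩
      · rw [Finsupp.mem_support_iff, h4 γ0 le_rfl]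
        exact Finsupp.mem_support_iff.1 h3
      · have := mn_le h3 z
        simp only [Pi.add_apply, e_self]
        omega
    have := card_pos.2 h5
    omega

def NoFull (I : Finset ι) (c : (ι → ℤ) →₀ ℝ) : Prop :=
  ∀ γ, ∃ i ∈ I, γ + e i ∉ (bb I c).support

lemma reduce {I : Finset ι} {c : (ι → ℤ) →₀ ℝ} (hI : I.Nonempty) (h : Good I c)
    (hf : ¬ NoFull I c) : ∃ c', Good I c' ∧ NN I c' < NN I c := by
  unfold NoFull at hf
  push Not at hf
  obtain ⟨γ, hγ⟩ := hf
  obtain ⟨i0, hi0, hmin⟩ := exists_min_image I (fun i => bb I c (γ + e i)) hI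
  set t := bb I c (γ + e i0) with ht
  have htpos : 0 < t := h.mem.1 (hγ i0 hi0)
  have key : ∀ β, bb I (c - Finsupp.single γ t) β =
      bb I c β - if ∃ i ∈ I, β = γ + e i then t else 0 := by
    intro β
    rw [bb_apply, bb_apply]
    simp only [Finsupp.sub_apply, sum_sub_distrib]
    congr 1
    split_ifs with hb
    · obtain ⟨i, hi, rfl⟩ := hb
      rw [sum_eq_single i]
      · simp
      · intro j _ hj
        rw [Finsupp.single_apply, if_neg]
        intro h1
        apply hj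
        apply e_inj
        have h2 : γ + e j = γ + e i := by rw [eq_sub_iff_add_eq] at h1; exact h1
        exact add_left_cancel h2
      · intro h1; exact absurd hi h1
    · refine sum_eq_zero fun i hi => ?_
      rw [Finsupp.single_apply, if_neg]
      intro h1
      exact hb ⟨i, hi, by rw [h1]; simp⟩
  have hsame : ∀ γ' ∈ c.support, Same I γ γ' := by
    intro γ' hγ'
    obtain ⟨j, hj, h1⟩ := exists_of_mem_bb (hγ i0 hi0)
    have h2 := h.hom _ h1 _ hγ'
    have h3 : Same I (γ + e i0 - e i0) (γ + e i0 - e j) := Same.shift' hi0 hj (Same.refl _ _)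
    rw [add_sub_cancel_right] at h3
    exact h3.trans h2
  have hsup : ∀ γ' ∈ (c - Finsupp.single γ t).support, Same I γ γ' := by
    intro γ' hγ'
    by_cases h1 : γ' ∈ c.support
    · exact hsame γ' h1
    · rw [Finsupp.mem_support_iff, Finsupp.sub_apply, Finsupp.notMem_support_iff.1 h1,
        Finsupp.single_apply] at hγ'
      split_ifs at hγ' with h2
      · rw [h2]; exact Same.refl _ _
      · simp at hγ'
  refine ⟨c - Finsupp.single γ t, ⟨fun a ha a' ha' => (hsup a ha).symm.trans (hsup a' ha'),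
    fun β => ?_, ?_⟩, ?_⟩
  · rw [key]
    split_ifs with hb
    · obtain ⟨i, hi, rfl⟩ := hb
      have := hmin i hi
      linarith
    · simpa using h.pos β
  · obtain ⟨α, hα⟩ := h.neg
    refine ⟨α, ?_⟩
    rw [Finsupp.sub_apply, Finsupp.single_apply]
    split_ifs <;> linarith
  · apply card_lt_card
    refine ⟨fun β hβ => ?_, fun hsub => ?_⟩
    · rw [Finsupp.mem_support_iff, key] at hβ
      split_ifs at hβ with hb
      · obtain ⟨i, hi, rfl⟩ := hb
        exact hγ i hi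
      · simpa using hβ
    · have := hsub (hγ i0 hi0)
      rw [Finsupp.mem_support_iff, key, if_pos ⟨i0, hi0, rfl⟩] at this
      exact this (by rw [ht]; ring)

lemma bottom_mem {I : Finset ι} {c : (ι → ℤ) →₀ ℝ} {d : ι} (hd : d ∈ I)
    (hC : ¬ inA c d) {γ : ι → ℤ} (hγ : γ ∈ c.support) (hγd : γ d = mn c d) {j : ι}
    (hj : j ∈ I.erase d) : γ + e j ∈ (bb I c).support := by
  have hjd : (γ + e j) d = mn c d := by
    rw [Pi.add_apply, e_ne (ne_of_mem_erase hj).symm, add_zero, hγd]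
  have hnn : ∀ δ, δ d = mn c d → 0 ≤ c δ := fun δ hδ => by
    by_contra hn
    exact hC ⟨δ, not_le.1 hn, hδ⟩
  have h1 := bb_slice c hd (γ + e j)
  rw [if_pos hjd] at h1
  rw [Finsupp.mem_support_iff, ← h1, bb_apply]
  apply ne_of_gt
  refine sum_pos' (fun i _ => ?_) ⟨j, hj, ?_⟩
  · rw [slice_apply]
    split_ifs with h2
    · exact hnn _ h2
    · exact le_rfl
  · rw [add_sub_cancel_right, slice_apply, if_pos hγd]
    exact lt_of_le_of_ne (hnn γ hγd) (Finsupp.mem_support_iff.1 hγ).symm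

lemma lemC {I : Finset ι} {c : (ι → ℤ) →₀ ℝ} (hc : c.support.Nonempty) (hf : NoFull I c)
    {D : Finset ι} (hD : D ⊆ I) (hC : ∀ d ∈ D, ¬ inA c d) :
    ∃ F ⊆ (bb I c).support, #D * (#I - 1) ≤ #F ∧ ∀ β ∈ F, ∃ d ∈ D, β d = mn c d := by
  choose g hg hg' using fun d => exists_mn hc d
  have hgt : ∀ d ∈ D, ∀ d' ∈ D, d ≠ d' → mn c d' < g d d' := by
    intro d hd d' hd' hne
    refine lt_of_le_of_ne (mn_le (hg d) d') fun heq => ?_
    obtain ⟨i, hi, hi'⟩ := hf (g d)
    apply hi'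
    by_cases hid : i = d
    · exact bottom_mem (hD hd') (hC d' hd') (hg d) heq.symm (mem_erase.2 ⟨hid ▸ hne, hi⟩)
    · exact bottom_mem (hD hd) (hC d hd) (hg d) (hg' d) (mem_erase.2 ⟨hid, hi⟩)
  have hval : ∀ d, ∀ j ∈ I.erase d, (g d + e j) d = mn c d := fun d j hj => by
    rw [Pi.add_apply, e_ne (ne_of_mem_erase hj).symm, add_zero, hg']
  refine ⟨D.biUnion fun d => (I.erase d).image fun j => g d + e j, ?_, ?_, ?_⟩
  · intro β hβ
    obtain ⟨d, hd, h1⟩ := mem_biUnion.1 hβ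
    obtain ⟨j, hj, rfl⟩ := mem_image.1 h1
    exact bottom_mem (hD hd) (hC d hd) (hg d) (hg' d) hj
  · rw [card_biUnion]
    · rw [← smul_eq_mul, ← sum_const]
      refine sum_le_sum fun d hd => ?_
      rw [card_image_of_injective _ (fun a b h => e_inj (add_left_cancel h)),
        card_erase_of_mem (hD hd)]
    · intro d hd d' hd' hne
      rw [Function.onFun, disjoint_left]
      intro β h1 h2
      obtain ⟨j, hj, rfl⟩ := mem_image.1 h1
      obtain ⟨j', hj', h3⟩ := mem_image.1 h2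
      have h4 := hval d' j' hj'
      rw [h3, Pi.add_apply] at h4
      have h5 := hgt d hd d' hd' hne
      have h6 := e_nonneg j d'
      omega
  · intro β hβ
    obtain ⟨d, hd, h1⟩ := mem_biUnion.1 hβ
    obtain ⟨j, hj, rfl⟩ := mem_image.1 h1
    exact ⟨d, hd, hval d j hj⟩

end Pool.Agent.H545Z.SOS
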