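import Pool.Agent.H545Z.SOS1

set_option linter.unusedSectionVars false

open Finset

namespace Pool.Agent.H545Z.SOS

variable {ι : Type} [Fintype ι] [DecidableEq ι]

noncomputable def fac (t : ℤ) : ℝ := (t.toNat.factorial : ℝ)

noncomputable def invfac (t : ℤ) : ℝ := if 0 ≤ t then (fac t)⁻¹ else 0

lemma fac_pos (t : ℤ) : 0 < fac t := by
  unfold fac; exact_mod_cast Nat.factorial_pos _

lemma fac_zero : fac 0 = 1 := by simp [fac]

lemma fac_succ {s : ℤ} (h : 1 ≤ s) : fac s = s * fac (s - 1) := by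
  obtain ⟨k, rfl⟩ : ∃ k : ℕ, s = (k : ℤ) + 1 := ⟨(s - 1).toNat, by omega⟩
  unfold fac
  have h1 : ((k : ℤ) + 1).toNat = k + 1 := by omega
  have h2 : ((k : ℤ) + 1 - 1).toNat = k := by omega
  rw [h1, h2, Nat.factorial_succ]
  push_cast
  ring

lemma invfac_nonneg (t : ℤ) : 0 ≤ invfac t := by
  unfold invfac
  split_ifs
  · exact (inv_pos.2 (fac_pos t)).le
  · exact le_rfl

lemma invfac_pos {t : ℤ} (h : 0 ≤ t) : 0 < invfac t := by
  unfold invfac
  rw [if_pos h]
  exact inv_pos.2 (fac_pos t)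

lemma invfac_neg {t : ℤ} (h : t < 0) : invfac t = 0 := by
  unfold invfac
  rw [if_neg (not_le.2 h)]

lemma invfac_pred (t : ℤ) : invfac (t - 1) = t * invfac t := by
  rcases lt_trichotomy t 0 with h | h | h
  · rw [invfac_neg h, invfac_neg (by omega)]; simp
  · subst h; rw [invfac_neg (by omega)]; simp
  · unfold invfac
    rw [if_pos (by omega), if_pos h.le, fac_succ (s := t) (by omega)]
    have h1 : (t : ℝ) ≠ 0 := by exact_mod_cast h.ne'
    have h2 := (fac_pos (t - 1)).ne'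
    field_simp

/-- multinomial coefficient in the variables `K` -/
noncomputable def W (K : Finset ι) (μ : ι → ℤ) : ℝ :=
  fac (∑ a ∈ K, μ a) * ∏ a ∈ K, invfac (μ a)

lemma W_nonneg (K : Finset ι) (μ : ι → ℤ) : 0 ≤ W K μ :=
  mul_nonneg (fac_pos _).le (prod_nonneg fun _ _ => invfac_nonneg _)

lemma W_pos {K : Finset ι} {μ : ι → ℤ} (h : ∀ a ∈ K, 0 ≤ μ a) : 0 < W K μ :=
  mul_pos (fac_pos _) (prod_pos fun a ha => invfac_pos (h a ha))

lemma W_eq_zero {K : Finset ι} {μ : ι → ℤ} {a : ι} (ha : a ∈ K) (h : μ a < 0) : W K μ = 0 := by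
  unfold W
  rw [prod_eq_zero ha (invfac_neg h), mul_zero]

lemma W_ne_zero {K : Finset ι} {μ : ι → ℤ} (h : W K μ ≠ 0) : ∀ a ∈ K, 0 ≤ μ a := fun a ha => by
  by_contra hn
  exact h (W_eq_zero ha (not_le.1 hn))

lemma W_congr {K : Finset ι} {μ μ' : ι → ℤ} (h : ∀ a ∈ K, μ a = μ' a) : W K μ = W K μ' := by
  unfold W
  rw [sum_congr rfl h, prod_congr rfl fun a ha => by rw [h a ha]]

lemma W_pred {K : Finset ι} {μ : ι → ℤ} {a : ι} (ha : a ∈ K) (hs : 1 ≤ ∑ l ∈ K, μ l) :
    ((∑ l ∈ K, μ l : ℤ) : ℝ) * W K (μ - e a) = μ a * W K μ := by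
  unfold W
  have h1 : ∑ l ∈ K, (μ - e a) l = ∑ l ∈ K, μ l - 1 := by
    simp only [Pi.sub_apply, sum_sub_distrib, sum_e ha]
  have h2 : ∏ l ∈ K.erase a, invfac ((μ - e a) l) = ∏ l ∈ K.erase a, invfac (μ l) :=
    prod_congr rfl fun l hl => by rw [Pi.sub_apply, e_ne (ne_of_mem_erase hl), sub_zero]
  rw [h1, fac_succ hs, ← mul_prod_erase K _ ha, ← mul_prod_erase K (fun l => invfac (μ l)) ha, h2,
    Pi.sub_apply, e_self, invfac_pred]
  ring

lemma W_pascal {K : Finset ι} {μ : ι → ℤ} (hs : 1 ≤ ∑ l ∈ K, μ l) :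
    ∑ a ∈ K, W K (μ - e a) = W K μ := by
  have h0 : ((∑ l ∈ K, μ l : ℤ) : ℝ) ≠ 0 := by
    have : (∑ l ∈ K, μ l) ≠ 0 := by omega
    exact_mod_cast this
  apply mul_left_cancel₀ h0
  rw [mul_sum, sum_congr rfl fun a ha => W_pred ha hs, ← sum_mul]
  push_cast
  rfl

lemma W_pure {K : Finset ι} {μ : ι → ℤ} {a : ι} (ha : a ∈ K) (h0 : 0 ≤ μ a)
    (h : ∀ l ∈ K, l ≠ a → μ l = 0) : W K μ = 1 := by
  unfold W
  rw [sum_eq_single a (fun l hl hla => h l hl hla) (fun h => absurd ha h),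
    prod_eq_single a (fun l hl hla => by rw [h l hl hla]; simp [invfac, fac_zero])
      (fun h => absurd ha h)]
  unfold invfac
  rw [if_pos h0]
  exact mul_inv_cancel₀ (fac_pos _).ne'

lemma W_zero {K : Finset ι} {μ : ι → ℤ} (h : ∀ l ∈ K, μ l = 0) : W K μ = 1 := by
  unfold W
  rw [sum_eq_zero h, prod_eq_one fun l hl => by rw [h l hl]; simp [invfac, fac_zero], fac_zero,
    mul_one]

/-- terms at odd height -/
noncomputable def Od (I : Finset ι) (c : (ι → ℤ) →₀ ℝ) (z : ι) : Finset (ι → ℤ) :=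
  (Up I c z).filter (fun β => Odd (β z - mn c z))

/-- terms at even positive height -/
noncomputable def Ev (I : Finset ι) (c : (ι → ℤ) →₀ ℝ) (z : ι) : Finset (ι → ℤ) :=
  (Up I c z).filter (fun β => ¬ Odd (β z - mn c z))

lemma identity {I : Finset ι} {c : (ι → ℤ) →₀ ℝ} (hG : Good I c) {z : ι} (hz : z ∈ I)
    {ν β0 : ι → ℤ} (hβ0 : β0 ∈ (bb I c).support) (hν : Same I ν β0) (hνz : ν z = mn c z) :
    bb I c ν + ∑ β ∈ Ev I c z, bb I c β * W (I.erase z) (ν - β) =
      ∑ β ∈ Od I c z, bb I c β * W (I.erase z) (ν - β) := by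
  set K := I.erase z with hK
  set m := mn c z with hm
  have h1 := bb_dual I c (fun β => (-1 : ℝ) ^ (β z - m) * W K (ν - β))
  have h2 : ∀ γ ∈ c.support, ∑ i ∈ I, (-1 : ℝ) ^ ((γ + e i) z - m) * W K (ν - (γ + e i)) = 0 := by
    intro γ hγ
    obtain ⟨j, hj, h3⟩ := exists_of_mem_bb hβ0
    have h4 := (hG.hom _ h3 _ hγ).1
    have h5 := hν.1
    simp only [Pi.sub_apply, sum_sub_distrib, sum_e hj] at h4
    have h6 : ∑ l ∈ K, (ν - γ) l = 1 + γ z - m := by
      simp only [Pi.sub_apply, sum_sub_distrib]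
      have a1 := add_sum_erase I ν hz
      have a2 := add_sum_erase I γ hz
      rw [← hK] at a1 a2
      linarith
    have h7 := mn_le hγ z
    rw [← add_sum_erase I _ hz, ← hK]
    have h8 : ∀ i ∈ K, (-1 : ℝ) ^ ((γ + e i) z - m) * W K (ν - (γ + e i)) =
        (-1 : ℝ) ^ (γ z - m) * W K (ν - γ - e i) := by
      intro i hi
      rw [Pi.add_apply, e_ne (ne_of_mem_erase hi).symm, add_zero, sub_add_eq_sub_sub]
    rw [sum_congr rfl h8, ← mul_sum, W_pascal (by omega)]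
    have h9 : W K (ν - (γ + e z)) = W K (ν - γ) := W_congr fun a ha => by
      simp only [Pi.sub_apply, Pi.add_apply]
      rw [e_ne (ne_of_mem_erase ha), add_zero]
    rw [h9, Pi.add_apply, e_self, show γ z + 1 - m = (γ z - m) + 1 by ring,
      zpow_add_one₀ (by norm_num)]
    ring
  have h2' : ∑ γ ∈ c.support, c γ * ∑ i ∈ I, (-1 : ℝ) ^ ((γ + e i) z - m) * W K (ν - (γ + e i)) = 0 :=
    sum_eq_zero fun γ hγ => by rw [h2 γ hγ, mul_zero]
  rw [h2', ← sum_filter_add_sum_filter_not _ (fun β => m < β z)] at h1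
  have h3 : ∑ β ∈ (bb I c).support.filter (fun β => ¬ m < β z),
      bb I c β * ((-1 : ℝ) ^ (β z - m) * W K (ν - β)) = bb I c ν := by
    rw [sum_eq_single ν]
    · rw [hνz, sub_self, zpow_zero, W_zero (fun l _ => by simp)]; ring
    · intro β hβ hne
      rw [mem_filter] at hβ
      have h4 := mn_le_bb hβ.1 z
      by_cases h5 : W K (ν - β) = 0
      · rw [h5]; ring
      · exfalso
        apply hne
        refine ((hG.same hβ.1 hβ0).trans hν.symm).eq_of_le fun l hl => ?_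
        by_cases hlz : l = z
        · rw [hlz]; omega
        · have := W_ne_zero h5 l (mem_erase.2 ⟨hlz, hl⟩)
          simp only [Pi.sub_apply] at this
          omega
    · intro h4
      rw [mem_filter, not_and_or] at h4
      rcases h4 with h4 | h4
      · rw [Finsupp.notMem_support_iff.1 h4]; ring
      · omega
  have h4 : ∑ β ∈ (bb I c).support.filter (fun β => m < β z),
      bb I c β * ((-1 : ℝ) ^ (β z - m) * W K (ν - β)) =
      ∑ β ∈ Ev I c z, bb I c β * W K (ν - β) - ∑ β ∈ Od I c z, bb I c β * W K (ν - β) := by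
    change ∑ β ∈ Up I c z, _ = _
    rw [← sum_filter_add_sum_filter_not _ (fun β => Odd (β z - m)), sub_eq_neg_add,
      ← sum_neg_distrib]
    congr 1
    · refine sum_congr rfl fun β hβ => ?_
      rw [(mem_filter.1 hβ).2.neg_one_zpow]; ring
    · refine sum_congr rfl fun β hβ => ?_
      rw [(Int.not_odd_iff_even.1 (mem_filter.1 hβ).2).neg_one_zpow]; ring
  rw [h3, h4] at h1
  linarith

end Pool.Agent.H545Z.SOS
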