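import Pool.Agent.H545Z.SOS2

set_option linter.unusedSectionVars false

open Finset

namespace Pool.Agent.H545Z.SOS

variable {ι : Type} [Fintype ι] [DecidableEq ι]

lemma card_le_of_rel {α β : Type} (Y : Finset α) (F : Finset β) (Q : α → β → Prop)
    (h1 : ∀ y ∈ Y, ∃ b ∈ F, Q y b)
    (h2 : ∀ y ∈ Y, ∀ y' ∈ Y, ∀ b, Q y b → Q y' b → y = y') : #Y ≤ #F := by
  classical
  choose f hf hf' using h1
  rw [← card_attach (s := Y)]
  refine card_le_card_of_injOn (fun y => f y.1 y.2) (fun y _ => hf y.1 y.2) ?_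
  intro y _ y' _ h
  apply Subtype.ext
  exact h2 y.1 y.2 y'.1 y'.2 _ (hf' y.1 y.2) (by have := hf' y'.1 y'.2; have h' : f y.1 y.2 = f y'.1 y'.2 := h; rwa [← h'] at this)

lemma mem_Od {I : Finset ι} {c : (ι → ℤ) →₀ ℝ} {z : ι} {β : ι → ℤ} :
    β ∈ Od I c z ↔ β ∈ Up I c z ∧ Odd (β z - mn c z) := mem_filter

lemma mem_Ev {I : Finset ι} {c : (ι → ℤ) →₀ ℝ} {z : ι} {β : ι → ℤ} :
    β ∈ Ev I c z ↔ β ∈ Up I c z ∧ ¬ Odd (β z - mn c z) := mem_filter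

lemma same_sum {I : Finset ι} {z : ι} (hz : z ∈ I) {β β' : ι → ℤ} (h : Same I β β') :
    ∑ l ∈ I.erase z, (β l - β' l) = β' z - β z := by
  have a1 := add_sum_erase I β hz
  have a2 := add_sum_erase I β' hz
  have := h.1
  rw [sum_sub_distrib]
  linarith

/-- every even term lies above an odd term when there are few terms -/
lemma parent {I : Finset ι} {c : (ι → ℤ) →₀ ℝ} (hG : Good I c) {z : ι} (hz : z ∈ I)
    (hT : #(Up I c z) ≤ #(I.erase z)) {β : ι → ℤ} (hβ : β ∈ Ev I c z) :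
    ∃ β' ∈ Od I c z, ∀ l ∈ I.erase z, β' l ≤ β l := by
  by_contra hn
  push Not at hn
  obtain ⟨hU, hodd⟩ := mem_Ev.1 hβ
  obtain ⟨hB, hlt⟩ := mem_Up.1 hU
  have key : ∀ a ∈ I.erase z, ∃ β' ∈ (Up I c z).erase β,
      β a < β' a ∧ ∀ l ∈ I.erase z, l ≠ a → β' l ≤ β l := by
    intro a ha
    set k := β z - mn c z with hk
    set ν : ι → ℤ := β + k • e a - k • e z with hν
    have hνl : ∀ l, ν l = β l + k * e a l - k * e z l := fun l => by simp [hν]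
    have haz := ne_of_mem_erase ha
    have hs : Same I ν β := by
      refine ⟨?_, fun l hl => ?_⟩
      · simp only [hνl, sum_sub_distrib, sum_add_distrib, ← mul_sum, sum_e hz,
          sum_e (mem_of_mem_erase ha)]
        ring
      · rw [hνl, e_ne (fun h => hl (by rw [h]; exact mem_of_mem_erase ha)),
          e_ne (fun h => hl (by rw [h]; exact hz))]
        ring
    have hid := identity hG hz hB hs (by rw [hνl, e_ne haz.symm, e_self]; omega)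
    have h1 : 0 < ∑ β' ∈ Ev I c z, bb I c β' * W (I.erase z) (ν - β') := by
      refine sum_pos' (fun β' _ => mul_nonneg (hG.pos _) (W_nonneg _ _)) ⟨β, hβ, ?_⟩
      refine mul_pos (hG.mem.1 hB) (W_pos fun l hl => ?_)
      rw [Pi.sub_apply, hνl, e_ne (ne_of_mem_erase hl)]
      have := mul_nonneg (show 0 ≤ k by omega) (e_nonneg a l)
      omega
    have h2 : ∑ β' ∈ Od I c z, bb I c β' * W (I.erase z) (ν - β') ≠ 0 := by
      have := hG.pos ν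
      linarith
    obtain ⟨β', hβ', h3⟩ := exists_ne_zero_of_sum_ne_zero h2
    have h4 := W_ne_zero (right_ne_zero_of_mul h3)
    have h5 : ∀ l ∈ I.erase z, l ≠ a → β' l ≤ β l := fun l hl hla => by
      have := h4 l hl
      rw [Pi.sub_apply, hνl, e_ne (ne_of_mem_erase hl), e_ne hla] at this
      omega
    refine ⟨β', mem_erase.2 ⟨?_, (mem_Od.1 hβ').1⟩, ?_, h5⟩
    · rintro rfl
      exact hodd (mem_Od.1 hβ').2
    · obtain ⟨l, hl, h6⟩ := hn β' hβ'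
      by_cases hla : l = a
      · rwa [hla] at h6
      · exact absurd (h5 l hl hla) (not_le.2 h6)
  have := card_le_of_rel _ _ _ key (fun a ha a' ha' b h1 h2 => by
    by_contra hne
    exact absurd (h2.2 a ha hne) (not_le.2 h1.1))
  rw [card_erase_of_mem hU] at this
  have := card_pos.2 ⟨β, hU⟩
  omega

structure Ctx (I : Finset ι) (c : (ι → ℤ) →₀ ℝ) (z : ι) where
  ρ : ι → ℤ
  rep : (ι → ℤ) → ι
  hG : Good I c
  hz : z ∈ I
  ρ_od : ρ ∈ Od I c z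
  h3 : mn c z + 3 ≤ ρ z
  ctop : ∀ γ : ι → ℤ, ρ z - 1 ≤ γ z → 0 ≤ c γ
  ctop' : 0 < c (ρ - e z)
  R0 : ∀ β ∈ (Up I c z).erase ρ, rep β ∈ I.erase z ∧ ρ (rep β) < β (rep β)
  R2 : ∀ β ∈ Ev I c z, (∀ l ∈ I.erase z, ρ l ≤ β l) →
    ∀ l ∈ I.erase z, β l - ρ l ≤ β (rep β) - ρ (rep β)
  R3 : ∀ β ∈ Ev I c z, ¬ (∀ l ∈ I.erase z, ρ l ≤ β l) →
    ∃ β' ∈ (Up I c z).erase ρ, β' ≠ β ∧ rep β' = rep β

lemma exists_ctx {I : Finset ι} {c : (ι → ℤ) →₀ ℝ} (hG : Good I c) {z : ι} (hz : z ∈ I)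
    (hT : #(Up I c z) ≤ #(I.erase z)) : Nonempty (Ctx I c z) := by
  classical
  obtain ⟨γ0, h1, h2, h3⟩ := exists_top hG.ne hz
  have hnn : ∀ γ : ι → ℤ, γ0 z ≤ γ z → 0 ≤ c γ := fun γ hγ => by
    rw [← h3 γ hγ]; exact hG.pos _
  have hpos : 0 < c γ0 := lt_of_le_of_ne (hnn γ0 le_rfl) (Finsupp.mem_support_iff.1 h1).symm
  set ρ := γ0 + e z with hρ
  have hρz : ρ z = γ0 z + 1 := by simp [hρ]
  have hρB : ρ ∈ (bb I c).support := by
    rw [Finsupp.mem_support_iff, h3 γ0 le_rfl]; exact hpos.ne'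
  have hm := mn_le h1 z
  have hρU : ρ ∈ Up I c z := mem_Up.2 ⟨hρB, by omega⟩
  have htop : ∀ β ∈ (bb I c).support, β z ≤ ρ z := by
    intro β hβ
    obtain ⟨i, _, h4⟩ := exists_of_mem_bb hβ
    have h5 := h2 _ h4
    have h6 : e i z ≤ 1 := by rw [e_apply]; split_ifs <;> simp
    simp only [Pi.sub_apply] at h5
    omega
  have hlow : ∀ β ∈ (bb I c).support, (∀ l ∈ I.erase z, β l ≤ ρ l) → β = ρ := by
    intro β hβ hle
    refine (hG.same hβ hρB).eq_of_le fun l hl => ?_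
    by_cases hlz : l = z
    · rw [hlz]; exact htop β hβ
    · exact hle l (mem_erase.2 ⟨hlz, hl⟩)
  have hodd : Odd (ρ z - mn c z) := by
    by_contra hn
    obtain ⟨β', hβ', h4⟩ := parent hG hz hT (mem_Ev.2 ⟨hρU, hn⟩)
    have := hlow β' (mem_Up.1 (mem_Od.1 hβ').1).1 h4
    rw [this] at hβ'
    exact hn (mem_Od.1 hβ').2
  have hgt : mn c z < γ0 z := by
    obtain ⟨α, hα⟩ := hG.neg
    have h4 := mn_le (Finsupp.mem_support_iff.2 hα.ne) z
    by_contra hn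
    exact absurd (hnn α (by omega)) (not_le.2 hα)
  have h33 : mn c z + 3 ≤ ρ z := by
    obtain ⟨k, hk⟩ := hodd
    omega
  have hex : ∀ β ∈ (Up I c z).erase ρ, ∃ a ∈ I.erase z, ρ a < β a ∧
      ∀ l ∈ I.erase z, β l - ρ l ≤ β a - ρ a := by
    intro β hβ
    have h4 : ∃ a ∈ I.erase z, ρ a < β a := by
      by_contra hn
      push Not at hn
      exact (mem_erase.1 hβ).1 (hlow β (mem_Up.1 (mem_erase.1 hβ).2).1 hn)
    obtain ⟨a0, ha0, h5⟩ := h4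
    obtain ⟨a, ha, h6⟩ := exists_max_image (I.erase z) (fun l => β l - ρ l) ⟨a0, ha0⟩
    exact ⟨a, ha, by have := h6 a0 ha0; omega, h6⟩
  haveI : Nonempty ι := ⟨z⟩
  choose! r hr hr1 hr2 using hex
  have hpar := fun β (hβ : β ∈ Ev I c z) => parent hG hz hT hβ
  choose! par hp hp' using hpar
  have hEvU : ∀ β ∈ Ev I c z, β ∈ (Up I c z).erase ρ := fun β hβ =>
    mem_erase.2 ⟨fun h => (mem_Ev.1 hβ).2 (by rw [h]; exact hodd), (mem_Ev.1 hβ).1⟩
  have hparU : ∀ β ∈ Ev I c z, ¬ (∀ l ∈ I.erase z, ρ l ≤ β l) →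
      par β ∈ (Up I c z).erase ρ := fun β hβ hn =>
    mem_erase.2 ⟨fun h => hn (by rw [← h]; exact hp' β hβ), (mem_Od.1 (hp β hβ)).1⟩
  refine ⟨⟨ρ, fun β => if β ∈ Ev I c z ∧ ¬ (∀ l ∈ I.erase z, ρ l ≤ β l) then r (par β) else r β,
    hG, hz, mem_Od.2 ⟨hρU, hodd⟩, h33, fun γ hγ => hnn γ (by omega), by simpa [hρ] using hpos,
    ?_, ?_, ?_⟩⟩
  · intro β hβ
    split_ifs with h
    · have h4 := hparU β h.1 h.2
      exact ⟨hr _ h4, (hr1 _ h4).trans_le (hp' β h.1 _ (hr _ h4))⟩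
    · exact ⟨hr β hβ, hr1 β hβ⟩
  · intro β hβ hd
    rw [if_neg (fun h => h.2 hd)]
    exact hr2 β (hEvU β hβ)
  · intro β hβ hd
    refine ⟨par β, hparU β hβ hd, fun h => ?_, ?_⟩
    · have := hp β hβ
      rw [h] at this
      exact (mem_Ev.1 hβ).2 (mem_Od.1 this).2
    · have e1 : ¬ (par β ∈ Ev I c z ∧ ¬ (∀ l ∈ I.erase z, ρ l ≤ par β l)) :=
        fun h => (mem_Ev.1 h.1).2 (mem_Od.1 (hp β hβ)).2
      have e2 : β ∈ Ev I c z ∧ ¬ (∀ l ∈ I.erase z, ρ l ≤ β l) := ⟨hβ, hd⟩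
      rw [if_neg e1, if_pos e2]

end Pool.Agent.H545Z.SOS
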