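import Pool.Agent.H545Z.SOS3

set_option linter.unusedSectionVars false

open Finset

namespace Pool.Agent.H545Z.SOS

variable {ι : Type} [Fintype ι] [DecidableEq ι]

lemma sym_eq {K : Finset ι} {a b a' b' : ι} (ha : a ∈ K) (hb : b ∈ K)
    (h : ∀ l ∈ K, e a l + e b l = e a' l + e b' l) : s(a, b) = s(a', b') := by
  have h1 := h a ha
  have h2 := h b hb
  rw [Sym2.eq_iff]
  simp only [e_apply] at h1 h2
  by_cases hab : a = b
  · subst hab
    by_cases h3 : a = a' <;> by_cases h4 : a = b' <;> simp_all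
  · have hba : ¬ b = a := fun h => hab h.symm
    by_cases h3 : a = a' <;> by_cases h4 : a = b' <;> by_cases h5 : b = a' <;>
      by_cases h6 : b = b' <;> simp_all

namespace Ctx

variable {I : Finset ι} {c : (ι → ℤ) →₀ ℝ} {z : ι} (C : Ctx I c z)

noncomputable def t (a : ι) : ℕ := #(((Up I c z).erase C.ρ).filter (fun β => C.rep β = a))

noncomputable def J : Finset ι := (I.erase z).filter (fun a => C.t a = 0)

noncomputable def X : Finset ι := (I.erase z).filter (fun a => 2 ≤ C.t a)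

noncomputable def Wt : Finset ι := (I.erase z).filter (fun a => ¬ 2 ≤ C.t a)

noncomputable def h : ℤ := C.ρ z - mn c z

noncomputable def pt (μ : ι → ℤ) : ι → ℤ := C.ρ + μ - C.h • e z

lemma ρU : C.ρ ∈ Up I c z := (mem_Od.1 C.ρ_od).1

lemma ρB : C.ρ ∈ (bb I c).support := (mem_Up.1 C.ρU).1

lemma h_ge : 3 ≤ C.h := by have := C.h3; unfold h; omega

lemma count : #(I.erase z) + 1 + #C.X ≤ #C.J + #(Up I c z) := by
  have h1 : #((Up I c z).erase C.ρ) = ∑ a ∈ I.erase z, C.t a :=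
    card_eq_sum_card_fiberwise (fun β hβ => (C.R0 β hβ).1)
  have h2 : #((Up I c z).erase C.ρ) + 1 = #(Up I c z) := card_erase_add_one C.ρU
  have h3 : ∑ a ∈ I.erase z, (1 + if 2 ≤ C.t a then 1 else 0) ≤
      ∑ a ∈ I.erase z, ((if C.t a = 0 then 1 else 0) + C.t a) :=
    sum_le_sum fun a _ => by split_ifs <;> omega
  rw [sum_add_distrib, sum_add_distrib, ← card_filter, ← card_filter, sum_const, smul_eq_mul,
    mul_one] at h3
  unfold X J
  omega

lemma card_Wt : #C.Wt + #C.X = #(I.erase z) := by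
  unfold Wt X
  rw [add_comm]
  exact card_filter_add_card_filter_not _

lemma J_sub : C.J ⊆ C.Wt := fun a ha => by
  unfold J at ha
  rw [mem_filter] at ha
  exact mem_filter.2 ⟨ha.1, by omega⟩

lemma Wt_sub : C.Wt ⊆ I.erase z := filter_subset _ _

lemma rep_ne {a : ι} (ha : a ∈ C.J) {β : ι → ℤ} (hβ : β ∈ (Up I c z).erase C.ρ) :
    C.rep β ≠ a := by
  intro h
  have h1 : C.t a = 0 := (mem_filter.1 ha).2
  unfold t at h1
  rw [card_eq_zero] at h1
  have : β ∈ ((Up I c z).erase C.ρ).filter (fun β => C.rep β = a) := mem_filter.2 ⟨hβ, h⟩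
  rw [h1] at this
  exact notMem_empty _ this

lemma rep_inj {β β' : ι → ℤ} (hβ : β ∈ (Up I c z).erase C.ρ) (hβ' : β' ∈ (Up I c z).erase C.ρ)
    (hW : C.rep β ∈ C.Wt) (h : C.rep β' = C.rep β) : β' = β := by
  have h1 : ¬ 2 ≤ C.t (C.rep β) := (mem_filter.1 hW).2
  have h2 : C.t (C.rep β) ≤ 1 := by omega
  unfold t at h2
  exact card_le_one.1 h2 _ (mem_filter.2 ⟨hβ', h⟩) _ (mem_filter.2 ⟨hβ, rfl⟩)

lemma EvU {β : ι → ℤ} (hβ : β ∈ Ev I c z) : β ∈ (Up I c z).erase C.ρ :=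
  mem_erase.2 ⟨fun h => (mem_Ev.1 hβ).2 (by rw [h]; exact (mem_Od.1 C.ρ_od).2), (mem_Ev.1 hβ).1⟩

lemma pt_K (μ : ι → ℤ) {l : ι} (hl : l ≠ z) : C.pt μ l = C.ρ l + μ l := by
  simp [pt, e_ne hl]

/-- admissible exponent vectors -/
structure Adm (μ : ι → ℤ) : Prop where
  nn : ∀ l, 0 ≤ μ l
  sup : ∀ l, μ l ≠ 0 → l ∈ C.Wt
  sum : ∑ l ∈ I.erase z, μ l = C.h

variable {C}

lemma Adm.z0 {μ : ι → ℤ} (h : C.Adm μ) : μ z = 0 := by
  by_contra hn
  exact (ne_of_mem_erase (C.Wt_sub (h.sup z hn))) rfl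

lemma Adm.pt_z {μ : ι → ℤ} (h : C.Adm μ) : C.pt μ z = mn c z := by
  simp [pt, h.z0, Ctx.h]

lemma Adm.same {μ : ι → ℤ} (h : C.Adm μ) : Same I (C.pt μ) C.ρ := by
  refine ⟨?_, fun l hl => ?_⟩
  · rw [← add_sum_erase I _ C.hz, ← add_sum_erase I _ C.hz, h.pt_z,
      sum_congr rfl fun l hl => C.pt_K μ (ne_of_mem_erase hl), sum_add_distrib, h.sum]
    unfold Ctx.h
    ring
  · rw [C.pt_K μ (fun h => hl (by rw [h]; exact C.hz))]
    have : μ l = 0 := by
      by_contra hn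
      exact hl (mem_of_mem_erase (C.Wt_sub (h.sup l hn)))
    rw [this, add_zero]

lemma Adm.ident {μ : ι → ℤ} (h : C.Adm μ) :
    bb I c (C.pt μ) + ∑ β ∈ Ev I c z, bb I c β * W (I.erase z) (C.pt μ - β) =
      ∑ β ∈ Od I c z, bb I c β * W (I.erase z) (C.pt μ - β) :=
  identity C.hG C.hz C.ρB h.same h.pt_z

lemma Adm.Wρ {μ : ι → ℤ} (_ : C.Adm μ) : W (I.erase z) (C.pt μ - C.ρ) = W (I.erase z) μ :=
  W_congr fun a ha => by rw [Pi.sub_apply, C.pt_K μ (ne_of_mem_erase ha)]; ring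

lemma Adm.cov {μ β : ι → ℤ} (_ : C.Adm μ) (hW : W (I.erase z) (C.pt μ - β) ≠ 0) :
    ∀ l ∈ I.erase z, β l ≤ C.ρ l + μ l := fun l hl => by
  have := W_ne_zero hW l hl
  rw [Pi.sub_apply, C.pt_K μ (ne_of_mem_erase hl)] at this
  omega

lemma Adm.rep_pos {μ β : ι → ℤ} (hβ : β ∈ (Up I c z).erase C.ρ)
    (hc : ∀ l ∈ I.erase z, β l ≤ C.ρ l + μ l) : 1 ≤ μ (C.rep β) := by
  have h1 := C.R0 β hβ
  have h2 := hc _ h1.1
  omega

lemma Adm.desc {μ β : ι → ℤ} (h : C.Adm μ) (hβ : β ∈ Ev I c z)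
    (hc : ∀ l ∈ I.erase z, β l ≤ C.ρ l + μ l) : ∀ l ∈ I.erase z, C.ρ l ≤ β l := by
  by_contra hn
  obtain ⟨β', h1, h2, h3⟩ := C.R3 β hβ hn
  have h4 := Adm.rep_pos (C.EvU hβ) hc
  exact h2 (C.rep_inj (C.EvU hβ) h1 (h.sup _ (by omega)) h3)

variable (C)

def Lin (β : ι → ℤ) (d : ι) : Prop := ∀ l ∈ I.erase z, β l = C.ρ l + e d l

lemma lin_rep {β : ι → ℤ} {d : ι} (hβ : β ∈ (Up I c z).erase C.ρ) (hl : C.Lin β d) :
    C.rep β = d := by
  have h1 := C.R0 β hβ
  have h2 := hl _ h1.1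
  by_contra hn
  rw [e_ne hn] at h2
  omega

lemma adm_pure {d : ι} (hd : d ∈ C.Wt) : C.Adm (C.h • e d) := by
  have h3 := C.h_ge
  refine ⟨fun l => mul_nonneg (by omega) (e_nonneg d l), fun l hl => ?_, ?_⟩
  · by_contra hn
    apply hl
    have : l ≠ d := fun h => hn (by rw [h]; exact hd)
    simp [e_ne this]
  · simp only [Pi.smul_apply, smul_eq_mul, ← mul_sum, sum_e (C.Wt_sub hd), mul_one]

lemma lin_le {β : ι → ℤ} {d : ι} (hβ : β ∈ Ev I c z) (hd : d ∈ C.Wt) (hl : C.Lin β d) :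
    bb I c β ≤ bb I c C.ρ := by
  have ha := C.adm_pure hd
  have h3 := C.h_ge
  have hdK := C.Wt_sub hd
  have hid := ha.ident
  have h1 : ∑ β' ∈ Od I c z, bb I c β' * W (I.erase z) (C.pt (C.h • e d) - β') = bb I c C.ρ := by
    rw [sum_eq_single C.ρ]
    · rw [ha.Wρ, W_pure hdK (ha.nn d) (fun l _ hld => by simp [e_ne hld]), mul_one]
    · intro β' hβ' hne
      by_contra hn
      have h2 := ha.cov (right_ne_zero_of_mul hn)
      have h4 : β' ∈ (Up I c z).erase C.ρ := mem_erase.2 ⟨hne, (mem_Od.1 hβ').1⟩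
      have h5 := Adm.rep_pos h4 h2
      have h6 : C.rep β' = d := by
        by_contra h7
        simp [e_ne h7] at h5
      have h7 := C.lin_rep (C.EvU hβ) hl
      have h8 := C.rep_inj (C.EvU hβ) h4 (by rw [h7]; exact hd) (by rw [h6, h7])
      rw [h8] at hβ'
      exact (mem_Ev.1 hβ).2 (mem_Od.1 hβ').2
    · intro h; exact absurd C.ρ_od h
  have h2 : bb I c β * W (I.erase z) (C.pt (C.h • e d) - β) ≤
      ∑ β' ∈ Ev I c z, bb I c β' * W (I.erase z) (C.pt (C.h • e d) - β') :=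
    single_le_sum (f := fun β' => bb I c β' * W (I.erase z) (C.pt (C.h • e d) - β'))
      (fun β' _ => mul_nonneg (C.hG.pos _) (W_nonneg _ _)) hβ
  rw [W_pure hdK, mul_one] at h2
  · have := C.hG.pos (C.pt (C.h • e d))
    linarith
  · rw [Pi.sub_apply, C.pt_K _ (ne_of_mem_erase hdK), hl d hdK]
    simp only [Pi.smul_apply, smul_eq_mul, e_self]
    omega
  · intro l hl' hld
    rw [Pi.sub_apply, C.pt_K _ (ne_of_mem_erase hl'), hl l hl']
    simp [e_ne hld]

lemma positive {μ : ι → ℤ} (ha : C.Adm μ) {a : ι} (hμa : 1 ≤ μ a)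
    (hlin : ∀ β ∈ Ev I c z, (∀ l ∈ I.erase z, β l ≤ C.ρ l + μ l) → ∃ d, d ≠ a ∧ C.Lin β d) :
    C.pt μ ∈ (bb I c).support := by
  classical
  have haK : a ∈ I.erase z := C.Wt_sub (ha.sup a (by omega))
  have h3 := C.h_ge
  have hρ := C.hG.mem.1 C.ρB
  have hid := ha.ident
  have h1 : bb I c C.ρ * W (I.erase z) μ ≤
      ∑ β' ∈ Od I c z, bb I c β' * W (I.erase z) (C.pt μ - β') := by
    rw [← ha.Wρ]
    exact single_le_sum (f := fun β' => bb I c β' * W (I.erase z) (C.pt μ - β'))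
      (fun β' _ => mul_nonneg (C.hG.pos _) (W_nonneg _ _)) C.ρ_od
  set E' := (Ev I c z).filter (fun β => W (I.erase z) (C.pt μ - β) ≠ 0) with hE'
  have hE : ∀ β ∈ E', β ∈ Ev I c z ∧ C.rep β ≠ a ∧ C.Lin β (C.rep β) ∧ C.rep β ∈ C.Wt := by
    intro β hβ
    obtain ⟨h4, h5⟩ := mem_filter.1 hβ
    obtain ⟨d, hd, hl⟩ := hlin β h4 (ha.cov h5)
    have h6 := C.lin_rep (C.EvU h4) hl
    have h7 := Adm.rep_pos (C.EvU h4) (ha.cov h5)
    exact ⟨h4, by rw [h6]; exact hd, by rw [h6]; exact hl, ha.sup _ (by omega)⟩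
  have h2 : ∑ β ∈ Ev I c z, bb I c β * W (I.erase z) (C.pt μ - β) =
      ∑ β ∈ E', bb I c β * W (I.erase z) (C.pt μ - β) := by
    rw [hE', sum_filter]
    refine sum_congr rfl fun β _ => ?_
    split_ifs with h
    · rfl
    · rw [not_not.1 h, mul_zero]
  have h4 : ∑ β ∈ E', bb I c β * W (I.erase z) (C.pt μ - β) ≤
      ∑ β ∈ E', bb I c C.ρ * W (I.erase z) (μ - e (C.rep β)) := by
    refine sum_le_sum fun β hβ => ?_
    obtain ⟨h5, -, h6, h7⟩ := hE β hβ
    have h8 : W (I.erase z) (C.pt μ - β) = W (I.erase z) (μ - e (C.rep β)) :=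
      W_congr fun l hl => by
        rw [Pi.sub_apply, Pi.sub_apply, C.pt_K μ (ne_of_mem_erase hl), h6 l hl]; ring
    rw [h8]
    exact mul_le_mul_of_nonneg_right (C.lin_le h5 h7 h6) (W_nonneg _ _)
  have h5 : ∑ β ∈ E', bb I c C.ρ * W (I.erase z) (μ - e (C.rep β)) =
      ∑ d ∈ E'.image C.rep, bb I c C.ρ * W (I.erase z) (μ - e d) := by
    rw [sum_image]
    intro β hβ β' hβ' h
    exact (C.rep_inj (C.EvU (hE β hβ).1) (C.EvU (hE β' hβ').1) (hE β hβ).2.2.2 h.symm).symm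
  have h6 : ∑ d ∈ E'.image C.rep, bb I c C.ρ * W (I.erase z) (μ - e d) ≤
      ∑ d ∈ (I.erase z).erase a, bb I c C.ρ * W (I.erase z) (μ - e d) := by
    refine sum_le_sum_of_subset_of_nonneg (fun d hd => ?_)
      (fun d _ _ => mul_nonneg hρ.le (W_nonneg _ _))
    obtain ⟨β, hβ, rfl⟩ := mem_image.1 hd
    exact mem_erase.2 ⟨(hE β hβ).2.1, C.Wt_sub (hE β hβ).2.2.2⟩
  have h7 := W_pascal (K := I.erase z) (μ := μ) (by rw [ha.sum]; omega)
  rw [← add_sum_erase _ _ haK] at h7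
  have h8 : 0 < W (I.erase z) (μ - e a) := W_pos fun l _ => by
    rw [Pi.sub_apply, e_apply]
    have := ha.nn l
    split_ifs with h
    · rw [h]; omega
    · omega
  rw [← mul_sum ((I.erase z).erase a)] at h6
  have h9 := mul_pos hρ h8
  rw [C.hG.mem]
  have h10 : bb I c C.ρ * W (I.erase z) μ = bb I c C.ρ * W (I.erase z) (μ - e a) +
      bb I c C.ρ * ∑ d ∈ (I.erase z).erase a, W (I.erase z) (μ - e d) := by
    rw [← h7]; ring
  linarith

lemma family {a u v : ι} (ha : a ∈ C.J) (hu : u ∈ C.Wt) (hv : v ∈ C.Wt) :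
    ∃ β ∈ (bb I c).support,
      (β z = mn c z ∧ ∀ l ∈ I.erase z, β l = C.ρ l + (C.h - 2) * e a l + (e u l + e v l)) ∨
      (mn c z < β z ∧ ∀ l ∈ I.erase z, β l = C.ρ l + 1 * e a l + (e u l + e v l)) := by
  have h3 := C.h_ge
  have haW := C.J_sub ha
  have haK := C.Wt_sub haW
  set μ : ι → ℤ := (C.h - 2) • e a + (e u + e v) with hμ
  have hμl : ∀ l, μ l = (C.h - 2) * e a l + (e u l + e v l) := fun l => by simp [hμ]
  have hadm : C.Adm μ := by
    refine ⟨fun l => ?_, fun l hl => ?_, ?_⟩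
    · rw [hμl]
      have := mul_nonneg (show 0 ≤ C.h - 2 by omega) (e_nonneg a l)
      have := e_nonneg u l
      have := e_nonneg v l
      omega
    · by_contra hn
      apply hl
      rw [hμl, e_ne (fun h => hn (by rw [h]; exact haW)), e_ne (fun h => hn (by rw [h]; exact hu)),
        e_ne (fun h => hn (by rw [h]; exact hv))]
      ring
    · simp only [hμl, sum_add_distrib, ← mul_sum, sum_e haK, sum_e (C.Wt_sub hu),
        sum_e (C.Wt_sub hv)]
      ring
  by_cases hlin : ∀ β ∈ Ev I c z, (∀ l ∈ I.erase z, β l ≤ C.ρ l + μ l) → ∃ d, d ≠ a ∧ C.Lin β d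
  · refine ⟨C.pt μ, C.positive hadm ?_ hlin, Or.inl ⟨hadm.pt_z, fun l hl => ?_⟩⟩
    · rw [hμl, e_self]
      have := e_nonneg u a
      have := e_nonneg v a
      omega
    · rw [C.pt_K μ (ne_of_mem_erase hl), hμl]; ring
  · push Not at hlin
    obtain ⟨β, hβ, hc, hnl⟩ := hlin
    have hU := C.EvU hβ
    have hB := (mem_Up.1 (mem_erase.1 hU).2)
    refine ⟨β, hB.1, Or.inr ⟨hB.2, ?_⟩⟩
    have hd := hadm.desc hβ hc
    have hr := C.R0 β hU
    have hra := C.rep_ne ha hU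
    have hmax := C.R2 β hβ hd
    have hs := same_sum C.hz (C.hG.same hB.1 C.ρB)
    have hodd : Odd (C.ρ z - β z) := by
      have o1 := (mem_Od.1 C.ρ_od).2
      have o2 := Int.not_odd_iff_even.1 (mem_Ev.1 hβ).2
      have := o1.sub_even o2
      rwa [show C.ρ z - mn c z - (β z - mn c z) = C.ρ z - β z by ring] at this
    have hne1 : C.ρ z - β z ≠ 1 := by
      intro h1
      refine hnl (C.rep β) hra fun l hl => ?_
      have h4 : ∀ l ∈ I.erase z, e (C.rep β) l ≤ β l - C.ρ l := fun l hl => by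
        rw [e_apply]
        have := hd l hl
        split_ifs with h
        · rw [h]; omega
        · omega
      have h5 := (sum_eq_sum_iff_of_le h4).1 (by rw [sum_e hr.1, hs, h1]) l hl
      omega
    have hle : ∀ l ∈ (I.erase z).erase a, β l - C.ρ l ≤ e u l + e v l := fun l hl => by
      have := hc l (mem_of_mem_erase hl)
      rw [hμl, e_ne (ne_of_mem_erase hl)] at this
      omega
    have hsum2 : e u a + e v a + ∑ l ∈ (I.erase z).erase a, (e u l + e v l) = 2 := by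
      rw [add_sum_erase _ (fun l => e u l + e v l) haK, sum_add_distrib, sum_e (C.Wt_sub hu),
        sum_e (C.Wt_sub hv)]
      rfl
    have hsle := sum_le_sum hle
    rw [← add_sum_erase _ _ haK] at hs
    have hrK : C.rep β ∈ (I.erase z).erase a := mem_erase.2 ⟨hra, hr.1⟩
    have hsingle : β (C.rep β) - C.ρ (C.rep β) ≤ ∑ l ∈ (I.erase z).erase a, (β l - C.ρ l) :=
      single_le_sum (f := fun l => β l - C.ρ l)
        (fun l hl => by have := hd l (mem_of_mem_erase hl); omega) hrK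
    have hma := hmax a haK
    have hda := hd a haK
    have eu := e_nonneg u a
    have ev := e_nonneg v a
    obtain ⟨k, hk⟩ := hodd
    have hβa : β a - C.ρ a = 1 := by omega
    have heq : ∑ l ∈ (I.erase z).erase a, (β l - C.ρ l) =
        ∑ l ∈ (I.erase z).erase a, (e u l + e v l) := by omega
    intro l hl
    by_cases hla : l = a
    · rw [hla, e_self]; omega
    · have := (sum_eq_sum_iff_of_le hle).1 heq l (mem_erase.2 ⟨hla, hl⟩)
      rw [e_ne hla]
      omega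

lemma S2 {a : ι} (ha : a ∈ C.J) : (#C.Wt + 1).choose 2 ≤
    #((bb I c).support.filter (fun β => C.ρ a < β a ∧ ∀ l ∈ I.erase z, C.ρ l ≤ β l)) := by
  have h3 := C.h_ge
  have haK := C.Wt_sub (C.J_sub ha)
  rw [← card_sym2]
  refine card_le_of_rel _ _ (fun y β => ∃ u ∈ C.Wt, ∃ v ∈ C.Wt, y = s(u, v) ∧
    ((β z = mn c z ∧ ∀ l ∈ I.erase z, β l = C.ρ l + (C.h - 2) * e a l + (e u l + e v l)) ∨
      (mn c z < β z ∧ ∀ l ∈ I.erase z, β l = C.ρ l + 1 * e a l + (e u l + e v l)))) ?_ ?_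
  · intro y hy
    induction y using Sym2.ind with
    | h u v =>
      rw [mk_mem_sym2_iff] at hy
      obtain ⟨β, hβ, h⟩ := C.family ha hy.1 hy.2
      refine ⟨β, mem_filter.2 ⟨hβ, ?_, fun l hl => ?_⟩, u, hy.1, v, hy.2, rfl, h⟩
      · have eu := e_nonneg u a
        have ev := e_nonneg v a
        rcases h with h | h
        · have := h.2 a haK
          rw [e_self] at this
          omega
        · have := h.2 a haK
          rw [e_self] at this
          omega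
      · have eu := e_nonneg u l
        have ev := e_nonneg v l
        have ea := e_nonneg a l
        have := mul_nonneg (show 0 ≤ C.h - 2 by omega) ea
        rcases h with h | h
        · have := h.2 l hl
          omega
        · have := h.2 l hl
          omega
  · rintro y - y' - β ⟨u, hu, v, hv, rfl, h1⟩ ⟨u', -, v', -, rfl, h2⟩
    refine sym_eq (C.Wt_sub hu) (C.Wt_sub hv) fun l hl => ?_
    rcases h1 with h1 | h1 <;> rcases h2 with h2 | h2
    · have := h1.2 l hl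
      have := h2.2 l hl
      omega
    · omega
    · omega
    · have := h1.2 l hl
      have := h2.2 l hl
      omega

lemma S1 {a : ι} (ha : a ∈ C.J) :
    #C.Wt ≤ #((bb I c).support.filter (fun β => ¬ C.ρ a < β a)) := by
  have h3 := C.h_ge
  have haK := C.Wt_sub (C.J_sub ha)
  refine card_le_of_rel _ _ (fun d β => (d = a ∧ β = C.ρ) ∨ (β = C.pt (C.h • e d) ∧ d ≠ a) ∨
    (β ∈ (Up I c z).erase C.ρ ∧ C.rep β = d)) ?_ ?_
  · intro d hd
    by_cases hda : d = a
    · exact ⟨C.ρ, mem_filter.2 ⟨C.ρB, lt_irrefl _⟩, Or.inl ⟨hda, rfl⟩⟩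
    by_cases h : ∃ β ∈ (Up I c z).erase C.ρ, C.rep β = d ∧ ¬ C.ρ a < β a
    · obtain ⟨β, h1, h2, h4⟩ := h
      exact ⟨β, mem_filter.2 ⟨(mem_Up.1 (mem_erase.1 h1).2).1, h4⟩, Or.inr (Or.inr ⟨h1, h2⟩)⟩
    · refine ⟨C.pt (C.h • e d), mem_filter.2 ⟨C.positive (a := d) (C.adm_pure hd) ?_ ?_, ?_⟩,
        Or.inr (Or.inl ⟨rfl, hda⟩)⟩
      · simp only [Pi.smul_apply, smul_eq_mul, e_self]; omega
      · intro β hβ hc
        exfalso
        refine h ⟨β, C.EvU hβ, ?_, ?_⟩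
        · have h5 := Adm.rep_pos (C.EvU hβ) hc
          by_contra h7
          simp [e_ne h7] at h5
        · have := hc a haK
          simp only [Pi.smul_apply, smul_eq_mul, e_ne (Ne.symm hda)] at this
          omega
      · rw [C.pt_K _ (ne_of_mem_erase haK)]
        simp [e_ne (Ne.symm hda)]
  · intro d hd d' hd' β h1 h2
    have hz1 := (C.adm_pure hd).pt_z
    have hz2 := (C.adm_pure hd').pt_z
    have hρz := (mem_Up.1 C.ρU).2
    rcases h1 with h1 | h1 | h1 <;> rcases h2 with h2 | h2 | h2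
    · rw [h1.1, h2.1]
    · rw [← h2.1, h1.2] at hz2; omega
    · exact absurd h1.2 (mem_erase.1 h2.1).1
    · rw [← h1.1, h2.2] at hz1; omega
    · by_contra hne
      have h4 := congrFun (h1.1.symm.trans h2.1) d
      have hdz := ne_of_mem_erase (C.Wt_sub hd)
      rw [C.pt_K _ hdz, C.pt_K _ hdz] at h4
      simp only [Pi.smul_apply, smul_eq_mul, e_self, e_ne hne] at h4
      omega
    · have := (mem_Up.1 (mem_erase.1 h2.1).2).2
      rw [← h1.1] at hz1; omega
    · exact absurd h2.2 (mem_erase.1 h1.1).1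
    · have := (mem_Up.1 (mem_erase.1 h1.1).2).2
      rw [← h2.1] at hz2; omega
    · rw [← h1.2, ← h2.2]

lemma S3 {a v : ι} (ha : a ∈ C.J) (hv : v ∈ I.erase z) (hav : v ≠ a) (hm : mn c v = C.ρ v) :
    inA c v := by
  have h3 := C.h3
  have haK := C.Wt_sub (C.J_sub ha)
  have haz := ne_of_mem_erase haK
  have h1 : bb I c (C.ρ + e a - e z) = 0 := by
    by_contra hn
    have hU : C.ρ + e a - e z ∈ (Up I c z).erase C.ρ := by
      refine mem_erase.2 ⟨fun h => ?_, mem_Up.2 ⟨Finsupp.mem_support_iff.2 hn, ?_⟩⟩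
      · have := congrFun h z
        simp only [Pi.sub_apply, Pi.add_apply, e_self, e_ne haz.symm] at this
        omega
      · simp only [Pi.sub_apply, Pi.add_apply, e_self, e_ne haz.symm]
        omega
    refine C.rep_ne ha hU (C.lin_rep hU fun l hl => ?_)
    simp only [Pi.sub_apply, Pi.add_apply, e_ne (ne_of_mem_erase hl)]
    ring
  rw [bb_apply, ← add_sum_erase _ _ C.hz] at h1
  have h2 : 0 < ∑ l ∈ I.erase z, c (C.ρ + e a - e z - e l) := by
    refine sum_pos' (fun l hl => C.ctop _ ?_) ⟨a, haK, ?_⟩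
    · simp only [Pi.sub_apply, Pi.add_apply, e_self, e_ne haz.symm,
        e_ne (ne_of_mem_erase hl).symm]
      omega
    · rw [show C.ρ + e a - e z - e a = C.ρ - e z by abel]
      exact C.ctop'
  refine ⟨C.ρ + e a - e z - e z, by linarith, ?_⟩
  simp only [Pi.sub_apply, Pi.add_apply, e_ne hav, e_ne (ne_of_mem_erase hv)]
  omega

lemma S4 {a a' : ι} (ha : a ∈ C.J) (ha' : a' ∈ C.J) (hne : a ≠ a') :
    4 ≤ #((bb I c).support.filter (fun β => β z = mn c z ∧ ∀ l ∈ I.erase z, C.ρ l ≤ β l)) := by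
  have h3 := C.h_ge
  have haK := C.Wt_sub (C.J_sub ha)
  have haK' := C.Wt_sub (C.J_sub ha')
  rw [← card_range 4]
  refine card_le_of_rel _ _ (fun (k : ℕ) β => β a = C.ρ a + k) ?_ ?_
  · intro k hk
    have hk' := mem_range.1 hk
    set μ : ι → ℤ := (k : ℤ) • e a + (C.h - k) • e a' with hμ
    have hμl : ∀ l, μ l = k * e a l + (C.h - k) * e a' l := fun l => by simp [hμ]
    have hnn : ∀ l, 0 ≤ μ l := fun l => by
      rw [hμl]
      exact add_nonneg (mul_nonneg (by omega) (e_nonneg _ _)) (mul_nonneg (by omega) (e_nonneg _ _))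
    have hsup : ∀ l, μ l ≠ 0 → l ∈ C.J := fun l hl => by
      by_contra hn
      apply hl
      rw [hμl, e_ne (fun h => hn (by rw [h]; exact ha)), e_ne (fun h => hn (by rw [h]; exact ha'))]
      ring
    have hadm : C.Adm μ := by
      refine ⟨hnn, fun l hl => C.J_sub (hsup l hl), ?_⟩
      simp only [hμl, sum_add_distrib, ← mul_sum, sum_e haK, sum_e haK']
      ring
    have hno : ∀ x, ∀ β ∈ Ev I c z, (∀ l ∈ I.erase z, β l ≤ C.ρ l + μ l) →
        ∃ d, d ≠ x ∧ C.Lin β d := by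
      intro x β hβ hc
      exfalso
      have h5 := Adm.rep_pos (C.EvU hβ) hc
      exact C.rep_ne (hsup _ (by omega)) (C.EvU hβ) rfl
    refine ⟨C.pt μ, mem_filter.2 ⟨?_, hadm.pt_z, fun l hl => ?_⟩, ?_⟩
    · by_cases hk0 : k = 0
      · refine C.positive (a := a') hadm ?_ (hno a')
        rw [hμl, e_self, e_ne hne.symm]; omega
      · refine C.positive (a := a) hadm ?_ (hno a)
        rw [hμl, e_self, e_ne hne]; omega
    · rw [C.pt_K μ (ne_of_mem_erase hl)]
      have := hnn l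
      omega
    · rw [C.pt_K μ (ne_of_mem_erase haK), hμl, e_self, e_ne hne]; ring
  · intro k _ k' _ β h1 h2
    omega

end Ctx

end Pool.Agent.H545Z.SOS
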