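import Pool.Agent.H545Z.SOS4

set_option linter.unusedSectionVars false

open Finset

namespace Pool.Agent.H545Z.SOS

variable {ι : Type} [Fintype ι] [DecidableEq ι]

lemma two_choose (n : ℕ) : 2 * (n + 1).choose 2 = (n + 1) * n := by
  induction n with
  | zero => simp
  | succ n ih => rw [Nat.choose_succ_succ' (n + 1) 1, Nat.choose_one_right]; nlinarith

lemma choose_add_le (w x : ℕ) : (w + x + 1).choose 2 ≤ (w + 1).choose 2 + x * (w + x) := by
  have h1 := two_choose w
  have h2 := two_choose (w + x)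
  have h3 := Nat.le_mul_self x
  nlinarith

lemma L_x0 {I : Finset ι} {c : (ι → ℤ) →₀ ℝ} {z : ι} (C : Ctx I c z)
    (hT : #(Up I c z) ≤ #(I.erase z)) (hX : #C.X = 0) :
    (#(I.erase z) + 1).choose 2 + #(I.erase z) ≤ NN I c := by
  have h1 := C.count
  have h2 := C.card_Wt
  obtain ⟨a, ha⟩ : C.J.Nonempty := card_pos.1 (by omega)
  have h3 := C.S2 ha
  have h4 := C.S1 ha
  have h5 := card_filter_add_card_filter_not (s := (bb I c).support) (fun β => C.ρ a < β a)
  have h6 : #((bb I c).support.filter (fun β => C.ρ a < β a ∧ ∀ l ∈ I.erase z, C.ρ l ≤ β l)) ≤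
      #((bb I c).support.filter (fun β => C.ρ a < β a)) :=
    card_le_card (fun β hβ => mem_filter.2 ⟨(mem_filter.1 hβ).1, (mem_filter.1 hβ).2.1⟩)
  have h7 : #C.Wt = #(I.erase z) := by omega
  rw [h7] at h3 h4
  unfold NN
  omega

lemma caseB {I : Finset ι} {c : (ι → ℤ) →₀ ℝ} (hG : Good I c) (hf : NoFull I c)
    (h : ∀ z ∈ I, ¬ inA c z) : #I * (#I - 1) ≤ NN I c := by
  obtain ⟨F, h1, h2, -⟩ := lemC hG.ne hf (Subset.refl I) h
  exact h2.trans (card_le_card h1)

lemma min_red {I : Finset ι} (hI : I.Nonempty) (g : ℕ)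
    (h : ∀ c, Good I c → NoFull I c → g ≤ NN I c) : ∀ c, Good I c → g ≤ NN I c := by
  intro c
  induction hn : NN I c using Nat.strong_induction_on generalizing c with
  | _ n ih =>
    intro hG
    by_cases hf : NoFull I c
    · rw [← hn]; exact h c hG hf
    · obtain ⟨c', h1, h2⟩ := reduce hI hG hf
      have := ih (NN I c') (by omega) c' rfl h1
      omega

lemma X_zero {I : Finset ι} {c : (ι → ℤ) →₀ ℝ} {z : ι} (C : Ctx I c z) :
    1 + 2 * #C.X ≤ #(Up I c z) := by
  have h1 := C.count
  have h2 := C.card_Wt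
  have h3 := card_le_card C.J_sub
  omega

lemma lb3 {I : Finset ι} (hI : #I = 3) : ∀ c, Good I c → 5 ≤ NN I c := by
  refine min_red (card_pos.1 (by omega)) 5 fun c hG hf => ?_
  by_cases h : ∃ z ∈ I, inA c z
  · obtain ⟨z, hz, hA⟩ := h
    have h1 := NN_eq c hz
    have h2 := huang (I.erase z) _ (hG.slice hz hA).ne
    have h3 := card_erase_of_mem hz
    by_cases hT : 3 ≤ #(Up I c z)
    · omega
    · obtain ⟨C⟩ := exists_ctx hG hz (by omega)
      have h4 := X_zero C
      have h5 := L_x0 C (by omega) (by omega)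
      rw [h3, hI] at h5
      simpa using h5
  · push Not at h
    have := caseB hG hf h
    rw [hI] at this
    omega

lemma lb4 {I : Finset ι} (hI : #I = 4) : ∀ c, Good I c → 8 ≤ NN I c := by
  refine min_red (card_pos.1 (by omega)) 8 fun c hG hf => ?_
  by_cases h : ∃ z ∈ I, inA c z
  · obtain ⟨z, hz, hA⟩ := h
    have h1 := NN_eq c hz
    have h3 := card_erase_of_mem hz
    have h2 := lb3 (I := I.erase z) (by omega) _ (hG.slice hz hA)
    by_cases hT : 3 ≤ #(Up I c z)
    · omega
    · obtain ⟨C⟩ := exists_ctx hG hz (by omega)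
      have h4 := X_zero C
      have h5 := L_x0 C (by omega) (by omega)
      rw [h3, hI] at h5
      have h6 : (4 - 1 + 1).choose 2 = 6 := by decide
      omega
  · push Not at h
    have := caseB hG hf h
    rw [hI] at this
    omega

lemma smallT {I : Finset ι} {c : (ι → ℤ) →₀ ℝ} (hG : Good I c) (hf : NoFull I c) {z : ι}
    (hz : z ∈ I) (hT : #(Up I c z) ≤ #(I.erase z)) (h4 : 4 ≤ #(I.erase z)) (g : ℕ)
    (hg : ∀ v ∈ I, inA c v → g ≤ NN (I.erase v) (slice c v))
    (hgw : ∀ w, 3 ≤ w → #(I.erase z) + 1 ≤ 2 * w →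
      (#(I.erase z) + 1).choose 2 + #(I.erase z) ≤ g + 2 * w) :
    (#(I.erase z) + 1).choose 2 + #(I.erase z) ≤ NN I c := by
  obtain ⟨C⟩ := exists_ctx hG hz hT
  by_cases hX : #C.X = 0
  · exact L_x0 C hT hX
  have h1 := C.count
  have h2 := C.card_Wt
  have h3 := card_le_card C.J_sub
  have hJK : C.J ⊆ I.erase z := C.J_sub.trans C.Wt_sub
  have hw := two_choose #C.Wt
  by_cases hA : ∃ v ∈ C.J, inA c v
  · obtain ⟨v, hv, hA⟩ := hA
    have hvI := mem_of_mem_erase (hJK hv)
    have h5 := NN_eq c hvI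
    have h6 := hg v hvI hA
    have h7 := C.S2 hv
    have h8 : #((bb I c).support.filter (fun β => C.ρ v < β v ∧ ∀ l ∈ I.erase z, C.ρ l ≤ β l)) ≤
        #(Up I c v) := card_le_card fun β hβ =>
      mem_Up.2 ⟨(mem_filter.1 hβ).1, (mn_le_bb C.ρB v).trans_lt (mem_filter.1 hβ).2.1⟩
    have h9 := hgw #C.Wt (by omega) (by omega)
    have h10 : 2 * #C.Wt ≤ (#C.Wt + 1).choose 2 := by
      have : 3 ≤ #C.Wt := by omega
      nlinarith
    omega
  · push Not at hA
    obtain ⟨F, hF, hF1, hF2⟩ := lemC hG.ne hf (hJK.trans (erase_subset z I)) hA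
    obtain ⟨a, ha⟩ : C.J.Nonempty := card_pos.1 (by omega)
    have h7 := C.S2 ha
    have hlt : ∀ d ∈ C.J, mn c d < C.ρ d := by
      intro d hd
      obtain ⟨a', ha', hne⟩ := exists_mem_ne (s := C.J) (by omega) d
      exact lt_of_le_of_ne (mn_le_bb C.ρB d) fun h => hA d hd (C.S3 ha' (hJK hd) hne.symm h)
    set G := (bb I c).support.filter (fun β => C.ρ a < β a ∧ ∀ l ∈ I.erase z, C.ρ l ≤ β l)
    have hdis : Disjoint F G := by
      rw [disjoint_left]
      intro β h5 h6
      obtain ⟨d, hd, h8⟩ := hF2 β h5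
      have := (mem_filter.1 h6).2.2 d (hJK hd)
      have := hlt d hd
      omega
    have h9 : #F + #G ≤ NN I c := by
      rw [← card_union_of_disjoint hdis]
      exact card_le_card (union_subset hF (filter_subset _ _))
    rw [← card_erase_of_mem hz] at hF1
    have h11 : (#C.X + 1) * #(I.erase z) ≤ #C.J * #(I.erase z) :=
      Nat.mul_le_mul_right _ (by omega)
    rw [← h2] at h11 hF1 ⊢
    have h12 := choose_add_le #C.Wt #C.X
    rw [add_mul, one_mul] at h11
    omega

lemma eq4 {I : Finset ι} (hI : #I = 4) {c : (ι → ℤ) →₀ ℝ} (hG : Good I c) (hN : NN I c = 8) :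
    ∀ j ∈ I, inA c j ∧ #(Up I c j) = 3 := by
  have hf : NoFull I c := by
    by_contra hn
    obtain ⟨c', h1, h2⟩ := reduce (card_pos.1 (by omega)) hG hn
    have := lb4 hI c' h1
    omega
  have key : ∀ j ∈ I, inA c j → #(Up I c j) = 3 ∧ ∀ v ∈ I.erase j, inA c v := by
    intro j hj hA
    have h1 := NN_eq c hj
    have h3 := card_erase_of_mem hj
    have h2 := lb3 (I := I.erase j) (by omega) _ (hG.slice hj hA)
    obtain ⟨C⟩ := exists_ctx hG hj (by omega)
    have h4 := X_zero C
    have hX : #C.X ≠ 0 := by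
      intro hX
      have h5 := L_x0 C (by omega) hX
      rw [h3, hI] at h5
      have h6 : (4 - 1 + 1).choose 2 = 6 := by decide
      omega
    have h5 := C.count
    refine ⟨by omega, fun v hv => ?_⟩
    by_contra hC
    have hvI := mem_of_mem_erase hv
    obtain ⟨a, ha, hav⟩ := exists_mem_ne (s := C.J) (by omega) v
    obtain ⟨a', ha', haa⟩ := exists_mem_ne (s := C.J) (by omega) a
    have hlt : mn c v < C.ρ v :=
      lt_of_le_of_ne (mn_le_bb C.ρB v) fun h => hC (C.S3 ha hv hav.symm h)
    obtain ⟨γ, hγ, hγv⟩ := exists_mn hG.ne v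
    have hval : ∀ l ∈ I.erase v, (γ + e l) v = mn c v := fun l hl => by
      rw [Pi.add_apply, e_ne (ne_of_mem_erase hl).symm, add_zero, hγv]
    have hinj : Function.Injective fun l => γ + e l := fun a b h => e_inj (add_left_cancel h)
    rcases (mn_le hγ j).eq_or_lt with h6 | h6
    · have h7 := C.S4 ha' ha haa
      set G := (bb I c).support.filter (fun β => β j = mn c j ∧ ∀ l ∈ I.erase j, C.ρ l ≤ β l)
      set F := ((I.erase v).erase j).image fun l => γ + e l
      have hFc : #F = 2 := by
        rw [card_image_of_injective _ hinj,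
          card_erase_of_mem (mem_erase.2 ⟨(ne_of_mem_erase hv).symm, hj⟩), card_erase_of_mem hvI, hI]
      have hdis : Disjoint F G := by
        rw [disjoint_left]
        intro β h8 h9
        obtain ⟨l, hl, rfl⟩ := mem_image.1 h8
        have := (mem_filter.1 h9).2.2 v hv
        have := hval l (mem_of_mem_erase hl)
        omega
      have h9 : #F + #G ≤ NN (I.erase j) (slice c j) := by
        rw [← card_union_of_disjoint hdis]
        unfold NN
        rw [support_bb_slice c hj]
        refine card_le_card (union_subset (fun β hβ => ?_) (fun β hβ => ?_))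
        · obtain ⟨l, hl, rfl⟩ := mem_image.1 hβ
          refine mem_filter.2 ⟨bottom_mem hvI hC hγ hγv (mem_of_mem_erase hl), ?_⟩
          rw [Pi.add_apply, e_ne (ne_of_mem_erase hl).symm, add_zero, h6]
        · exact mem_filter.2 ⟨(mem_filter.1 hβ).1, (mem_filter.1 hβ).2.1⟩
      omega
    · set F := (I.erase v).image fun l => γ + e l
      have hFc : #F = 3 := by
        rw [card_image_of_injective _ hinj, card_erase_of_mem hvI, hI]
      have h9 : F ⊆ (Up I c j).erase C.ρ := by
        intro β hβ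
        obtain ⟨l, hl, rfl⟩ := mem_image.1 hβ
        refine mem_erase.2 ⟨fun h => ?_, mem_Up.2 ⟨bottom_mem hvI hC hγ hγv hl, ?_⟩⟩
        · have := hval l hl
          rw [h] at this
          omega
        · have := e_nonneg l j
          rw [Pi.add_apply]
          omega
      have h10 := card_le_card h9
      have h11 := card_erase_add_one C.ρU
      omega
  have hex : ∃ z ∈ I, inA c z := by
    by_contra h
    push Not at h
    have := caseB hG hf h
    rw [hI] at this
    omega
  obtain ⟨z, hz, hA⟩ := hex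
  intro j hj
  have hjA : inA c j := by
    by_cases h : j = z
    · rw [h]; exact hA
    · exact (key z hz hA).2 j (mem_erase.2 ⟨h, hj⟩)
  exact ⟨hjA, (key j hj hjA).1⟩

end Pool.Agent.H545Z.SOS
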