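import Pool.Agent.H545Z.SOS5

set_option linter.unusedSectionVars false

open Finset

namespace Pool.Agent.H545Z.SOS

variable {ι : Type} [Fintype ι] [DecidableEq ι]

lemma fiber_sum {α : Type} (B : Finset α) (k : α → ℕ) (hk : ∀ β ∈ B, k β < 6) (f : ℕ → ℕ) :
    ∑ β ∈ B, f (k β) = ∑ y ∈ range 6, #(B.filter (fun β => k β = y)) * f y := by
  rw [← sum_fiberwise_of_maps_to (t := range 6) (g := k) (fun β hβ => mem_range.2 (hk β hβ))]
  refine sum_congr rfl fun y _ => ?_
  rw [sum_congr rfl (fun β hβ => by rw [(mem_filter.1 hβ).2]), sum_const, smul_eq_mul]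

lemma lb5 {I : Finset ι} (hI : #I = 5) : ∀ c, Good I c → 14 ≤ NN I c := by
  refine min_red (card_pos.1 (by omega)) 14 fun c hG hf => ?_
  by_contra hN
  have hce : ∀ i ∈ I, #(I.erase i) = 4 := fun i hi => by rw [card_erase_of_mem hi, hI]
  have hg : ∀ v ∈ I, inA c v → 8 ≤ NN (I.erase v) (slice c v) := fun v hv hA =>
    lb4 (hce v hv) _ (hG.slice hv hA)
  have hc6 : (4 + 1).choose 2 = 10 := by decide
  have f1 : ∀ i ∈ I, inA c i → #(Up I c i) = 5 ∧ NN (I.erase i) (slice c i) = 8 := by
    intro i hi hA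
    have h1 := NN_eq c hi
    have h2 := hg i hi hA
    by_cases hT : #(Up I c i) ≤ 4
    · have := smallT hG hf hi (by rw [hce i hi]; exact hT) (by rw [hce i hi]) 8 hg
        (fun w hw _ => by rw [hce i hi]; omega)
      rw [hce i hi] at this
      omega
    · omega
  have f2 : ∀ i ∈ I, inA c i → ∀ j ∈ I.erase i,
      inA (slice c i) j ∧ #(Up (I.erase i) (slice c i) j) = 3 := fun i hi hA =>
    eq4 (hce i hi) (hG.slice hi hA) (f1 i hi hA).2
  have f3 : ∀ i ∈ I, inA c i → ∀ j, mn c j ≤ mn (slice c i) j := fun i hi hA j => by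
    obtain ⟨γ, h1, h2⟩ := exists_mn (hG.slice hi hA).ne j
    rw [← h2]
    exact mn_le (mem_slice.1 h1).1 j
  have f4 : ∀ i ∈ I, inA c i → ∀ j ∈ I.erase i, mn c j = mn (slice c i) j → inA c j := by
    intro i hi hA j hj h
    obtain ⟨γ, h1, h2⟩ := (f2 i hi hA j hj).1
    refine ⟨γ, ?_, by rw [h2, h]⟩
    rw [slice_apply] at h1
    split_ifs at h1
    · exact h1
    · exact absurd h1 (lt_irrefl _)
  have f5 : ∀ i ∈ I, ∀ β ∈ (bb I c).support, β i = mn c i → ∀ j, mn (slice c i) j ≤ β j := by
    intro i hi β hβ h j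
    refine mn_le_bb (I := I.erase i) ?_ j
    rw [support_bb_slice c hi]
    exact mem_filter.2 ⟨hβ, h⟩
  have f6 : ∀ i ∈ I, inA c i → ∀ j ∈ I.erase i, inA c j → mn c j = mn (slice c i) j := by
    intro i hi hA j hj hA'
    refine le_antisymm (f3 i hi hA j) (not_lt.1 fun hlt => ?_)
    have h1 : (bb (I.erase i) (slice c i)).support ⊆ Up I c j := by
      rw [support_bb_slice c hi]
      intro β hβ
      rw [mem_filter] at hβ
      exact mem_Up.2 ⟨hβ.1, hlt.trans_le (f5 i hi β hβ.1 hβ.2 j)⟩
    have h2 := card_le_card h1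
    have h3 := (f1 i hi hA).2
    have h4 := (f1 j (mem_of_mem_erase hj) hA').1
    unfold NN at h3
    omega
  have f7 : ∀ i ∈ I, inA c i → ∀ j ∈ I.erase i, inA c j →
      #((bb I c).support.filter (fun β => β i = mn c i ∧ mn c j < β j)) = 3 := by
    intro i hi hA j hj hA'
    rw [← (f2 i hi hA j hj).2]
    unfold Up
    rw [support_bb_slice c hi, filter_filter, ← f6 i hi hA j hj hA']
  have f8 : ∀ i ∈ I, inA c i → ∀ d ∈ I, ¬ inA c d → ∀ β ∈ (bb I c).support, β d = mn c d →
      mn c i < β i := by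
    intro i hi hA d hd hC β hβ h
    have hdi : d ∈ I.erase i := mem_erase.2 ⟨fun h => hC (by rw [h]; exact hA), hd⟩
    refine lt_of_le_of_ne (mn_le_bb hβ i) fun h1 => ?_
    have h2 := f5 i hi β hβ h1.symm d
    have h3 := f3 i hi hA d
    exact hC (f4 i hi hA d hdi (by omega))
  have hex : ∃ z ∈ I, inA c z := by
    by_contra h
    push Not at h
    have := caseB hG hf h
    rw [hI] at this
    omega
  obtain ⟨i, hi, hA⟩ := hex
  have hall : ∀ j ∈ I, inA c j := by
    intro j hj
    by_contra hC
    have hji : j ∈ I.erase i := mem_erase.2 ⟨fun h => hC (by rw [h]; exact hA), hj⟩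
    obtain ⟨i', hi', hne⟩ := exists_mem_ne (s := I.erase i) (by rw [hce i hi]; omega) j
    have hi'I := mem_of_mem_erase hi'
    by_cases hA' : inA c i'
    · obtain ⟨F, hF, hF1, hF2⟩ := lemC hG.ne hf (D := {j}) (singleton_subset_iff.2 hj)
        (fun d hd => by rw [mem_singleton.1 hd]; exact hC)
      have h1 := f7 i hi hA i' hi' hA'
      set G := (bb I c).support.filter (fun β => β i = mn c i ∧ mn c i' < β i')
      have hF3 : ∀ β ∈ F, β j = mn c j := fun β hβ => by
        obtain ⟨d, hd, h⟩ := hF2 β hβ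
        rwa [mem_singleton.1 hd] at h
      have hdis : Disjoint F G := by
        rw [disjoint_left]
        intro β h2 h3
        have := f8 i hi hA j hj hC β (hF h2) (hF3 β h2)
        have := (mem_filter.1 h3).2.1
        omega
      have h4 : F ∪ G ⊆ Up I c i' := union_subset
        (fun β hβ => mem_Up.2 ⟨hF hβ, f8 i' hi'I hA' j hj hC β (hF hβ) (hF3 β hβ)⟩)
        (fun β hβ => mem_Up.2 ⟨(mem_filter.1 hβ).1, (mem_filter.1 hβ).2.2⟩)
      have h5 := card_le_card h4
      rw [card_union_of_disjoint hdis, (f1 i' hi'I hA').1] at h5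
      rw [card_singleton, hI] at hF1
      omega
    · have hD : ∀ d ∈ ({i', j} : Finset ι), d ∈ I ∧ ¬ inA c d := fun d hd => by
        rcases mem_insert.1 hd with h | h
        · rw [h]; exact ⟨hi'I, hA'⟩
        · rw [mem_singleton.1 h]; exact ⟨hj, hC⟩
      obtain ⟨F, hF, hF1, hF2⟩ := lemC hG.ne hf (D := {i', j}) (fun d hd => (hD d hd).1)
        (fun d hd => (hD d hd).2)
      have h4 : F ⊆ Up I c i := fun β hβ => by
        obtain ⟨d, hd, h⟩ := hF2 β hβ
        exact mem_Up.2 ⟨hF hβ, f8 i hi hA d (hD d hd).1 (hD d hd).2 β (hF hβ) h⟩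
      have h5 := card_le_card h4
      rw [(f1 i hi hA).1] at h5
      rw [card_pair hne, hI] at hF1
      omega
  have hB : #(bb I c).support = 13 := by
    have h1 := NN_eq c hi
    rw [(f1 i hi hA).1, (f1 i hi hA).2] at h1
    exact h1
  set B := (bb I c).support with hBd
  set k : (ι → ℤ) → ℕ := fun β => #(I.filter (fun l => mn c l < β l)) with hk
  have hk6 : ∀ β ∈ B, k β < 6 := fun β _ => by
    have := card_filter_le I (fun l => mn c l < β l)
    simp only [hk]
    omega
  have hkk : ∀ β, k β = ∑ l ∈ I, if mn c l < β l then 1 else 0 := fun β => card_filter _ _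
  have s1 : ∑ β ∈ B, k β = 25 := by
    rw [sum_congr rfl fun β _ => hkk β, sum_comm,
      sum_congr rfl (g := fun _ => 5) fun l hl => by
        rw [← card_filter]; exact (f1 l hl (hall l hl)).1]
    rw [sum_const, hI]; rfl
  have s2 : ∑ β ∈ B, k β * k β = 65 := by
    have h1 : ∀ β, k β * k β =
        ∑ l ∈ I, ∑ l' ∈ I, if mn c l < β l ∧ mn c l' < β l' then 1 else 0 := by
      intro β
      rw [hkk, sum_mul_sum]
      refine sum_congr rfl fun l _ => sum_congr rfl fun l' _ => ?_
      by_cases h1 : mn c l < β l <;> by_cases h2 : mn c l' < β l' <;> simp [h1, h2]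
    rw [sum_congr rfl fun β _ => h1 β, sum_comm,
      sum_congr rfl (g := fun _ => 13) fun l hl => ?_]
    · rw [sum_const, hI]; rfl
    · rw [sum_comm, ← add_sum_erase _ _ hl, ← card_filter,
        sum_congr rfl (g := fun _ => 2) fun l' hl' => ?_]
      · rw [sum_const, hce l hl]
        simp only [and_self]
        have := (f1 l hl (hall l hl)).1
        unfold Up at this
        rw [this]; rfl
      · rw [← card_filter]
        have h2 := f7 l hl (hall l hl) l' hl' (hall l' (mem_of_mem_erase hl'))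
        have h3 := (f1 l' (mem_of_mem_erase hl') (hall l' (mem_of_mem_erase hl'))).1
        have h4 := card_filter_add_card_filter_not (s := Up I c l') (fun β => mn c l < β l)
        unfold Up at h3 h4
        rw [filter_filter, filter_filter, h3] at h4
        have h5 : B.filter (fun β => mn c l' < β l' ∧ ¬ mn c l < β l) =
            B.filter (fun β => β l = mn c l ∧ mn c l' < β l') := filter_congr fun β hβ => by
          have := mn_le_bb hβ l
          omega
        have h6 : B.filter (fun β => mn c l' < β l' ∧ mn c l < β l) =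
            B.filter (fun β => mn c l < β l ∧ mn c l' < β l') := filter_congr fun β _ => and_comm
        rw [h5, h6, h2] at h4
        omega
  have n0 : #(B.filter (fun β => k β = 0)) = 0 := by
    rw [card_eq_zero, filter_eq_empty_iff]
    intro β hβ h0
    have h1 : ∀ β' ∈ B, β = β' := fun β' hβ' =>
      (hG.same hβ hβ').eq_of_le fun l hl => by
        have h2 := filter_eq_empty_iff.1 (card_eq_zero.1 h0) hl
        have := mn_le_bb hβ' l
        omega
    have := card_le_one.2 (fun a ha b hb => (h1 a ha).symm.trans (h1 b hb))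
    omega
  have n1 : #(B.filter (fun β => k β = 1)) ≤ 5 := by
    rw [← hI]
    refine card_le_of_rel _ _ (fun β l => β ∈ B ∧ l ∈ I ∧ ∀ l' ∈ I, l' ≠ l → β l' = mn c l') ?_ ?_
    · intro β hβ
      obtain ⟨h1, h2⟩ := mem_filter.1 hβ
      obtain ⟨l, hl⟩ := card_eq_one.1 h2
      have h3 : l ∈ I.filter (fun l => mn c l < β l) := by rw [hl]; exact mem_singleton_self l
      refine ⟨l, (mem_filter.1 h3).1, h1, (mem_filter.1 h3).1, fun l' hl' hne => ?_⟩
      by_contra hn
      have h4 : l' ∈ I.filter (fun l => mn c l < β l) :=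
        mem_filter.2 ⟨hl', lt_of_le_of_ne (mn_le_bb h1 l') (Ne.symm hn)⟩
      rw [hl] at h4
      exact hne (mem_singleton.1 h4)
    · intro β _ β' _ l h1 h2
      rcases le_total (β l) (β' l) with h | h
      · refine (hG.same h1.1 h2.1).eq_of_le fun l' hl' => ?_
        by_cases h3 : l' = l
        · rw [h3]; exact h
        · rw [h1.2.2 l' hl' h3, h2.2.2 l' hl' h3]
      · refine ((hG.same h2.1 h1.1).eq_of_le fun l' hl' => ?_).symm
        by_cases h3 : l' = l
        · rw [h3]; exact h
        · rw [h1.2.2 l' hl' h3, h2.2.2 l' hl' h3]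
  have t0 := fiber_sum B k hk6 (fun _ => 1)
  have t1 := fiber_sum B k hk6 (fun y => y)
  have t2 := fiber_sum B k hk6 (fun y => y * y)
  rw [sum_const, smul_eq_mul, hB] at t0
  rw [s1] at t1
  rw [s2] at t2
  simp only [sum_range_succ, sum_range_zero] at t0 t1 t2
  omega

theorem lower (n : ℕ) (hn : 5 ≤ n) : ∀ I : Finset ι, #I = n → ∀ c, Good I c →
    (n + 1).choose 2 - 1 ≤ NN I c := by
  induction n, hn using Nat.le_induction with
  | base => intro I hI c hG; exact lb5 hI c hG
  | succ n hn ih =>
    intro I hI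
    refine min_red (card_pos.1 (by omega)) _ fun c hG hf => ?_
    have hce : ∀ i ∈ I, #(I.erase i) = n := fun i hi => by rw [card_erase_of_mem hi, hI]; rfl
    have hg : ∀ v ∈ I, inA c v → (n + 1).choose 2 - 1 ≤ NN (I.erase v) (slice c v) :=
      fun v hv hA => ih _ (hce v hv) _ (hG.slice hv hA)
    have e1 : (n + 1 + 1).choose 2 = (n + 1).choose 2 + (n + 1) := by
      rw [Nat.choose_succ_succ' (n + 1) 1, Nat.choose_one_right]; ring
    have e2 := two_choose n
    have e3 : 1 ≤ (n + 1).choose 2 := by nlinarith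
    have e4 : n.choose 2 + n = (n + 1).choose 2 := by
      rw [Nat.choose_succ_succ' n 1, Nat.choose_one_right]; ring
    by_cases h : ∃ z ∈ I, inA c z
    · obtain ⟨z, hz, hA⟩ := h
      have h1 := NN_eq c hz
      have h2 := hg z hz hA
      by_cases hT : n + 1 ≤ #(Up I c z)
      · omega
      · have := smallT hG hf hz (by rw [hce z hz]; omega) (by rw [hce z hz]; omega) _ hg
          (fun w _ hw => by rw [hce z hz] at hw ⊢; omega)
        rw [hce z hz] at this
        omega
    · push Not at h
      have := caseB hG hf h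
      rw [hI, Nat.add_sub_cancel] at this
      have h5 : n ≤ (n + 1).choose 2 := by nlinarith
      omega

end Pool.Agent.H545Z.SOS
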