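import Pool.Agent.H545Z.SOS6

set_option linter.unusedSectionVars false

open Finset

namespace Pool.Agent.H545Z.SOS

variable {n : ℕ}

def emb (α : Fin n → ℕ) : Fin n → ℤ := fun i => (α i : ℤ)

lemma emb_inj : Function.Injective (emb : (Fin n → ℕ) → _) := fun a b h => by
  funext i
  have := congrFun h i
  simpa [emb] using this

lemma emb_add (α : Fin n → ℕ) (j : Fin n) : emb (α + Pi.single j 1) = emb α + e j := by
  funext i
  simp only [emb, Pi.add_apply, e_apply, Pi.single_apply]
  split_ifs <;> simp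

lemma sub_add_single {β : Fin n → ℕ} {j : Fin n} (h : 1 ≤ β j) :
    β - Pi.single j 1 + Pi.single j 1 = β := by
  funext i
  simp only [Pi.add_apply, Pi.sub_apply, Pi.single_apply]
  split_ifs with h1
  · rw [h1]; omega
  · omega

lemma sum_single (j : Fin n) : ∑ i, (Pi.single j 1 : Fin n → ℕ) i = 1 := by
  simp [Pi.single_apply]

lemma bridge {d : ℕ} (c : (Fin n → ℕ) → ℝ)
    (h1 : ∃ α ∈ Finset.Nat.antidiagonalTuple n d, c α < 0)
    (h2 : ∀ β ∈ Finset.Nat.antidiagonalTuple n (d + 1),
      0 ≤ ∑ j ∈ Finset.univ.filter (fun j : Fin n => 1 ≤ β j), c (β - Pi.single j 1)) :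
    ∃ C : (Fin n → ℤ) →₀ ℝ, Good univ C ∧ NN univ C =
      ((Finset.Nat.antidiagonalTuple n (d + 1)).filter
        (fun β => ∑ j ∈ Finset.univ.filter (fun j : Fin n => 1 ≤ β j),
          c (β - Pi.single j 1) ≠ 0)).card := by
  classical
  set S := (Finset.Nat.antidiagonalTuple n d).image emb with hS
  let C : (Fin n → ℤ) →₀ ℝ := Finsupp.onFinset S
    (fun γ => if γ ∈ S then c (fun i => (γ i).toNat) else 0) (fun γ h => by
      by_contra hn
      exact h (if_neg hn))
  have hC : ∀ γ, C γ = if γ ∈ S then c (fun i => (γ i).toNat) else 0 := fun γ => rfl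
  have hC1 : ∀ α ∈ Finset.Nat.antidiagonalTuple n d, C (emb α) = c α := fun α hα => by
    rw [hC, if_pos (mem_image_of_mem _ hα)]
    simp [emb]
  have hC2 : ∀ γ ∈ C.support, γ ∈ S := fun γ h => Finsupp.support_onFinset_subset h
  have hb : ∀ β ∈ Finset.Nat.antidiagonalTuple n (d + 1), bb univ C (emb β) =
      ∑ j ∈ Finset.univ.filter (fun j : Fin n => 1 ≤ β j), c (β - Pi.single j 1) := by
    intro β hβ
    rw [bb_apply, sum_filter]
    refine sum_congr rfl fun j _ => ?_
    split_ifs with hj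
    · have h3 := sub_add_single hj
      have h4 : emb β - e j = emb (β - Pi.single j 1) := by
        rw [sub_eq_iff_eq_add, ← emb_add, h3]
      rw [h4]
      apply hC1
      rw [Finset.Nat.mem_antidiagonalTuple] at hβ ⊢
      rw [← h3] at hβ
      simp only [Pi.add_apply, sum_add_distrib, sum_single] at hβ
      omega
    · rw [hC, if_neg]
      intro h3
      obtain ⟨α, -, h4⟩ := mem_image.1 h3
      have := congrFun h4 j
      simp only [emb, Pi.sub_apply, e_self] at this
      omega
  have hb2 : ∀ γ ∈ (bb univ C).support, ∃ β ∈ Finset.Nat.antidiagonalTuple n (d + 1),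
      emb β = γ := by
    intro γ hγ
    obtain ⟨j, -, h3⟩ := exists_of_mem_bb hγ
    obtain ⟨α, hα, h4⟩ := mem_image.1 (hC2 _ h3)
    refine ⟨α + Pi.single j 1, ?_, by rw [emb_add, h4]; simp⟩
    rw [Finset.Nat.mem_antidiagonalTuple] at hα ⊢
    simp only [Pi.add_apply, sum_add_distrib, sum_single, hα]
  refine ⟨C, ⟨fun γ hγ γ' hγ' => ⟨?_, fun l hl => absurd (mem_univ l) hl⟩, fun γ => ?_, ?_⟩, ?_⟩
  · obtain ⟨α, hα, rfl⟩ := mem_image.1 (hC2 _ hγ)
    obtain ⟨α', hα', rfl⟩ := mem_image.1 (hC2 _ hγ')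
    rw [Finset.Nat.mem_antidiagonalTuple] at hα hα'
    simp only [emb]
    exact_mod_cast hα.trans hα'.symm
  · by_cases h : γ ∈ (bb univ C).support
    · obtain ⟨β, hβ, rfl⟩ := hb2 γ h
      rw [hb β hβ]
      exact h2 β hβ
    · rw [Finsupp.notMem_support_iff.1 h]
  · obtain ⟨α, hα, h⟩ := h1
    exact ⟨emb α, by rwa [hC1 α hα]⟩
  · unfold NN
    rw [← card_image_of_injective (s := filter _ _) emb_inj]
    congr 1
    ext γ
    rw [mem_image]
    constructor
    · intro h
      obtain ⟨β, hβ, rfl⟩ := hb2 γ h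
      refine ⟨β, mem_filter.2 ⟨hβ, ?_⟩, rfl⟩
      rw [← hb β hβ]
      exact Finsupp.mem_support_iff.1 h
    · rintro ⟨β, hβ, rfl⟩
      rw [mem_filter] at hβ
      rw [Finsupp.mem_support_iff, hb β hβ.1]
      exact hβ.2

/-- indicator -/
noncomputable def dl (v α : Fin n → ℕ) : ℝ := if α = v then 1 else 0

lemma dl_nonneg (v α : Fin n → ℕ) : 0 ≤ dl v α := by
  unfold dl; split_ifs <;> simp

lemma sum_dl (v β : Fin n → ℕ) :
    ∑ j ∈ Finset.univ.filter (fun j : Fin n => 1 ≤ β j), dl v (β - Pi.single j 1) =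
      ∑ j, dl (v + Pi.single j 1) β := by
  rw [sum_filter]
  refine sum_congr rfl fun j _ => ?_
  unfold dl
  by_cases hj : 1 ≤ β j
  · rw [if_pos hj]
    have h3 := sub_add_single hj
    by_cases h : β - Pi.single j 1 = v
    · rw [if_pos h, if_pos (by rw [← h, h3])]
    · rw [if_neg h, if_neg]
      intro h4
      apply h
      rw [h4]
      funext i
      simp
  · rw [if_neg hj, if_neg]
    intro h4
    apply hj
    rw [h4]
    simp

lemma upper {d : ℕ} (hd : 2 ≤ d) (x y : Fin n) (hxy : x ≠ y) :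
    ∃ c : (Fin n → ℕ) → ℝ,
      (∃ α ∈ Finset.Nat.antidiagonalTuple n d, c α < 0) ∧
      (∀ β ∈ Finset.Nat.antidiagonalTuple n (d + 1),
        0 ≤ ∑ j ∈ Finset.univ.filter (fun j : Fin n => 1 ≤ β j), c (β - Pi.single j 1)) ∧
      ((Finset.Nat.antidiagonalTuple n (d + 1)).filter
        (fun β => ∑ j ∈ Finset.univ.filter (fun j : Fin n => 1 ≤ β j),
          c (β - Pi.single j 1) ≠ 0)).card ≤ (n + 1).choose 2 - 1 := by
  classical
  obtain ⟨k, rfl⟩ : ∃ k, d = k + 2 := ⟨d - 2, by omega⟩
  let u : Fin n → Fin n → ℕ := fun i => Pi.single i 1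
  let a' : Fin n → ℕ := Pi.single x k
  let a : Fin n → ℕ := a' + u x
  let c : (Fin n → ℕ) → ℝ := fun α =>
    ∑ i ∈ univ.erase y, dl (a + u i) α - dl (a + u y) α + dl (a' + u y + u y) α
  have hb : ∀ β : Fin n → ℕ,
      ∑ j ∈ Finset.univ.filter (fun j : Fin n => 1 ≤ β j), c (β - Pi.single j 1) =
      ∑ i ∈ univ.erase y, ∑ j ∈ univ.erase y, dl (a + u i + u j) β +
        ∑ j ∈ univ.erase x, dl (a' + u y + u y + u j) β := by
    intro β
    simp only [c]
    rw [sum_add_distrib, sum_sub_distrib, sum_comm, sum_dl, sum_dl,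
      sum_congr rfl fun i _ => sum_dl (a + u i) β,
      sum_congr rfl fun i _ => (add_sum_erase univ _ (mem_univ y)).symm, sum_add_distrib]
    have e0 := add_sum_erase univ (fun j => dl (a + u y + u j) β) (mem_univ y)
    have e0' := add_sum_erase univ (fun j => dl (a' + u y + u y + u j) β) (mem_univ x)
    have e1 : ∑ i ∈ univ.erase y, dl (a + u i + u y) β =
        ∑ i ∈ univ.erase y, dl (a + u y + u i) β :=
      sum_congr rfl fun i _ => by rw [add_right_comm]
    have e2 : a' + u y + u y + u x = a + u y + u y := by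
      simp only [a]
      abel
    rw [e2] at e0'
    change ∑ i ∈ univ.erase y, dl (a + u i + u y) β +
      ∑ i ∈ univ.erase y, ∑ j ∈ univ.erase y, dl (a + u i + u j) β -
      ∑ j, dl (a + u y + u j) β + ∑ j, dl (a' + u y + u y + u j) β = _
    linarith
  refine ⟨c, ⟨a + u y, ?_, ?_⟩, fun β _ => ?_, ?_⟩
  · rw [Finset.Nat.mem_antidiagonalTuple]
    simp [a, a', u, sum_add_distrib, Pi.single_apply]
  · simp only [c]
    rw [sum_eq_zero]
    · have h1 : dl (a + u y) (a + u y) = 1 := if_pos rfl
      have h2 : dl (a' + u y + u y) (a + u y) = 0 := by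
        apply if_neg
        intro h
        have := congrFun h y
        simp [a, a', u, hxy.symm] at this
      rw [h1, h2]; norm_num
    · intro i hi
      apply if_neg
      intro h
      have := congrFun h y
      simp [a, a', u, (ne_of_mem_erase hi).symm] at this
  · rw [hb]
    exact add_nonneg (sum_nonneg fun i _ => sum_nonneg fun j _ => dl_nonneg _ _)
      (sum_nonneg fun j _ => dl_nonneg _ _)
  · let f : Sym2 (Fin n) → (Fin n → ℕ) := Sym2.lift ⟨fun i j => a + u i + u j, fun i j => add_right_comm _ _ _⟩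
    have hsub : (Finset.Nat.antidiagonalTuple n (k + 2 + 1)).filter
        (fun β => ∑ j ∈ Finset.univ.filter (fun j : Fin n => 1 ≤ β j),
          c (β - Pi.single j 1) ≠ 0) ⊆
        (univ.erase y).sym2.image f ∪ (univ.erase x).image (fun j => a' + u y + u y + u j) := by
      intro β hβ
      have h1 := (mem_filter.1 hβ).2
      rw [hb] at h1
      by_contra hn
      rw [mem_union, not_or] at hn
      apply h1
      rw [sum_eq_zero, sum_eq_zero, add_zero]
      · intro j hj
        apply if_neg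
        intro h
        exact hn.2 (mem_image.2 ⟨j, hj, h.symm⟩)
      · intro i hi
        refine sum_eq_zero fun j hj => if_neg fun h => ?_
        exact hn.1 (mem_image.2 ⟨s(i, j), mk_mem_sym2_iff.2 ⟨hi, hj⟩, h.symm⟩)
    have h2 := (card_le_card hsub).trans (card_union_le _ _)
    have h3 : #((univ.erase y).sym2.image f) ≤ n.choose 2 := by
      refine card_image_le.trans ?_
      rw [card_sym2, card_erase_add_one (mem_univ y), card_univ, Fintype.card_fin]
    have h4 : #((univ.erase x).image (fun j => a' + u y + u y + u j)) ≤ n - 1 := by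
      refine card_image_le.trans ?_
      rw [card_erase_of_mem (mem_univ x), card_univ, Fintype.card_fin]
    have e4 : n.choose 2 + n = (n + 1).choose 2 := by
      rw [Nat.choose_succ_succ' n 1, Nat.choose_one_right]; ring
    have h5 := x.pos
    omega

end Pool.Agent.H545Z.SOS
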