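import Mathlib

namespace Pool.Agent.H545Z.SOSD

/-- The prolonged coefficient `b_β = Σ_{j : β_j ≥ 1} c_{β - e_j}`. -/
noncomputable def prolong {n : ℕ} (c : (Fin n → ℕ) → ℝ) (β : Fin n → ℕ) : ℝ :=
  ∑ j ∈ Finset.univ.filter (fun j : Fin n => 1 ≤ β j), c (β - Pi.single j 1)

/-- The set of ranks (numbers of nonzero `b_β`, `|β| = d + 1`) attained by coefficient vectors
with some `c_α < 0` (`|α| = d`) and all `b_β ≥ 0`. -/
def ranks (n d : ℕ) : Set ℕ :=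
  {r | ∃ c : (Fin n → ℕ) → ℝ,
    (∃ α ∈ Finset.Nat.antidiagonalTuple n d, c α < 0) ∧
    (∀ β ∈ Finset.Nat.antidiagonalTuple n (d + 1), 0 ≤ prolong c β) ∧
    {β | β ∈ Finset.Nat.antidiagonalTuple n (d + 1) ∧ prolong c β ≠ 0}.ncard = r}

end Pool.Agent.H545Z.SOSD
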