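import Pool.Agent.H545Z.SOS7
import Pool.Agent.H545Z.SOSDefs

set_option linter.unusedSectionVars false

open Finset

namespace Pool.Agent.H545Z.SOS

lemma upper4 {d : ℕ} (hd : 2 ≤ d) :
    ∃ c : (Fin 4 → ℕ) → ℝ,
      (∃ α ∈ Finset.Nat.antidiagonalTuple 4 d, c α < 0) ∧
      (∀ β ∈ Finset.Nat.antidiagonalTuple 4 (d + 1),
        0 ≤ ∑ j ∈ Finset.univ.filter (fun j : Fin 4 => 1 ≤ β j), c (β - Pi.single j 1)) ∧
      ((Finset.Nat.antidiagonalTuple 4 (d + 1)).filter
        (fun β => ∑ j ∈ Finset.univ.filter (fun j : Fin 4 => 1 ≤ β j),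
          c (β - Pi.single j 1) ≠ 0)).card ≤ 8 := by
  classical
  obtain ⟨k, rfl⟩ : ∃ k, d = k + 2 := ⟨d - 2, by omega⟩
  obtain ⟨u, hu⟩ : ∃ u : Fin 4 → Fin 4 → ℕ, u = fun i => Pi.single i 1 := ⟨_, rfl⟩
  have hu' : ∀ j, Pi.single j 1 = u j := fun j => by rw [hu]
  obtain ⟨a, ha⟩ : ∃ a : Fin 4 → ℕ, a = Pi.single 0 k := ⟨_, rfl⟩
  let c : (Fin 4 → ℕ) → ℝ := fun α =>
    dl (a + u 0 + u 0) α + 2 * dl (a + u 0 + u 1) α + dl (a + u 1 + u 1) α -
      dl (a + u 0 + u 2) α - dl (a + u 0 + u 3) α - dl (a + u 1 + u 2) α - dl (a + u 1 + u 3) α +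
      dl (a + u 2 + u 2) α + 2 * dl (a + u 2 + u 3) α + dl (a + u 3 + u 3) α
  have hb : ∀ β : Fin 4 → ℕ,
      ∑ j ∈ Finset.univ.filter (fun j : Fin 4 => 1 ≤ β j), c (β - Pi.single j 1) =
      dl (a + u 0 + u 0 + u 0) β + 3 * dl (a + u 0 + u 0 + u 1) β +
        3 * dl (a + u 0 + u 1 + u 1) β + dl (a + u 1 + u 1 + u 1) β +
        dl (a + u 2 + u 2 + u 2) β + 3 * dl (a + u 2 + u 2 + u 3) β +
        3 * dl (a + u 2 + u 3 + u 3) β + dl (a + u 3 + u 3 + u 3) β := by
    intro β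
    simp only [c, sum_add_distrib, sum_sub_distrib, ← mul_sum, sum_dl]
    simp only [Fin.sum_univ_four, hu']
    have c1 : ∀ i j : Fin 4, j < i → ∀ v : Fin 4 → ℕ, v + u i + u j = v + u j + u i :=
      fun i j _ v => add_right_comm _ _ _
    simp only [c1 1 0 (by decide), c1 2 0 (by decide), c1 3 0 (by decide), c1 2 1 (by decide),
      c1 3 1 (by decide), c1 3 2 (by decide)]
    ring
  refine ⟨c, ⟨a + u 0 + u 2, ?_, ?_⟩, fun β _ => ?_, ?_⟩
  · rw [Finset.Nat.mem_antidiagonalTuple]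
    simp [ha, hu, Fin.sum_univ_four]
  · have hne : ∀ i j : Fin 4, ¬ ((i = 0 ∧ j = 2) ∨ (i = 2 ∧ j = 0)) →
        dl (a + u i + u j) (a + u 0 + u 2) = 0 := by
      intro i j hij
      apply if_neg
      intro h
      rw [add_assoc, add_assoc, add_left_cancel_iff, hu] at h
      revert i j
      decide
    have h1 : dl (a + u 0 + u 2) (a + u 0 + u 2) = 1 := if_pos rfl
    simp only [c]
    rw [hne 0 0 (by decide), hne 0 1 (by decide), hne 1 1 (by decide), hne 0 3 (by decide),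
      hne 1 2 (by decide), hne 1 3 (by decide), hne 2 2 (by decide), hne 2 3 (by decide),
      hne 3 3 (by decide), h1]
    norm_num
  · rw [hb]
    have := fun v => dl_nonneg v β
    linarith [this (a + u 0 + u 0 + u 0), this (a + u 0 + u 0 + u 1), this (a + u 0 + u 1 + u 1),
      this (a + u 1 + u 1 + u 1), this (a + u 2 + u 2 + u 2), this (a + u 2 + u 2 + u 3),
      this (a + u 2 + u 3 + u 3), this (a + u 3 + u 3 + u 3)]
  · have hsub : (Finset.Nat.antidiagonalTuple 4 (k + 2 + 1)).filter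
        (fun β => ∑ j ∈ Finset.univ.filter (fun j : Fin 4 => 1 ≤ β j),
          c (β - Pi.single j 1) ≠ 0) ⊆
        ([a + u 0 + u 0 + u 0, a + u 0 + u 0 + u 1, a + u 0 + u 1 + u 1, a + u 1 + u 1 + u 1,
          a + u 2 + u 2 + u 2, a + u 2 + u 2 + u 3, a + u 2 + u 3 + u 3,
          a + u 3 + u 3 + u 3] : List (Fin 4 → ℕ)).toFinset := by
      intro β hβ
      have h1 := (mem_filter.1 hβ).2
      rw [hb] at h1
      by_contra hn
      simp only [List.mem_toFinset, List.mem_cons, List.not_mem_nil, or_false, not_or] at hn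
      obtain ⟨h2, h3, h4, h5, h6, h7, h8, h9⟩ := hn
      apply h1
      simp only [dl, if_neg h2, if_neg h3, if_neg h4, if_neg h5, if_neg h6, if_neg h7, if_neg h8,
        if_neg h9]
      norm_num
    exact (card_le_card hsub).trans (List.toFinset_card_le _)

open Pool.Agent.H545Z.SOSD in
theorem all_values (n d : ℕ) (hn : 2 ≤ n) (hd : 2 ≤ d) :
    IsLeast (ranks n d) (if n = 4 then 8 else (n + 1).choose 2 - 1) := by
  have hcard : ∀ c : (Fin n → ℕ) → ℝ,
      {β | β ∈ Finset.Nat.antidiagonalTuple n (d + 1) ∧ prolong c β ≠ 0}.ncard =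
      ((Finset.Nat.antidiagonalTuple n (d + 1)).filter
        (fun β => ∑ j ∈ Finset.univ.filter (fun j : Fin n => 1 ≤ β j),
          c (β - Pi.single j 1) ≠ 0)).card := by
    intro c
    rw [← Set.ncard_coe_finset]
    congr 1
    ext β
    simp [prolong]
  have low : ∀ r ∈ ranks n d, (if n = 4 then 8 else (n + 1).choose 2 - 1) ≤ r := by
    rintro r ⟨c, h1, h2, h3⟩
    obtain ⟨C, hC, hN⟩ := bridge c h1 h2
    rw [← h3, hcard, ← hN]
    have hu : #(univ : Finset (Fin n)) = n := by simp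
    split_ifs with h4
    · exact lb4 (hu.trans h4) C hC
    · by_cases h5 : 5 ≤ n
      · exact lower n h5 _ hu C hC
      · by_cases h6 : n = 3
        · have := lb3 (hu.trans h6) C hC
          have h8 : (n + 1).choose 2 - 1 = 5 := by rw [h6]; decide
          rw [h8]; exact this
        · have h7 : n = 2 := by omega
          have := huang univ C hC.ne
          rw [hu] at this
          have h8 : (n + 1).choose 2 - 1 = n := by rw [h7]; decide
          rw [h8]; exact this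
  refine ⟨?_, low⟩
  have up : ∃ r ∈ ranks n d, r ≤ (if n = 4 then 8 else (n + 1).choose 2 - 1) := by
    split_ifs with h4
    · subst h4
      obtain ⟨c, h1, h2, h3⟩ := upper4 hd
      exact ⟨_, ⟨c, h1, h2, hcard c⟩, h3⟩
    · obtain ⟨c, h1, h2, h3⟩ := upper (n := n) hd ⟨0, by omega⟩ ⟨1, by omega⟩ (by simp)
      exact ⟨_, ⟨c, h1, h2, hcard c⟩, h3⟩
  obtain ⟨r, h1, h2⟩ := up
  rw [← le_antisymm h2 (low r h1)]
  exact h1

end Pool.Agent.H545Z.SOS
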