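import Pool.Agent.H545Z.SSDDefs

open Filter Topology

namespace Pool.Agent.H545Z.SSD

lemma ulim {Y : Type} [NormedAddCommGroup Y] [NormedSpace ℝ Y] (U : Ultrafilter ℕ)
    (g : ℕ → StrongDual ℝ Y) (hg : ∀ n, ‖g n‖ ≤ 1) :
    ∃ G : StrongDual ℝ Y, ‖G‖ ≤ 1 ∧ ∀ y, Tendsto (fun n => g n y) U (𝓝 (G y)) := by
  have hc := WeakDual.isCompact_closedBall (𝕜 := ℝ) (0 : StrongDual ℝ Y) 1
  obtain ⟨G, hG, hG'⟩ := hc.ultrafilter_le_nhds (U.map fun n => StrongDual.toWeakDual (g n)) (by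
    rw [Ultrafilter.coe_map, le_principal_iff, mem_map]
    exact univ_mem' fun n => by simpa using hg n)
  refine ⟨WeakDual.toStrongDual G, by simpa using hG, fun y => ?_⟩
  exact ((WeakDual.eval_continuous y).tendsto G).comp hG'

lemma ulim2 {Z : Type} [NormedAddCommGroup Z] [NormedSpace ℝ Z] (U : Ultrafilter ℕ)
    (g : ℕ → Z) (hg : ∀ n, ‖g n‖ ≤ 1) :
    ∃ G : StrongDual ℝ (StrongDual ℝ Z), ‖G‖ ≤ 1 ∧
      ∀ y : StrongDual ℝ Z, Tendsto (fun n => y (g n)) U (𝓝 (G y)) :=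
  ulim U (fun m => NormedSpace.inclusionInDoubleDual ℝ Z (g m))
    (fun m => (NormedSpace.double_dual_bound ℝ Z (g m)).trans (hg m))

lemma ap_le {Z : Type} [NormedAddCommGroup Z] [NormedSpace ℝ Z] (K : StrongDual ℝ Z)
    (hK : ‖K‖ ≤ 1) {z : Z} {C : ℝ} (hz : ‖z‖ ≤ C) : |K z| ≤ C := by
  have := K.le_opNorm z
  rw [Real.norm_eq_abs] at this
  have h2 : ‖K‖ * ‖z‖ ≤ 1 * C := mul_le_mul hK hz (norm_nonneg _) zero_le_one
  linarith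

lemma key_est {Z : Type} [NormedAddCommGroup Z] [NormedSpace ℝ Z] (e f : Z) (c : ℝ)
    (he : ‖e‖ ≤ 1) (hc : |c| ≤ 1)
    (hb : ∀ t : ℝ, |t| ≤ 1 / 3 → ‖e + t • (f - c • e)‖ ≤ 1 + 1 / 20)
    (K : StrongDual ℝ Z) (hK : ‖K‖ ≤ 1) (hK' : 1 - 1 / 20 < K e) : |K f - c| ≤ 7 / 20 := by
  have k0 : K e ≤ 1 := (le_abs_self _).trans (ap_le K hK he)
  have k1 : ∀ t : ℝ, |t| ≤ 1 / 3 → K e + t * (K f - c * K e) ≤ 1 + 1 / 20 := by
    intro t ht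
    have := (le_abs_self _).trans (ap_le K hK (hb t ht))
    rwa [map_add, map_smul, map_sub, map_smul, smul_eq_mul, smul_eq_mul] at this
  have k2 := k1 (1 / 3) (by rw [abs_of_pos] <;> norm_num)
  have k3 := k1 (-1 / 3) (by rw [abs_of_neg] <;> norm_num)
  have k4 : |c * (1 - K e)| ≤ 1 * (1 / 20) := by
    rw [abs_mul]
    exact mul_le_mul hc (by rw [abs_le]; constructor <;> linarith) (abs_nonneg _) zero_le_one
  rw [abs_le] at k4 ⊢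
  constructor <;> nlinarith [k4.1, k4.2]

lemma not_ssd_of {W : Type} [NormedAddCommGroup W] [NormedSpace ℝ W] (φ : StrongDual ℝ W)
    (hφ : ‖φ‖ = 1) (h : ∀ F G : W, F ∈ slice φ (1 / 20) → G ∈ slice φ (1 / 20) → ‖F - G‖ ≤ 1) :
    ¬ SSD2P W := by
  intro H
  obtain ⟨x, y, -, hy, hxy⟩ := H 1 (fun _ => φ) (fun _ => 1 / 20) (fun _ => hφ)
    (fun _ => by norm_num) (1 / 2) (by norm_num)
  obtain ⟨-, hF, hG⟩ := hxy 0
  have h5 := h _ _ hF hG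
  have h6 : x 0 + y - (x 0 - y) = (2 : ℝ) • y := by
    rw [two_smul]; abel
  rw [h6, norm_smul] at h5
  norm_num at h5
  linarith

theorem abs_dual {Z : Type} [NormedAddCommGroup Z] [NormedSpace ℝ Z]
    (co : ℕ → Z) (x0 : StrongDual ℝ Z) (co_norm : ∀ m, ‖co m‖ ≤ 1) (hx0 : ‖x0‖ ≤ 1)
    (h1 : ∀ m, x0 (co m) = 1)
    (bump : ∀ f : Z, ‖f‖ ≤ 1 → ∃ m0 : ℕ, ∀ m, m0 ≤ m → ∃ c : ℝ, |c| ≤ 1 ∧
      ∀ t : ℝ, |t| ≤ 1 / 3 → ‖co m + t • (f - c • co m)‖ ≤ 1 + 1 / 20) :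
    ¬ SSD2P (StrongDual ℝ Z) := by
  let U : Ultrafilter ℕ := Ultrafilter.of atTop
  have hU : (U : Filter ℕ) ≤ atTop := Ultrafilter.of_le _
  obtain ⟨φ, hφ, hφ'⟩ := ulim2 U co co_norm
  have h2 : φ x0 = 1 := by
    refine tendsto_nhds_unique (hφ' x0) (tendsto_const_nhds.congr' ?_)
    exact Eventually.of_forall fun m => (h1 m).symm
  have h3 : ‖φ‖ = 1 := by
    refine le_antisymm hφ ?_
    have := φ.le_opNorm x0
    rw [h2, norm_one] at this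
    have h4 : ‖φ‖ * ‖x0‖ ≤ ‖φ‖ * 1 := mul_le_mul_of_nonneg_left hx0 φ.opNorm_nonneg
    linarith
  refine not_ssd_of φ h3 fun F G hF hG => ?_
  refine ContinuousLinearMap.opNorm_le_of_unit_norm zero_le_one fun f hf => ?_
  obtain ⟨m0, hm0⟩ := bump f hf.le
  have e1 : ∀ᶠ m in (U : Filter ℕ), 1 - 1 / 20 < F (co m) :=
    (hφ' F).eventually (lt_mem_nhds hF.2)
  have e2 : ∀ᶠ m in (U : Filter ℕ), 1 - 1 / 20 < G (co m) :=
    (hφ' G).eventually (lt_mem_nhds hG.2)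
  obtain ⟨m, ⟨hm1, hm2⟩, hm3⟩ := ((e1.and e2).and (hU (eventually_ge_atTop m0))).exists
  obtain ⟨c, hc, hb⟩ := hm0 m hm3
  have k5 := key_est (co m) f c (co_norm m) hc hb F hF.1 hm1
  have k6 := key_est (co m) f c (co_norm m) hc hb G hG.1 hm2
  have k7 : (F - G) f = F f - G f := rfl
  rw [k7, Real.norm_eq_abs, abs_le]
  rw [abs_le] at k5 k6
  constructor <;> linarith [k5.1, k5.2, k6.1, k6.2]

theorem abs_bidual {X : Type} [NormedAddCommGroup X] [NormedSpace ℝ X]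
    (co : ℕ → StrongDual ℝ X) (xx : ℕ → X) (co_norm : ∀ m, ‖co m‖ ≤ 1) (hxx : ∀ n, ‖xx n‖ ≤ 1)
    (hcx : ∀ m n, m < n → co m (xx n) = 1)
    (bump : ∀ f : StrongDual ℝ X, ‖f‖ ≤ 1 → ∃ m0 : ℕ, ∀ m, m0 ≤ m → ∀ t : ℝ, |t| ≤ 1 / 3 →
      ‖co m + t • (f - f (xx m) • co m)‖ ≤ 1 + 1 / 20) :
    ¬ SSD2P (StrongDual ℝ (StrongDual ℝ X)) := by
  let U : Ultrafilter ℕ := Ultrafilter.of atTop
  have hU : (U : Filter ℕ) ≤ atTop := Ultrafilter.of_le _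
  obtain ⟨x0, hx0, hx0'⟩ := ulim2 U xx hxx
  refine abs_dual co x0 co_norm hx0 (fun m => ?_) (fun f hf => ?_)
  · refine tendsto_nhds_unique (hx0' (co m)) (tendsto_const_nhds.congr' ?_)
    filter_upwards [hU (eventually_gt_atTop m)] with n hn
    exact (hcx m n hn).symm
  · obtain ⟨m0, hm0⟩ := bump f hf
    exact ⟨m0, fun m hm => ⟨f (xx m), ap_le f hf (hxx m), hm0 m hm⟩⟩

end Pool.Agent.H545Z.SSD
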