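import Mathlib

namespace Pool.Agent.H545Z.SSD

/-- The slice `S(f, α) = {x ∈ B_X : f x > 1 - α}` of the closed unit ball. -/
def slice {X : Type} [NormedAddCommGroup X] [NormedSpace ℝ X] (f : StrongDual ℝ X) (α : ℝ) :
    Set X :=
  {x | ‖x‖ ≤ 1 ∧ 1 - α < f x}

/-- The symmetric strong diameter 2 property. -/
def SSD2P (X : Type) [NormedAddCommGroup X] [NormedSpace ℝ X] : Prop :=
  ∀ (n : ℕ) (f : Fin n → StrongDual ℝ X) (α : Fin n → ℝ),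
    (∀ i, ‖f i‖ = 1) → (∀ i, 0 < α i) → ∀ ε : ℝ, 0 < ε →
      ∃ (x : Fin n → X) (y : X), ‖y‖ ≤ 1 ∧ 1 - ε < ‖y‖ ∧
        ∀ i, x i ∈ slice (f i) (α i) ∧ x i + y ∈ slice (f i) (α i) ∧ x i - y ∈ slice (f i) (α i)

end Pool.Agent.H545Z.SSD
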