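import Pool.Agent.H545Z.SSDAbs

open Filter Topology
open scoped ZeroAtInfty

namespace Pool.Agent.H545Z.SSD

/-- the underlying space `c₀(ℕ, ℝ × ℝ)` -/
abbrev E : Type := C₀(ℕ, ℝ × ℝ)

lemma E_le {z : E} {C : ℝ} (hC : 0 ≤ C) (h : ∀ k, ‖z k‖ ≤ C) : ‖z‖ ≤ C := by
  rw [← ZeroAtInftyContinuousMap.norm_toBCF_eq_norm]
  exact (BoundedContinuousFunction.norm_le hC).2 h

lemma E_ap (z : E) (k : ℕ) : ‖z k‖ ≤ ‖z‖ := by
  rw [← ZeroAtInftyContinuousMap.norm_toBCF_eq_norm]
  exact BoundedContinuousFunction.norm_coe_le_norm z.toBCF k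

lemma E_tend (z : E) : Tendsto z atTop (𝓝 0) := by
  have := z.zero_at_infty'
  rwa [cocompact_eq_cofinite, Nat.cofinite_eq_atTop] at this

/-- finitely supported element -/
noncomputable def mk (u : ℕ → ℝ × ℝ) (m : ℕ) : E :=
  ⟨⟨fun k => if k < m then u k else 0, continuous_of_discreteTopology⟩, by
    rw [cocompact_eq_cofinite, Nat.cofinite_eq_atTop]
    refine tendsto_const_nhds.congr' ?_
    filter_upwards [eventually_ge_atTop m] with k hk
    simp [not_lt.2 hk]⟩

@[simp] lemma mk_apply (u : ℕ → ℝ × ℝ) (m k : ℕ) : mk u m k = if k < m then u k else 0 := rfl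

/-- the points `x_m` -/
noncomputable def xx (m : ℕ) : E := mk (fun _ => (1, 0)) m

/-- the points `e_k` -/
noncomputable def ee (k : ℕ) : E := mk (fun j => if j = k then (0, 1) else 0) (k + 1)

lemma xx_apply (m k : ℕ) : xx m k = if k < m then (1, 0) else 0 := rfl

lemma ee_apply (k j : ℕ) : ee k j = if j = k then (0, 1) else 0 := by
  unfold ee
  rw [mk_apply]
  by_cases h : j = k
  · simp [h]
  · simp [h]

lemma tail (f : StrongDual ℝ E) {η : ℝ} (hη : 0 < η) :
    ∃ m : ℕ, ∀ z : E, ‖z‖ ≤ 1 → (∀ k < m, z k = 0) → |f z| ≤ η := by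
  -- a point of the unit ball almost norming `f`
  have h1 : ∃ z0 : E, ‖z0‖ ≤ 1 ∧ ‖f‖ - η / 2 < f z0 := by
    by_cases hf : ‖f‖ - η / 2 < 0
    · exact ⟨0, by simp, by simpa using hf⟩
    obtain ⟨z, hz, hz'⟩ := f.exists_lt_apply_of_lt_opNorm (r := ‖f‖ - η / 2) (by linarith)
    rw [Real.norm_eq_abs] at hz'
    rcases le_total 0 (f z) with h | h
    · exact ⟨z, hz.le, by rwa [abs_of_nonneg h] at hz'⟩
    · exact ⟨-z, by simpa using hz.le, by rw [abs_of_nonpos h] at hz'; simpa using hz'⟩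
  obtain ⟨z0, hz0, hz0'⟩ := h1
  have hpos : 0 < η / 2 / (‖f‖ + 1) := by positivity
  obtain ⟨m, hm⟩ := (Metric.tendsto_atTop.1 (E_tend z0)) _ hpos
  refine ⟨m, fun z hz hz' => ?_⟩
  have h2 : ‖z0 - mk z0 m‖ ≤ η / 2 / (‖f‖ + 1) := by
    refine E_le hpos.le fun k => ?_
    rw [ZeroAtInftyContinuousMap.sub_apply, mk_apply]
    by_cases hk : k < m
    · simp [hk, hpos.le]
    · have := hm k (not_lt.1 hk)
      rw [dist_zero_right] at this
      simp [hk, this.le]
  have h3 : |f (z0 - mk z0 m)| ≤ η / 2 := by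
    have := f.le_opNorm (z0 - mk z0 m)
    rw [Real.norm_eq_abs] at this
    have h4 : ‖f‖ * ‖z0 - mk z0 m‖ ≤ (‖f‖ + 1) * (η / 2 / (‖f‖ + 1)) :=
      mul_le_mul (by linarith) h2 (norm_nonneg _) (by positivity)
    have h5 : (‖f‖ + 1) * (η / 2 / (‖f‖ + 1)) = η / 2 := by field_simp
    linarith
  have key : ∀ w : E, ‖w‖ ≤ 1 → (∀ k < m, w k = 0) → f w ≤ η := by
    intro w hw hw'
    have h6 : ‖mk z0 m + w‖ ≤ 1 := by
      refine E_le zero_le_one fun k => ?_
      rw [ZeroAtInftyContinuousMap.add_apply, mk_apply]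
      by_cases hk : k < m
      · simp [hk, hw' k hk, (E_ap z0 k).trans hz0]
      · simp [hk, (E_ap w k).trans hw]
    have h7 := f.le_opNorm (mk z0 m + w)
    have h8 : ‖f‖ * ‖mk z0 m + w‖ ≤ ‖f‖ := by
      simpa using mul_le_mul_of_nonneg_left h6 (norm_nonneg f)
    rw [Real.norm_eq_abs, map_add] at h7
    rw [map_sub] at h3
    have h9 := le_abs_self (f (mk z0 m) + f w)
    have h10 := le_abs_self (f z0 - f (mk z0 m))
    linarith
  rw [abs_le]
  refine ⟨?_, key z hz hz'⟩
  have := key (-z) (by simpa using hz) (fun k hk => by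
    rw [ZeroAtInftyContinuousMap.neg_apply, hz' k hk, neg_zero])
  rw [map_neg] at this
  linarith

/-- generators of the new unit ball -/
def Gen (n : ℕ) (s : ℝ) (a : E) : Prop :=
  ‖a‖ ≤ 1 ∧ (∀ k < n, a k = (s, 0)) ∧ ∀ k, n ≤ k → |(a k).1| ≤ 1 / 2

def A : Set E := {a | ∃ n s, (s = 1 ∨ s = -1) ∧ Gen n s a}

lemma A_neg {a : E} (h : a ∈ A) : -a ∈ A := by
  obtain ⟨n, s, hs, h1, h2, h3⟩ := h
  refine ⟨n, -s, by rcases hs with h | h <;> simp [h], by simpa using h1, fun k hk => ?_,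
    fun k hk => ?_⟩
  · rw [ZeroAtInftyContinuousMap.neg_apply, h2 k hk]; simp
  · rw [ZeroAtInftyContinuousMap.neg_apply]; simpa using h3 k hk

lemma A_norm {a : E} (h : a ∈ A) : ‖a‖ ≤ 1 := by
  obtain ⟨n, s, hs, h1, h2, h3⟩ := h
  exact h1

lemma A_half {a : E} (h : ‖a‖ ≤ 1 / 2) : a ∈ A := by
  refine ⟨0, 1, Or.inl rfl, by linarith, fun k hk => absurd hk (Nat.not_lt_zero k), fun k _ => ?_⟩
  have h1 := E_ap a k
  have h2 := norm_fst_le (a k)
  rw [Real.norm_eq_abs] at h2
  linarith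

def D : Set (StrongDual ℝ E) := {g | ∀ a ∈ A, |g a| ≤ 1}

instance : Nonempty D := ⟨⟨0, fun a _ => by simp⟩⟩

lemma D_le {g : StrongDual ℝ E} (hg : g ∈ D) (z : E) : |g z| ≤ 2 * ‖z‖ := by
  by_cases hz : z = 0
  · simp [hz]
  have hz' : 0 < ‖z‖ := norm_pos_iff.2 hz
  have h1 : ‖(1 / (2 * ‖z‖)) • z‖ ≤ 1 / 2 := by
    rw [norm_smul, Real.norm_eq_abs, abs_of_pos (by positivity)]
    apply le_of_eq
    field_simp
  have h2 := hg _ (A_half h1)
  rw [map_smul, smul_eq_mul, abs_mul, abs_of_pos (by positivity : 0 < 1 / (2 * ‖z‖))] at h2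
  rw [div_mul_eq_mul_div, one_mul, div_le_one (by positivity)] at h2
  exact h2

noncomputable def N (z : E) : ℝ := ⨆ g : D, |g.1 z|

lemma N_bdd (z : E) : BddAbove (Set.range fun g : D => |g.1 z|) :=
  ⟨2 * ‖z‖, by rintro _ ⟨g, rfl⟩; exact D_le g.2 z⟩

lemma le_N {g : StrongDual ℝ E} (hg : g ∈ D) (z : E) : |g z| ≤ N z :=
  le_ciSup (N_bdd z) ⟨g, hg⟩

lemma N_le {z : E} {C : ℝ} (h : ∀ g ∈ D, |g z| ≤ C) : N z ≤ C :=
  ciSup_le fun g => h g.1 g.2

lemma N_ge (z : E) : ‖z‖ ≤ N z := by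
  obtain ⟨g, hg, hg'⟩ := exists_dual_vector'' ℝ z
  have hD : g ∈ D := fun a ha => by
    have := g.le_opNorm a
    rw [Real.norm_eq_abs] at this
    have h2 : ‖g‖ * ‖a‖ ≤ 1 * 1 := mul_le_mul hg (A_norm ha) (norm_nonneg _) zero_le_one
    linarith
  have := le_N hD z
  rw [hg'] at this
  exact (le_abs_self _).trans this

/-- the renormed space -/
def X : Type := E

noncomputable instance : AddCommGroup X := inferInstanceAs (AddCommGroup E)
noncomputable instance : Module ℝ X := inferInstanceAs (Module ℝ E)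

noncomputable def toE : X ≃ₗ[ℝ] E := LinearEquiv.refl ℝ E

noncomputable def nrm : AddGroupNorm X where
  toFun z := N (toE z)
  map_zero' := le_antisymm (N_le fun g _ => by simp) ((norm_nonneg _).trans (N_ge _))
  add_le' a b := N_le fun g hg => by
    rw [map_add, map_add]
    exact (abs_add_le _ _).trans (add_le_add (le_N hg _) (le_N hg _))
  neg' a := by
    apply le_antisymm
    · exact N_le fun g hg => by rw [map_neg, map_neg, abs_neg]; exact le_N hg _
    · exact N_le fun g hg => by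
        have := le_N hg (toE (-a))
        rwa [map_neg, map_neg, abs_neg] at this
  eq_zero_of_map_eq_zero' a h := by
    have := N_ge (toE a)
    rw [h] at this
    exact toE.map_eq_zero_iff.1 (norm_le_zero_iff.1 this)

noncomputable instance : NormedAddCommGroup X := nrm.toNormedAddCommGroup

lemma X_norm (z : X) : ‖z‖ = N (toE z) := rfl

noncomputable instance : NormedSpace ℝ X where
  norm_smul_le r z := by
    rw [X_norm, X_norm]
    refine N_le fun g hg => ?_
    rw [map_smul, map_smul, smul_eq_mul, abs_mul, Real.norm_eq_abs]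
    exact mul_le_mul_of_nonneg_left (le_N hg _) (abs_nonneg _)

noncomputable def eqv : X ≃L[ℝ] E :=
  toE.toContinuousLinearEquivOfBounds 1 2
    (fun z => by rw [one_mul, X_norm]; exact N_ge _)
    (fun z => by
      rw [X_norm, LinearEquiv.apply_symm_apply]
      exact N_le fun g hg => D_le hg z)

lemma eqv_apply (z : X) : eqv z = toE z := rfl

instance : CompleteSpace X :=
  (completeSpace_congr (e := eqv.toEquiv) eqv.isUniformEmbedding).2 inferInstance

lemma norm_symm_le {a : E} (ha : a ∈ A) : ‖eqv.symm a‖ ≤ 1 := by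
  rw [X_norm, ← eqv_apply, ContinuousLinearEquiv.apply_symm_apply]
  exact N_le fun g hg => hg a ha

lemma norm_symm_ge (a : E) : ‖a‖ ≤ ‖eqv.symm a‖ := by
  rw [X_norm, ← eqv_apply, ContinuousLinearEquiv.apply_symm_apply]
  exact N_ge a

lemma dual_le (f : StrongDual ℝ X) {c : ℝ} (hc : 0 < c) (h : ∀ a ∈ A, |f (eqv.symm a)| ≤ c) :
    ‖f‖ ≤ c := by
  refine f.opNorm_le_bound hc.le fun z => ?_
  have hD : (1 / c) • (f.comp (eqv.symm : E →L[ℝ] X)) ∈ D := fun a ha => by
    have := h a ha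
    simp only [ContinuousLinearMap.smul_apply, ContinuousLinearMap.comp_apply,
      ContinuousLinearEquiv.coe_coe, smul_eq_mul]
    rw [abs_mul, abs_of_pos (by positivity), div_mul_eq_mul_div, one_mul, div_le_one hc]
    exact this
  have h2 := le_N hD (eqv z)
  simp only [ContinuousLinearMap.smul_apply, ContinuousLinearMap.comp_apply,
      ContinuousLinearEquiv.coe_coe, smul_eq_mul, ContinuousLinearEquiv.symm_apply_apply] at h2
  rw [abs_mul, abs_of_pos (by positivity : 0 < 1 / c), div_mul_eq_mul_div, one_mul,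
    div_le_iff₀ hc] at h2
  rw [Real.norm_eq_abs, X_norm, ← eqv_apply]
  linarith

lemma ee_norm (k : ℕ) : ‖ee k‖ = 1 := by
  apply le_antisymm
  · refine E_le zero_le_one fun j => ?_
    rw [ee_apply]
    by_cases h : j = k <;> simp [h]
  · have := E_ap (ee k) k
    rw [ee_apply] at this
    simpa using this

lemma ee_mem (k : ℕ) : ee k ∈ A := by
  refine ⟨0, 1, Or.inl rfl, (ee_norm k).le, fun j hj => absurd hj (Nat.not_lt_zero j),
    fun j _ => ?_⟩
  rw [ee_apply]
  by_cases h : j = k <;> simp [h]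

lemma xx_mem (m : ℕ) : xx m ∈ A := by
  refine ⟨m, 1, Or.inl rfl, E_le zero_le_one fun j => ?_, fun j hj => ?_, fun j hj => ?_⟩
  · rw [xx_apply]
    by_cases h : j < m <;> simp [h]
  · rw [xx_apply, if_pos hj]
  · rw [xx_apply, if_neg (not_lt.2 hj)]; simp

lemma perturb {n : ℕ} {s : ℝ} {a : E} (h : Gen n s a) {k : ℕ} (hk : n ≤ k) {t : ℝ}
    (ht : |t| ≤ 1) : Gen n s (a + (t - (a k).2) • ee k) := by
  obtain ⟨h1, h2, h3⟩ := h
  have hv : ∀ j, (a + (t - (a k).2) • ee k) j = if j = k then ((a k).1, t) else a j := by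
    intro j
    rw [ZeroAtInftyContinuousMap.add_apply, ZeroAtInftyContinuousMap.smul_apply, ee_apply]
    by_cases hj : j = k
    · subst hj
      ext <;> simp
    · simp [hj]
  refine ⟨E_le zero_le_one fun j => ?_, fun j hj => ?_, fun j hj => ?_⟩
  · rw [hv]
    by_cases hj : j = k
    · rw [if_pos hj, Prod.norm_def]
      refine max_le ((norm_fst_le (a k)).trans ((E_ap a k).trans h1)) ht
    · rw [if_neg hj]; exact (E_ap a j).trans h1
  · rw [hv, if_neg (by omega)]; exact h2 j hj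
  · rw [hv]
    by_cases hjk : j = k
    · rw [if_pos hjk]; exact h3 k hk
    · rw [if_neg hjk]; exact h3 j hj

theorem X_ssd : SSD2P X := by
  intro n f α hf hα ε hε
  have h1 : ∀ i, ∃ a ∈ A, 1 - α i < f i (eqv.symm a) := by
    intro i
    by_contra hcon
    push Not at hcon
    have hb : 0 < 1 - min (α i) (1 / 2) := by
      have := min_le_right (α i) (1 / 2); linarith
    have hb' : 0 < min (α i) (1 / 2) := lt_min (hα i) (by norm_num)
    have := dual_le (f i) hb fun a ha => by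
      have h2 := hcon a ha
      have h3 := hcon _ (A_neg ha)
      rw [map_neg, map_neg] at h3
      have := min_le_left (α i) (1 / 2)
      rw [abs_le]; constructor <;> linarith
    rw [hf i] at this
    linarith
  choose a ha ha' using h1
  have ha2 := ha
  choose lev s hs hg using ha2
  have h2 : ∀ i, ∃ m : ℕ, ∀ z : E, ‖z‖ ≤ 1 → (∀ k < m, z k = 0) →
      |f i (eqv.symm z)| ≤ (f i (eqv.symm (a i)) - (1 - α i)) / 3 := fun i =>
    tail ((f i).comp (eqv.symm : E →L[ℝ] X)) (by have := ha' i; linarith)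
  choose m hm using h2
  set k := Finset.univ.sup lev + Finset.univ.sup m with hk
  have hk1 : ∀ i, lev i ≤ k := fun i =>
    (Finset.le_sup (f := lev) (Finset.mem_univ i)).trans (Nat.le_add_right _ _)
  have hk2 : ∀ i, m i ≤ k := fun i =>
    (Finset.le_sup (f := m) (Finset.mem_univ i)).trans (Nat.le_add_left _ _)
  have key : ∀ i (t : ℝ), |t| ≤ 1 →
      eqv.symm (a i + (t - (a i k).2) • ee k) ∈ slice (f i) (α i) := by
    intro i t ht
    refine ⟨norm_symm_le ⟨lev i, s i, hs i, perturb (hg i) (hk1 i) ht⟩, ?_⟩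
    have h3 := hm i (ee k) (ee_norm k).le fun j hj => by
      rw [ee_apply, if_neg (by have := hk2 i; omega)]
    have h4 : |(a i k).2| ≤ 1 := by
      have := (norm_snd_le (a i k)).trans ((E_ap (a i) k).trans (hg i).1)
      rwa [Real.norm_eq_abs] at this
    have h5 : |t - (a i k).2| ≤ 2 := (abs_sub _ _).trans (by linarith)
    rw [map_add, map_smul, map_add, map_smul, smul_eq_mul]
    have h6 : |(t - (a i k).2) * f i (eqv.symm (ee k))| ≤
        2 * ((f i (eqv.symm (a i)) - (1 - α i)) / 3) := by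
      rw [abs_mul]
      exact mul_le_mul h5 h3 (abs_nonneg _) (by norm_num)
    have h7 := neg_abs_le ((t - (a i k).2) * f i (eqv.symm (ee k)))
    have := ha' i
    linarith
  refine ⟨fun i => eqv.symm (a i + (0 - (a i k).2) • ee k), eqv.symm (ee k),
    norm_symm_le (ee_mem k), ?_, fun i => ⟨key i 0 (by simp), ?_, ?_⟩⟩
  · have := norm_symm_ge (ee k)
    rw [ee_norm] at this
    linarith
  · have := key i 1 (by simp)
    convert this using 1
    rw [← map_add]
    congr 1
    module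
  · have := key i (-1) (by simp)
    convert this using 1
    rw [← map_sub]
    congr 1
    module

/-- coordinate functionals -/
noncomputable def co (m : ℕ) : StrongDual ℝ X :=
  LinearMap.mkContinuous
    { toFun := fun z => (eqv z m).1
      map_add' := fun a b => by
        rw [map_add, ZeroAtInftyContinuousMap.add_apply]; rfl
      map_smul' := fun r a => by
        rw [map_smul, ZeroAtInftyContinuousMap.smul_apply]; rfl } 1
    (fun z => by
      rw [one_mul, X_norm]
      exact (norm_fst_le _).trans ((E_ap _ m).trans (N_ge _)))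

lemma co_apply (m : ℕ) (a : E) : co m (eqv.symm a) = (a m).1 := by
  show (eqv (eqv.symm a) m).1 = _
  rw [ContinuousLinearEquiv.apply_symm_apply]

lemma co_norm (m : ℕ) : ‖co m‖ ≤ 1 := LinearMap.mkContinuous_norm_le _ zero_le_one _

lemma bump (f : StrongDual ℝ X) (hf : ‖f‖ ≤ 1) {η : ℝ} (hη : 0 < η) {m0 m : ℕ} (hm : m0 ≤ m)
    (h : ∀ z : E, ‖z‖ ≤ 1 → (∀ k < m0, z k = 0) → |f (eqv.symm z)| ≤ η) {t : ℝ}
    (ht : |t| ≤ 1 / 3) :
    ‖co m + t • (f - f (eqv.symm (xx m)) • co m)‖ ≤ 1 + η := by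
  have hfb : ∀ a ∈ A, |f (eqv.symm a)| ≤ 1 := fun a ha => by
    have := f.le_opNorm (eqv.symm a)
    rw [Real.norm_eq_abs] at this
    have h2 : ‖f‖ * ‖eqv.symm a‖ ≤ 1 * 1 :=
      mul_le_mul hf (norm_symm_le ha) (norm_nonneg _) zero_le_one
    linarith
  refine dual_le _ (by linarith) fun a ha => ?_
  have hfa := hfb a ha
  have hfx := hfb _ (xx_mem m)
  obtain ⟨n, s, hs, h1, h2, h3⟩ := ha
  simp only [ContinuousLinearMap.add_apply, ContinuousLinearMap.smul_apply,
    ContinuousLinearMap.sub_apply, smul_eq_mul, co_apply]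
  by_cases hn : n ≤ m
  · have h4 := h3 m hn
    have h5 : |f (eqv.symm (xx m)) * (a m).1| ≤ 1 * (1 / 2) := by
      rw [abs_mul]; exact mul_le_mul hfx h4 (abs_nonneg _) zero_le_one
    have h6 : |f (eqv.symm a) - f (eqv.symm (xx m)) * (a m).1| ≤ 3 / 2 :=
      (abs_sub _ _).trans (by linarith)
    have h7 : |t * (f (eqv.symm a) - f (eqv.symm (xx m)) * (a m).1)| ≤ 1 / 3 * (3 / 2) := by
      rw [abs_mul]; exact mul_le_mul ht h6 (abs_nonneg _) (by norm_num)
    exact (abs_add_le _ _).trans (by linarith)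
  · push Not at hn
    have h4 : (a m).1 = s := by rw [h2 m hn]
    have hs1 : |s| = 1 := by rcases hs with h | h <;> simp [h]
    have h5 := h (a - s • xx m) (E_le zero_le_one fun j => ?_) (fun j hj => ?_)
    · rw [map_sub, map_smul, map_sub, map_smul, smul_eq_mul] at h5
      rw [h4, mul_comm (f (eqv.symm (xx m))) s]
      have h7 : |t * (f (eqv.symm a) - s * f (eqv.symm (xx m)))| ≤ 1 / 3 * η := by
        rw [abs_mul]; exact mul_le_mul ht h5 (abs_nonneg _) (by norm_num)
      exact (abs_add_le _ _).trans (by linarith)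
    · rw [ZeroAtInftyContinuousMap.sub_apply, ZeroAtInftyContinuousMap.smul_apply, xx_apply]
      by_cases hj : j < m
      · rw [if_pos hj, h2 j (by omega)]; simp
      · rw [if_neg hj]; simpa using (E_ap a j).trans h1
    · rw [ZeroAtInftyContinuousMap.sub_apply, ZeroAtInftyContinuousMap.smul_apply, xx_apply,
        if_pos (by omega), h2 j (by omega)]
      simp

theorem X_bidual : ¬ SSD2P (StrongDual ℝ (StrongDual ℝ X)) := by
  refine abs_bidual co (fun n => eqv.symm (xx n)) co_norm (fun n => norm_symm_le (xx_mem n))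
    (fun m n h => ?_) (fun f hf => ?_)
  · rw [co_apply, xx_apply, if_pos h]
  · obtain ⟨m0, hm0⟩ := tail (f.comp (eqv.symm : E →L[ℝ] X)) (η := 1 / 20) (by norm_num)
    exact ⟨m0, fun m hm t ht => bump f hf (η := 1 / 20) (by norm_num) hm hm0 ht⟩

end Pool.Agent.H545Z.SSD
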